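import Mathlib

set_option autoImplicit false
set_option linter.unusedSectionVars false

open Finset Matrix

namespace Pool.Agent.Elspas.Conf

variable {ι : Type} [DecidableEq ι] {n : ℕ}

/-- sign vectors with pairwise inner products at most one -/
structure Cfg (x : ι → Fin n → ℝ) : Prop where
  sgn : ∀ i a, x i a = 1 ∨ x i a = -1
  le_one : ∀ i j, i ≠ j → x i ⬝ᵥ x j ≤ 1

theorem dot_self_nonneg (u : Fin n → ℝ) : 0 ≤ u ⬝ᵥ u :=
  Finset.sum_nonneg fun a _ => mul_self_nonneg (u a)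

theorem amgm (u v : Fin n → ℝ) (l : ℝ) : -(2 * l * (u ⬝ᵥ v)) ≤ u ⬝ᵥ u + l ^ 2 * (v ⬝ᵥ v) := by
  have h := dot_self_nonneg (u + l • v)
  rw [add_dotProduct, dotProduct_add, dotProduct_add, smul_dotProduct, dotProduct_smul,
    dotProduct_smul, smul_dotProduct, dotProduct_comm v u] at h
  simp only [smul_eq_mul] at h
  nlinarith

theorem dot_sum_sum (S T : Finset ι) (c d : ι → ℝ) (y z : ι → Fin n → ℝ) :
    (∑ i ∈ S, c i • y i) ⬝ᵥ (∑ j ∈ T, d j • z j) =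
      ∑ i ∈ S, ∑ j ∈ T, c i * d j * (y i ⬝ᵥ z j) := by
  rw [sum_dotProduct]
  refine Finset.sum_congr rfl fun i _ => ?_
  rw [dotProduct_sum]
  refine Finset.sum_congr rfl fun j _ => ?_
  rw [smul_dotProduct, dotProduct_smul]
  simp only [smul_eq_mul]; ring

variable {x : ι → Fin n → ℝ}

theorem Cfg.mul_self (h : Cfg x) (i : ι) (a : Fin n) : x i a * x i a = 1 := by
  rcases h.sgn i a with e | e <;> rw [e] <;> norm_num

theorem Cfg.self (h : Cfg x) (i : ι) : x i ⬝ᵥ x i = n := by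
  simp [dotProduct, h.mul_self]

theorem Cfg.ge (h : Cfg x) (i j : ι) : -(n : ℝ) ≤ x i ⬝ᵥ x j := by
  have := amgm (x i) (x j) 1
  rw [h.self, h.self] at this
  linarith

/-- the norm of a nonnegative combination -/
theorem Cfg.nsq_le (h : Cfg x) (S : Finset ι) (w : ι → ℝ) (hw : ∀ j ∈ S, 0 ≤ w j) :
    (∑ j ∈ S, w j • x j) ⬝ᵥ (∑ j ∈ S, w j • x j) ≤
      n * ∑ j ∈ S, w j ^ 2 + (∑ j ∈ S, w j) ^ 2 := by
  rw [dot_sum_sum, pow_two (∑ j ∈ S, w j), Finset.sum_mul_sum, Finset.mul_sum, ← Finset.sum_add_distrib]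
  refine Finset.sum_le_sum fun i hi => ?_
  have e : (n : ℝ) * w i ^ 2 = ∑ j ∈ S, if j = i then (n : ℝ) * w i ^ 2 else 0 := by
    rw [Finset.sum_ite_eq' S i]; simp [hi]
  rw [e, ← Finset.sum_add_distrib]
  refine Finset.sum_le_sum fun j hj => ?_
  have hij := mul_nonneg (hw i hi) (hw j hj)
  by_cases e : j = i
  · subst e
    rw [h.self]; simp only [if_true]; nlinarith
  · have := h.le_one i j (Ne.symm e)
    simp only [e, if_false]; nlinarith

/-- negative part of the Gram matrix -/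
noncomputable def g (x : ι → Fin n → ℝ) (i j : ι) : ℝ := max (-(x i ⬝ᵥ x j)) 0

theorem g_nonneg (i j : ι) : 0 ≤ g x i j := le_max_right _ _

theorem g_ge (i j : ι) : -(x i ⬝ᵥ x j) ≤ g x i j := le_max_left _ _

theorem g_comm (i j : ι) : g x i j = g x j i := by
  unfold g; rw [dotProduct_comm]

theorem g_mul (i j : ι) : g x i j * (x i ⬝ᵥ x j) = -(g x i j ^ 2) := by
  unfold g
  rcases le_total (-(x i ⬝ᵥ x j)) 0 with e | e
  · rw [max_eq_right e]; ring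
  · rw [max_eq_left e]; ring

theorem Cfg.g_self (h : Cfg x) (i : ι) : g x i i = 0 := by
  unfold g; rw [h.self]; exact max_eq_right (by simp)

theorem Cfg.g_le (h : Cfg x) (i j : ι) : g x i j ≤ n :=
  max_le (by linarith [h.ge i j]) (Nat.cast_nonneg n)

theorem Cfg.sq_le (h : Cfg x) (i j : ι) (hij : i ≠ j) : (x i ⬝ᵥ x j) ^ 2 ≤ g x i j ^ 2 + 1 := by
  have h1 := h.le_one i j hij
  unfold g
  rcases le_total (-(x i ⬝ᵥ x j)) 0 with e | e
  · rw [max_eq_right e]; nlinarith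
  · rw [max_eq_left e]; nlinarith

theorem Cfg.le_sub_g (h : Cfg x) (i j : ι) (hij : i ≠ j) : x i ⬝ᵥ x j ≤ 1 - g x i j := by
  have h1 := h.le_one i j hij
  unfold g
  rcases le_total (-(x i ⬝ᵥ x j)) 0 with e | e
  · rw [max_eq_right e]; linarith
  · rw [max_eq_left e]; linarith

/-- the row bound -/
theorem Cfg.row (h : Cfg x) (S : Finset ι) (i : ι) :
    n * ∑ j ∈ S, g x i j ^ 2 ≤ (n : ℝ) ^ 3 + (∑ j ∈ S, g x i j) ^ 2 := by
  have h1 := amgm (∑ j ∈ S, g x i j • x j) (x i) n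
  have h2 := h.nsq_le S (g x i) fun j _ => g_nonneg i j
  have h3 : (∑ j ∈ S, g x i j • x j) ⬝ᵥ x i = -∑ j ∈ S, g x i j ^ 2 := by
    rw [sum_dotProduct, ← Finset.sum_neg_distrib]
    refine Finset.sum_congr rfl fun j _ => ?_
    rw [smul_dotProduct, smul_eq_mul, dotProduct_comm, g_mul]
  rw [h3, h.self] at h1
  nlinarith

theorem Cfg.msq_le (h : Cfg x) (S : Finset ι) :
    (∑ j ∈ S, x j) ⬝ᵥ (∑ j ∈ S, x j) ≤ S.card * (n + S.card) := by
  have := h.nsq_le S (fun _ => 1) fun _ _ => zero_le_one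
  simp only [one_smul, one_pow, Finset.sum_const, nsmul_eq_mul, mul_one] at this
  nlinarith

/-- the row sums of the negative part are small in mean square -/
theorem Cfg.gam (h : Cfg x) (S : Finset ι) (hS : (S.card : ℝ) ≤ 3 * n) (hn : 0 < n) :
    ∑ i ∈ S, (∑ j ∈ S, g x i j) ^ 2 ≤ 136 * S.card * (n : ℝ) ^ 2 := by
  set m : Fin n → ℝ := ∑ j ∈ S, x j with hm
  set p : ℝ := (S.card : ℝ) with hp
  have hp0 : 0 ≤ p := Nat.cast_nonneg _
  have hn0 : (0 : ℝ) < n := by exact_mod_cast hn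
  set w : ι → ℝ := fun i => max (-(x i ⬝ᵥ m)) 0 with hw
  have hw0 : ∀ i, 0 ≤ w i := fun i => le_max_right _ _
  have hR : ∀ i ∈ S, x i ⬝ᵥ m ≤ n + p - ∑ j ∈ S, g x i j := by
    intro i hi
    have e : (n : ℝ) + p - ∑ j ∈ S, g x i j =
        ∑ j ∈ S, ((if j = i then (n : ℝ) else 0) + 1 - g x i j) := by
      rw [Finset.sum_sub_distrib, Finset.sum_add_distrib, Finset.sum_ite_eq' S i]
      simp [hi, hp]
    rw [e, hm, dotProduct_sum]
    refine Finset.sum_le_sum fun j _ => ?_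
    by_cases e : j = i
    · subst e; rw [h.self, h.g_self]; simp
    · have := h.le_sub_g i j (Ne.symm e)
      simp only [e, if_false]; linarith
  have hmm : ∑ i ∈ S, x i ⬝ᵥ m = m ⬝ᵥ m := by rw [hm, sum_dotProduct]
  have hm2 : m ⬝ᵥ m ≤ p * (n + p) := h.msq_le S
  have hsw : ∑ i ∈ S, w i ≤ p * (n + p) := by
    have : ∑ i ∈ S, (w i + x i ⬝ᵥ m) ≤ ∑ i ∈ S, ((n : ℝ) + p) := by
      refine Finset.sum_le_sum fun i hi => ?_
      have h1 := hR i hi
      have h2 : 0 ≤ ∑ j ∈ S, g x i j := Finset.sum_nonneg fun j _ => g_nonneg i j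
      simp only [hw]
      rcases le_total (-(x i ⬝ᵥ m)) 0 with e | e
      · rw [max_eq_right e]; linarith
      · rw [max_eq_left e]; linarith
    rw [Finset.sum_add_distrib, hmm, Finset.sum_const, nsmul_eq_mul] at this
    linarith [dot_self_nonneg m]
  have hsw0 : 0 ≤ ∑ i ∈ S, w i := Finset.sum_nonneg fun i _ => hw0 i
  have h1 := amgm (∑ i ∈ S, w i • x i) m n
  have h2 := h.nsq_le S w fun i _ => hw0 i
  have h3 : (∑ i ∈ S, w i • x i) ⬝ᵥ m = -∑ i ∈ S, w i ^ 2 := by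
    rw [sum_dotProduct, ← Finset.sum_neg_distrib]
    refine Finset.sum_congr rfl fun i _ => ?_
    rw [smul_dotProduct, smul_eq_mul]
    simp only [hw]
    rcases le_total (-(x i ⬝ᵥ m)) 0 with e | e
    · rw [max_eq_right e]; ring
    · rw [max_eq_left e]; ring
  rw [h3] at h1
  have h4 : p * (n + p) ≤ 4 * p * n := by nlinarith
  have h5 : (∑ i ∈ S, w i) ^ 2 ≤ (4 * p * n) ^ 2 := pow_le_pow_left₀ hsw0 (by linarith) 2
  have h6 : n * ∑ i ∈ S, w i ^ 2 ≤ n * (52 * p * (n : ℝ) ^ 2) := by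
    have h7 : (n : ℝ) ^ 2 * (m ⬝ᵥ m) ≤ (n : ℝ) ^ 2 * (4 * p * n) :=
      mul_le_mul_of_nonneg_left (by linarith) (by positivity)
    have h8 : (4 * p * n) ^ 2 ≤ 48 * p * (n : ℝ) ^ 3 := by
      have : p * (p * (n : ℝ) ^ 2) ≤ 3 * n * (p * (n : ℝ) ^ 2) :=
        mul_le_mul_of_nonneg_right hS (by positivity)
      nlinarith
    nlinarith
  have h7 : ∑ i ∈ S, w i ^ 2 ≤ 52 * p * (n : ℝ) ^ 2 := le_of_mul_le_mul_left h6 hn0
  have h8 : ∑ i ∈ S, (∑ j ∈ S, g x i j) ^ 2 ≤ ∑ i ∈ S, (32 * (n : ℝ) ^ 2 + 2 * w i ^ 2) := by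
    refine Finset.sum_le_sum fun i hi => ?_
    have h1 := hR i hi
    have h2 : 0 ≤ ∑ j ∈ S, g x i j := Finset.sum_nonneg fun j _ => g_nonneg i j
    have h3 : -(x i ⬝ᵥ m) ≤ w i := le_max_left _ _
    have h4 : ∑ j ∈ S, g x i j ≤ 4 * n + w i := by linarith
    have h5 := pow_le_pow_left₀ h2 h4 2
    nlinarith [sq_nonneg (4 * (n : ℝ) - w i)]
  rw [Finset.sum_add_distrib, Finset.sum_const, nsmul_eq_mul, ← Finset.mul_sum] at h8
  nlinarith

/-- second moment inside any subfamily -/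
theorem Cfg.block (h : Cfg x) (S : Finset ι) (hS : (S.card : ℝ) ≤ 3 * n) (hn : 0 < n) :
    ∑ i ∈ S, ∑ j ∈ S.erase i, (x i ⬝ᵥ x j) ^ 2 ≤ S.card * (n : ℝ) ^ 2 + 139 * S.card * n := by
  have hn0 : (0 : ℝ) < n := by exact_mod_cast hn
  have hp0 : (0 : ℝ) ≤ S.card := Nat.cast_nonneg _
  have h1 : ∑ i ∈ S, ∑ j ∈ S.erase i, (x i ⬝ᵥ x j) ^ 2 ≤
      ∑ i ∈ S, (∑ j ∈ S, g x i j ^ 2 + S.card) := by
    refine Finset.sum_le_sum fun i _ => ?_
    calc ∑ j ∈ S.erase i, (x i ⬝ᵥ x j) ^ 2 ≤ ∑ j ∈ S.erase i, (g x i j ^ 2 + 1) :=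
          Finset.sum_le_sum fun j hj => h.sq_le i j (Finset.ne_of_mem_erase hj).symm
      _ ≤ ∑ j ∈ S, (g x i j ^ 2 + 1) :=
          Finset.sum_le_sum_of_subset_of_nonneg (Finset.erase_subset _ _)
            fun j _ _ => by positivity
      _ = _ := by rw [Finset.sum_add_distrib]; simp
  have h2 : n * ∑ i ∈ S, ∑ j ∈ S, g x i j ^ 2 ≤
      ∑ i ∈ S, ((n : ℝ) ^ 3 + (∑ j ∈ S, g x i j) ^ 2) := by
    rw [Finset.mul_sum]
    exact Finset.sum_le_sum fun i _ => h.row S i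
  rw [Finset.sum_add_distrib, Finset.sum_const, nsmul_eq_mul] at h1 h2
  have h3 := h.gam S hS hn
  have h4 : n * ∑ i ∈ S, ∑ j ∈ S, g x i j ^ 2 ≤
      n * (S.card * (n : ℝ) ^ 2 + 136 * S.card * n) := by nlinarith
  have h5 := le_of_mul_le_mul_left h4 hn0
  nlinarith

end Pool.Agent.Elspas.Conf
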