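import Pool.Agent.P.MP_459691_co.ConfA

set_option autoImplicit false
set_option linter.unusedSectionVars false

open Finset Matrix

namespace Pool.Agent.Elspas.Conf

variable {ι : Type} [DecidableEq ι] [Fintype ι] {n : ℕ}

/-- squared Frobenius norm -/
def fr {α β : Type} [Fintype α] [Fintype β] (A : Matrix α β ℝ) : ℝ := ∑ i, ∑ j, A i j ^ 2

theorem fr_nonneg {α β : Type} [Fintype α] [Fintype β] (A : Matrix α β ℝ) : 0 ≤ fr A :=
  Finset.sum_nonneg fun _ _ => Finset.sum_nonneg fun _ _ => sq_nonneg _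

theorem fr_eq_trace {α β : Type} [Fintype α] [Fintype β] (A : Matrix α β ℝ) :
    fr A = trace (A * Aᵀ) := by
  simp [fr, trace, Matrix.mul_apply, sq]

theorem fr_mul_le {α β γ : Type} [Fintype α] [Fintype β] [Fintype γ] (A : Matrix α β ℝ)
    (B : Matrix β γ ℝ) : fr (A * B) ≤ fr A * fr B := by
  unfold fr
  rw [Finset.sum_comm (f := fun i j => B i j ^ 2), Finset.sum_mul_sum]
  refine Finset.sum_le_sum fun i _ => Finset.sum_le_sum fun j _ => ?_
  rw [Matrix.mul_apply]
  exact Finset.sum_mul_sq_le_sq_mul_sq _ _ _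

theorem trace_sq_le {α : Type} [Fintype α] (A : Matrix α α ℝ) : trace (A * A) ≤ fr A := by
  have h1 : trace (A * A) = ∑ i, ∑ j, A i j * A j i := by simp [trace, Matrix.mul_apply]
  have h2 : fr A = ∑ i, ∑ j, A j i ^ 2 := by unfold fr; rw [Finset.sum_comm]
  have h3 : 2 * trace (A * A) ≤ fr A + fr A := by
    nth_rewrite 2 [h2]
    rw [h1, Finset.mul_sum]
    unfold fr
    rw [← Finset.sum_add_distrib]
    refine Finset.sum_le_sum fun i _ => ?_
    rw [Finset.mul_sum, ← Finset.sum_add_distrib]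
    refine Finset.sum_le_sum fun j _ => ?_
    nlinarith [sq_nonneg (A i j - A j i)]
  linarith

theorem fr_add_le {α β : Type} [Fintype α] [Fintype β] (A B : Matrix α β ℝ) (c : ℝ) :
    fr (c • A + B) ≤ 2 * c ^ 2 * fr A + 2 * fr B := by
  unfold fr
  rw [Finset.mul_sum, Finset.mul_sum, ← Finset.sum_add_distrib]
  refine Finset.sum_le_sum fun i _ => ?_
  rw [Finset.mul_sum, Finset.mul_sum, ← Finset.sum_add_distrib]
  refine Finset.sum_le_sum fun j _ => ?_
  simp only [Matrix.add_apply, Matrix.smul_apply, smul_eq_mul]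
  nlinarith [sq_nonneg (c * A i j - B i j)]

/-- off diagonal part of the column Gram matrix -/
def E (x : ι → Fin n → ℝ) : Matrix (Fin n) (Fin n) ℝ :=
  fun a b => if a = b then 0 else ∑ i, x i a * x i b

variable {x : ι → Fin n → ℝ}

theorem E_symm : (E x)ᵀ = E x := by
  ext a b
  simp only [Matrix.transpose_apply, E, eq_comm (a := b)]
  split_ifs
  · rfl
  · exact Finset.sum_congr rfl fun i _ => mul_comm _ _

theorem Cfg.col (h : Cfg x) :
    (Matrix.of x)ᵀ * Matrix.of x = (Fintype.card ι : ℝ) • (1 : Matrix (Fin n) (Fin n) ℝ) + E x := by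
  ext a b
  simp only [Matrix.mul_apply, Matrix.transpose_apply, Matrix.of_apply, Matrix.add_apply, Matrix.smul_apply, Matrix.one_apply, E, smul_eq_mul]
  split_ifs with e
  · subst e; simp [h.mul_self]
  · simp

theorem gram_apply (i j : ι) : (Matrix.of x * (Matrix.of x)ᵀ) i j = x i ⬝ᵥ x j := by
  simp [Matrix.mul_apply, dotProduct]

/-- the second moment identity -/
theorem Cfg.moment (h : Cfg x) :
    ∑ i, ∑ j ∈ univ.erase i, (x i ⬝ᵥ x j) ^ 2 =
      n * (Fintype.card ι : ℝ) ^ 2 - Fintype.card ι * (n : ℝ) ^ 2 + fr (E x) := by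
  set X : Matrix ι (Fin n) ℝ := Matrix.of x with hX
  have h1 : fr (X * Xᵀ) = fr (Xᵀ * X) := by
    rw [fr_eq_trace, fr_eq_trace, transpose_mul, transpose_mul, transpose_transpose,
      Matrix.mul_assoc X, trace_mul_comm]
    simp only [Matrix.mul_assoc]
  have h2 : fr (Xᵀ * X) = n * (Fintype.card ι : ℝ) ^ 2 + fr (E x) := by
    rw [hX, h.col]
    unfold fr
    have : ∀ a : Fin n, ∑ b, (((Fintype.card ι : ℝ) • (1 : Matrix (Fin n) (Fin n) ℝ) + E x) a b) ^ 2
        = (Fintype.card ι : ℝ) ^ 2 + ∑ b, E x a b ^ 2 := by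
      intro a
      have e : (Fintype.card ι : ℝ) ^ 2 = ∑ b, if b = a then (Fintype.card ι : ℝ) ^ 2 else 0 := by
        simp
      rw [e, ← Finset.sum_add_distrib]
      refine Finset.sum_congr rfl fun b _ => ?_
      simp only [Matrix.add_apply, Matrix.smul_apply, Matrix.one_apply, E, smul_eq_mul, eq_comm (a := b)]
      split_ifs <;> simp
    rw [Finset.sum_congr rfl fun a _ => this a, Finset.sum_add_distrib]
    simp
  have h3 : fr (X * Xᵀ) = Fintype.card ι * (n : ℝ) ^ 2 +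
      ∑ i, ∑ j ∈ univ.erase i, (x i ⬝ᵥ x j) ^ 2 := by
    unfold fr
    have : ∀ i, ∑ j, ((X * Xᵀ) i j) ^ 2 = (n : ℝ) ^ 2 + ∑ j ∈ univ.erase i, (x i ⬝ᵥ x j) ^ 2 := by
      intro i
      simp only [hX, gram_apply]
      rw [← Finset.add_sum_erase _ _ (mem_univ i), h.self]
    rw [Finset.sum_congr rfl fun a _ => this a, Finset.sum_add_distrib]
    simp
  linarith

/-- the quadratic form of the columns -/
theorem Cfg.quad (h : Cfg x) (t : Fin n → ℝ) :
    ∑ l, (t ⬝ᵥ x l) ^ 2 = Fintype.card ι * (t ⬝ᵥ t) + ∑ a, ∑ b, E x a b * (t a * t b) := by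
  have h1 : ∑ l, (t ⬝ᵥ x l) ^ 2 = ∑ a, ∑ b, ((Matrix.of x)ᵀ * Matrix.of x) a b * (t a * t b) := by
    simp only [Matrix.mul_apply, Matrix.transpose_apply, Matrix.of_apply, Finset.sum_mul, sq, dotProduct,
      Finset.mul_sum]
    rw [Finset.sum_comm]
    refine Finset.sum_congr rfl fun a _ => ?_
    rw [Finset.sum_comm]
    refine Finset.sum_congr rfl fun b _ => Finset.sum_congr rfl fun l _ => by ring
  rw [h1, h.col]
  simp only [Matrix.add_apply, Matrix.smul_apply, Matrix.one_apply, smul_eq_mul, add_mul, Finset.sum_add_distrib,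
    dotProduct, Finset.mul_sum]
  congr 1
  refine Finset.sum_congr rfl fun a _ => ?_
  simp

/-- the Gram matrix is close to a multiple of a projection -/
theorem Cfg.proj (h : Cfg x) :
    ∑ i, ∑ l, (∑ k, (x i ⬝ᵥ x k) * (x k ⬝ᵥ x l) - Fintype.card ι * (x i ⬝ᵥ x l)) ^ 2 ≤
      2 * (Fintype.card ι : ℝ) ^ 2 * fr (E x) + 2 * fr (E x) ^ 2 := by
  set X : Matrix ι (Fin n) ℝ := Matrix.of x with hX
  set M : ℝ := (Fintype.card ι : ℝ) with hM
  have hK : Xᵀ * X = M • (1 : Matrix (Fin n) (Fin n) ℝ) + E x := h.col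
  have h1 : X * E x * Xᵀ = (X * Xᵀ) * (X * Xᵀ) - M • (X * Xᵀ) := by
    rw [Matrix.mul_assoc X Xᵀ, ← Matrix.mul_assoc Xᵀ, hK, Matrix.add_mul, Matrix.mul_add,
      Matrix.smul_mul, Matrix.one_mul, Matrix.mul_smul, Matrix.mul_assoc]
    abel
  have h2 : ∑ i, ∑ l, (∑ k, (x i ⬝ᵥ x k) * (x k ⬝ᵥ x l) - M * (x i ⬝ᵥ x l)) ^ 2 =
      fr (X * E x * Xᵀ) := by
    rw [h1]
    unfold fr
    refine Finset.sum_congr rfl fun i _ => Finset.sum_congr rfl fun l _ => ?_
    rw [Matrix.sub_apply, Matrix.smul_apply, Matrix.mul_apply (M := X * Xᵀ)]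
    simp only [hX, gram_apply, smul_eq_mul]
  have h3 : fr (X * E x * Xᵀ) = trace ((E x * (Xᵀ * X)) * (E x * (Xᵀ * X))) := by
    rw [fr_eq_trace, transpose_mul, transpose_mul, transpose_transpose, E_symm,
      Matrix.mul_assoc X, Matrix.mul_assoc X, trace_mul_comm]
    simp only [Matrix.mul_assoc]
  have h4 : E x * (Xᵀ * X) = M • E x + E x * E x := by
    rw [hK, Matrix.mul_add, Matrix.mul_smul, Matrix.mul_one]
  rw [h2, h3, h4]
  have h5 := trace_sq_le (M • E x + E x * E x)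
  have h6 := fr_add_le (E x) (E x * E x) M
  have h7 := fr_mul_le (E x) (E x)
  nlinarith

end Pool.Agent.Elspas.Conf
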