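import Pool.Agent.P.MP_459691_co.ConfB

set_option autoImplicit false
set_option linter.unusedSectionVars false

open Finset Matrix

namespace Pool.Agent.Elspas.Conf

variable {ι : Type} [DecidableEq ι] [Fintype ι] {n : ℕ} {x : ι → Fin n → ℝ}

theorem Cfg.kappa (h : Cfg x) (hM : (Fintype.card ι : ℝ) = 2 * n + 3) (hn : 3 ≤ n) :
    fr (E x) ≤ 417 * (n : ℝ) ^ 2 := by
  have hn3 : (3 : ℝ) ≤ n := by exact_mod_cast hn
  have h1 := h.moment
  have h2 := h.block univ (by rw [card_univ, hM]; linarith) (by omega)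
  rw [card_univ] at h2
  rw [hM] at h1 h2
  nlinarith

theorem Cfg.path (h : Cfg x) (hM : (Fintype.card ι : ℝ) = 2 * n + 3) (i l : ι) (hil : i ≠ l) :
    ∑ k, g x i k * g x k l ≤
      (∑ k, (x i ⬝ᵥ x k) * (x k ⬝ᵥ x l) - Fintype.card ι * (x i ⬝ᵥ x l)) + 3 +
        ∑ k, g x i k + ∑ k, g x l k := by
  have h1 : ∑ k, (g x i k * g x k l - g x i k - g x l k) ≤
      ∑ k, ((x i ⬝ᵥ x k) * (x k ⬝ᵥ x l) - (if k = i then n * (x i ⬝ᵥ x l) else 0) -
        (if k = l then n * (x i ⬝ᵥ x l) else 0)) := by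
    refine Finset.sum_le_sum fun k _ => ?_
    by_cases e1 : k = i
    · subst e1
      rw [h.g_self, h.self]
      simp only [if_true, hil, if_false]
      linarith [g_nonneg (x := x) l k]
    · by_cases e2 : k = l
      · subst e2
        rw [h.g_self, h.self]
        simp only [if_true, e1, if_false]
        linarith [g_nonneg (x := x) i k]
      · simp only [e1, e2, if_false]
        have a1 := h.le_one i k (Ne.symm e1)
        have a2 := h.le_one k l e2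
        rw [g_comm l k]
        unfold g
        rcases le_total (-(x i ⬝ᵥ x k)) 0 with b1 | b1 <;>
          rcases le_total (-(x k ⬝ᵥ x l)) 0 with b2 | b2
        · rw [max_eq_right b1, max_eq_right b2]; nlinarith
        · rw [max_eq_right b1, max_eq_left b2]; nlinarith
        · rw [max_eq_left b1, max_eq_right b2]; nlinarith
        · rw [max_eq_left b1, max_eq_left b2]; nlinarith
  simp only [Finset.sum_sub_distrib, Finset.sum_ite_eq', mem_univ, if_true] at h1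
  have h2 := h.le_one i l hil
  rw [hM]
  linarith

theorem Cfg.fourth (h : Cfg x) (hM : (Fintype.card ι : ℝ) = 2 * n + 3) (hn : 3 ≤ n) :
    ∑ k, ((∑ j, g x k j ^ 2) ^ 2 - ∑ j, g x k j ^ 4) ≤ 1440000 * (n : ℝ) ^ 4 := by
  have hn3 : (3 : ℝ) ≤ n := by exact_mod_cast hn
  set Y : ι → ι → ℝ := fun i l =>
    ∑ k, (x i ⬝ᵥ x k) * (x k ⬝ᵥ x l) - Fintype.card ι * (x i ⬝ᵥ x l) with hY
  set γ : ι → ℝ := fun i => ∑ k, g x i k with hγ
  have h1 : ∑ k, ((∑ j, g x k j ^ 2) ^ 2 - ∑ j, g x k j ^ 4) =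
      ∑ i, ∑ l ∈ univ.erase i, ∑ k, (g x i k * g x k l) ^ 2 := by
    have : ∀ k, (∑ j, g x k j ^ 2) ^ 2 - ∑ j, g x k j ^ 4 =
        ∑ i, ∑ l ∈ univ.erase i, (g x i k * g x k l) ^ 2 := by
      intro k
      rw [pow_two (∑ j, g x k j ^ 2), Finset.sum_mul_sum, ← Finset.sum_sub_distrib]
      refine Finset.sum_congr rfl fun i _ => ?_
      rw [← Finset.add_sum_erase _ _ (mem_univ i), g_comm i k]
      have : ∑ l ∈ univ.erase i, (g x k i * g x k l) ^ 2 =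
          ∑ l ∈ univ.erase i, g x k i ^ 2 * g x k l ^ 2 :=
        Finset.sum_congr rfl fun l _ => by ring
      rw [this]; ring
    rw [Finset.sum_congr rfl fun k _ => this k, Finset.sum_comm]
    refine Finset.sum_congr rfl fun i _ => ?_
    rw [Finset.sum_comm]
  have h2 : ∑ i, ∑ l ∈ univ.erase i, ∑ k, (g x i k * g x k l) ^ 2 ≤
      ∑ i, ∑ l, 4 * (Y i l ^ 2 + 9 + γ i ^ 2 + γ l ^ 2) := by
    refine Finset.sum_le_sum fun i _ => ?_
    refine le_trans (Finset.sum_le_sum fun l hl => ?_)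
      (Finset.sum_le_sum_of_subset_of_nonneg (Finset.erase_subset i univ)
        fun l _ _ => by positivity)
    have a1 : ∑ k, (g x i k * g x k l) ^ 2 ≤ (∑ k, g x i k * g x k l) ^ 2 :=
      Finset.sum_sq_le_sq_sum_of_nonneg fun k _ => mul_nonneg (g_nonneg _ _) (g_nonneg _ _)
    have a2 : 0 ≤ ∑ k, g x i k * g x k l :=
      Finset.sum_nonneg fun k _ => mul_nonneg (g_nonneg _ _) (g_nonneg _ _)
    have a3 : ∑ k, g x i k * g x k l ≤ Y i l + 3 + γ i + γ l :=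
      h.path hM i l (Finset.ne_of_mem_erase hl).symm
    have a4 := pow_le_pow_left₀ a2 a3 2
    nlinarith [sq_nonneg (Y i l - 3), sq_nonneg (Y i l - γ i), sq_nonneg (Y i l - γ l),
      sq_nonneg (3 - γ i), sq_nonneg (3 - γ l), sq_nonneg (γ i - γ l)]
  have h3 : ∑ i, ∑ l, 4 * (Y i l ^ 2 + 9 + γ i ^ 2 + γ l ^ 2) =
      4 * (∑ i, ∑ l, Y i l ^ 2 + 9 * (Fintype.card ι : ℝ) ^ 2 +
        2 * Fintype.card ι * ∑ i, γ i ^ 2) := by
    simp only [← Finset.mul_sum, Finset.sum_add_distrib, Finset.sum_const, card_univ,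
      nsmul_eq_mul]
    ring
  have h4 : ∑ i, ∑ l, Y i l ^ 2 ≤ _ := h.proj
  have h5 : ∑ i, γ i ^ 2 ≤ _ := h.gam univ (by rw [card_univ, hM]; linarith) (by omega)
  have h6 := h.kappa hM hn
  have h7 := fr_nonneg (E x)
  rw [card_univ] at h5
  set M : ℝ := (Fintype.card ι : ℝ) with hM'
  have hM0 : 0 ≤ M := by linarith
  have hM3 : M ≤ 3 * n := by linarith
  have hM2 : M ^ 2 ≤ 9 * (n : ℝ) ^ 2 := by nlinarith
  have hn2 : (1 : ℝ) ≤ (n : ℝ) ^ 2 := by nlinarith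
  have b1 : M ^ 2 * fr (E x) ≤ 9 * (n : ℝ) ^ 2 * (417 * (n : ℝ) ^ 2) :=
    mul_le_mul hM2 h6 h7 (by positivity)
  have b2 : fr (E x) ^ 2 ≤ (417 * (n : ℝ) ^ 2) ^ 2 := pow_le_pow_left₀ h7 h6 2
  have b3 : M * ∑ i, γ i ^ 2 ≤ M * (136 * M * (n : ℝ) ^ 2) := mul_le_mul_of_nonneg_left h5 hM0
  have b4 : M ^ 2 * (n : ℝ) ^ 2 ≤ 9 * (n : ℝ) ^ 2 * (n : ℝ) ^ 2 :=
    mul_le_mul_of_nonneg_right hM2 (by positivity)
  have b5 : (n : ℝ) ^ 2 * 1 ≤ (n : ℝ) ^ 2 * (n : ℝ) ^ 2 :=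
    mul_le_mul_of_nonneg_left hn2 (by positivity)
  rw [h1]
  nlinarith

/-- on average every vector has an almost antipodal partner -/
theorem Cfg.partner (h : Cfg x) (hM : (Fintype.card ι : ℝ) = 2 * n + 3) (hn : 3 ≤ n)
    (μ : ι → ℝ) (h0 : ∀ k, 0 ≤ μ k) (h1 : ∀ k, μ k ≤ n) (h2 : ∀ k j, g x k j ≤ μ k) :
    ∑ k, ((n : ℝ) - μ k) ≤ 3000000 * n := by
  have hn3 : (3 : ℝ) ≤ n := by exact_mod_cast hn
  set Q : ι → ℝ := fun k => ∑ j, g x k j ^ 2 with hQ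
  set γ : ι → ℝ := fun i => ∑ k, g x i k with hγ
  set U : ι → ℝ := fun k => Q k ^ 2 - ∑ j, g x k j ^ 4 with hU
  have a1 : ∀ k, (n : ℝ) ^ 3 * (n - μ k) ≤
      2 * n * ((n : ℝ) ^ 3 + γ k ^ 2 - n * Q k) + 2 * U k := by
    intro k
    have b1 : n * Q k ≤ (n : ℝ) ^ 3 + γ k ^ 2 := h.row univ k
    have b2 : 0 ≤ U k := by
      have := Finset.sum_sq_le_sq_sum_of_nonneg (s := univ) (f := fun j => g x k j ^ 2)
        fun j _ => sq_nonneg _
      have e : ∑ j, g x k j ^ 4 = ∑ j, (g x k j ^ 2) ^ 2 :=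
        Finset.sum_congr rfl fun j _ => by ring
      simp only [hU, hQ]; linarith
    have b3 : Q k * (Q k - μ k ^ 2) ≤ U k := by
      have : ∑ j, g x k j ^ 4 ≤ ∑ j, g x k j ^ 2 * μ k ^ 2 := by
        refine Finset.sum_le_sum fun j _ => ?_
        have := pow_le_pow_left₀ (g_nonneg k j) (h2 k j) 2
        nlinarith [sq_nonneg (g x k j)]
      rw [← Finset.sum_mul] at this
      simp only [hU, hQ] at *; nlinarith
    have b4 : (n : ℝ) * (n - μ k) ≤ (n : ℝ) ^ 2 - μ k ^ 2 := by nlinarith [h0 k, h1 k]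
    have b5 : (n : ℝ) ^ 3 * (n - μ k) ≤ (n : ℝ) ^ 2 * ((n : ℝ) ^ 2 - μ k ^ 2) := by
      have := mul_le_mul_of_nonneg_left b4 (sq_nonneg (n : ℝ))
      nlinarith
    have b6 : 0 ≤ (n : ℝ) * γ k ^ 2 := by positivity
    have b7 : 0 ≤ n * ((n : ℝ) ^ 3 + γ k ^ 2 - n * Q k) := mul_nonneg (by linarith) (by linarith)
    rcases le_total ((n : ℝ) ^ 2) (2 * Q k) with c | c
    · rcases le_total (μ k ^ 2) (Q k) with d | d
      · have := mul_le_mul_of_nonneg_right c (sub_nonneg.2 d)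
        nlinarith
      · have := mul_le_mul_of_nonneg_left d (sq_nonneg (n : ℝ))
        nlinarith
    · have e1 := mul_le_mul_of_nonneg_left c (sq_nonneg (n : ℝ))
      have e2 : 0 ≤ (n : ℝ) ^ 2 * μ k ^ 2 := by positivity
      nlinarith
  have a2 : ∑ k, U k ≤ 1440000 * (n : ℝ) ^ 4 := h.fourth hM hn
  have a3 : ∑ i, γ i ^ 2 ≤ _ := h.gam univ (by rw [card_univ, hM]; linarith) (by omega)
  have a4 : ∑ i, ∑ j ∈ univ.erase i, (x i ⬝ᵥ x j) ^ 2 ≤ ∑ i, (Q i + Fintype.card ι) := by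
    refine Finset.sum_le_sum fun i _ => ?_
    calc ∑ j ∈ univ.erase i, (x i ⬝ᵥ x j) ^ 2 ≤ ∑ j ∈ univ.erase i, (g x i j ^ 2 + 1) :=
          Finset.sum_le_sum fun j hj => h.sq_le i j (Finset.ne_of_mem_erase hj).symm
      _ ≤ ∑ j, (g x i j ^ 2 + 1) :=
          Finset.sum_le_sum_of_subset_of_nonneg (Finset.erase_subset _ _)
            fun j _ _ => by positivity
      _ = _ := by rw [Finset.sum_add_distrib]; simp [hQ]
  rw [h.moment, Finset.sum_add_distrib, Finset.sum_const, card_univ, nsmul_eq_mul] at a4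
  have a5 := Finset.sum_le_sum fun k (_ : k ∈ univ) => a1 k
  simp only [← Finset.mul_sum, Finset.sum_add_distrib, Finset.sum_sub_distrib (f := fun k => (n : ℝ) ^ 3 + γ k ^ 2), Finset.sum_const, card_univ, nsmul_eq_mul] at a5
  rw [card_univ] at a3
  have a6 := fr_nonneg (E x)
  rw [hM] at a3 a4 a5
  have a7 : (2 * n + 3) * (n : ℝ) ^ 2 ≤ ∑ k, Q k := by nlinarith
  have a8 : ∑ i, γ i ^ 2 ≤ 408 * (n : ℝ) ^ 3 := by nlinarith
  have a9 : (n : ℝ) ^ 3 * ∑ k, ((n : ℝ) - μ k) ≤ (n : ℝ) ^ 3 * (3000000 * n) := by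
    have c1 := mul_le_mul_of_nonneg_left a7 (sq_nonneg (n : ℝ))
    have c2 := mul_le_mul_of_nonneg_left a8 (by linarith : (0 : ℝ) ≤ n)
    have c3 : (0 : ℝ) ≤ (n : ℝ) ^ 4 := by positivity
    nlinarith
  exact le_of_mul_le_mul_left a9 (by positivity)

end Pool.Agent.Elspas.Conf
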