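import Pool.Agent.P.MP_459691_co.ConfC

set_option autoImplicit false
set_option linter.unusedSectionVars false

open Finset Matrix

namespace Pool.Agent.Elspas.Conf

variable {ι : Type} [DecidableEq ι] [Fintype ι] {n : ℕ}

/-- a matching of almost antipodal vectors -/
structure Pairing (x : ι → Fin n → ℝ) (s : ℝ) (P : Finset ι) (π : ι → ι) : Prop where
  mem : ∀ k ∈ P, π k ∈ P
  inv : ∀ k ∈ P, π (π k) = k
  ne : ∀ k ∈ P, π k ≠ k
  close : ∀ k ∈ P, x k ⬝ᵥ x (π k) ≤ -((n : ℝ) - 2 * s)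

/-- sum of the two vectors of a pair -/
def tau (x : ι → Fin n → ℝ) (π : ι → ι) (k : ι) : Fin n → ℝ := x k + x (π k)

/-- number of agreements inside a pair -/
noncomputable def sig (x : ι → Fin n → ℝ) (π : ι → ι) (k : ι) : ℝ := (n + x k ⬝ᵥ x (π k)) / 2

variable {x : ι → Fin n → ℝ} {s : ℝ} {P : Finset ι} {π : ι → ι}

theorem Pairing.sum_swap (hp : Pairing x s P π) (f : ι → ℝ) :
    ∑ k ∈ P, f (π k) = ∑ k ∈ P, f k :=
  Finset.sum_nbij' π π hp.mem hp.mem hp.inv hp.inv fun _ _ => rfl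

theorem Cfg.sig_nonneg (h : Cfg x) (k : ι) : 0 ≤ sig x π k := by
  unfold sig; linarith [h.ge k (π k)]

theorem Pairing.sig_le (hp : Pairing x s P π) (k : ι) (hk : k ∈ P) : sig x π k ≤ s := by
  unfold sig; linarith [hp.close k hk]

theorem Cfg.tau_self (h : Cfg x) (k : ι) : tau x π k ⬝ᵥ tau x π k = 4 * sig x π k := by
  unfold tau sig
  rw [add_dotProduct, dotProduct_add, dotProduct_add, h.self, h.self,
    dotProduct_comm (x (π k)) (x k)]
  ring

theorem Cfg.tau_val (h : Cfg x) (k : ι) (a : Fin n) :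
    tau x π k a = 2 ∨ tau x π k a = 0 ∨ tau x π k a = -2 := by
  unfold tau
  rcases h.sgn k a with e | e <;> rcases h.sgn (π k) a with e' | e' <;>
    simp only [Pi.add_apply, e, e'] <;> norm_num

theorem Cfg.tau_abs (h : Cfg x) (k : ι) : ∑ a, |tau x π k a| = 2 * sig x π k := by
  have h1 : tau x π k ⬝ᵥ tau x π k = ∑ a, 2 * |tau x π k a| := by
    refine Finset.sum_congr rfl fun a _ => ?_
    rcases h.tau_val (π := π) k a with e | e | e <;> rw [e] <;> norm_num
  rw [h.tau_self, ← Finset.mul_sum] at h1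
  linarith

theorem Cfg.tau_dot_ge (h : Cfg x) (k l : ι) : -(2 * sig x π k) ≤ tau x π k ⬝ᵥ x l := by
  rw [← h.tau_abs, ← Finset.sum_neg_distrib]
  refine Finset.sum_le_sum fun a _ => ?_
  rcases h.sgn l a with e | e <;> rw [e]
  · linarith [neg_abs_le (tau x π k a)]
  · linarith [le_abs_self (tau x π k a)]

theorem Cfg.tau_dot_le (h : Cfg x) (k l : ι) (h1 : l ≠ k) (h2 : l ≠ π k) :
    tau x π k ⬝ᵥ x l ≤ 2 := by
  unfold tau
  rw [add_dotProduct]
  linarith [h.le_one k l h1.symm, h.le_one (π k) l h2.symm]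

theorem Cfg.pair_sq (h : Cfg x) (k l : ι) (h1 : l ≠ k) (h2 : l ≠ π k) :
    (x k ⬝ᵥ x l) ^ 2 + (x (π k) ⬝ᵥ x l) ^ 2 ≤
      (tau x π k ⬝ᵥ x l) ^ 2 - 2 * (tau x π k ⬝ᵥ x l) + 2 := by
  unfold tau
  rw [add_dotProduct]
  nlinarith [mul_nonneg (sub_nonneg.2 (h.le_one k l h1.symm))
    (sub_nonneg.2 (h.le_one (π k) l h2.symm))]

theorem Cfg.tau_tau (h : Cfg x) (hp : Pairing x s P π) (k l : ι) (hk : k ∈ P) (hl : l ∈ P) :
    tau x π k ⬝ᵥ tau x π l ≤
      4 + (if l = k then 4 * s else 0) + (if l = π k then 4 * s else 0) := by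
  have hs := hp.sig_le k hk
  by_cases e1 : l = k
  · subst e1
    rw [h.tau_self]
    simp only [if_true, (hp.ne l hl).symm, if_false]; linarith
  · by_cases e2 : l = π k
    · subst e2
      have : tau x π (π k) = tau x π k := by unfold tau; rw [hp.inv k hk, add_comm]
      rw [this, h.tau_self]
      simp only [if_true, e1, if_false]; linarith
    · simp only [e1, e2, if_false]
      have e3 : π l ≠ k := fun e => e2 (by rw [← e, hp.inv l hl])
      have e4 : π l ≠ π k := fun e => e1 (by rw [← hp.inv l hl, e, hp.inv k hk])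
      have a1 := h.tau_dot_le (π := π) k l e1 e2
      have a2 := h.tau_dot_le (π := π) k (π l) e3 e4
      have : tau x π l = x l + x (π l) := rfl
      rw [this, dotProduct_add]; linarith

theorem Cfg.tau_nsq (h : Cfg x) (hp : Pairing x s P π) (hs : 0 ≤ s) (S : Finset ι) (hS : S ⊆ P)
    (w : ι → ℝ) (W : ℝ) (hw : ∀ k ∈ S, 0 ≤ w k) (hW : ∀ k ∈ S, w k ≤ W) :
    (∑ k ∈ S, w k • tau x π k) ⬝ᵥ (∑ k ∈ S, w k • tau x π k) ≤
      8 * s * W * ∑ k ∈ S, w k + 4 * (∑ k ∈ S, w k) ^ 2 := by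
  rw [dot_sum_sum]
  have : 8 * s * W * ∑ k ∈ S, w k + 4 * (∑ k ∈ S, w k) ^ 2 =
      ∑ k ∈ S, w k * (8 * s * W + 4 * ∑ l ∈ S, w l) := by
    rw [← Finset.sum_mul]; ring
  rw [this]
  refine Finset.sum_le_sum fun k hk => ?_
  have a1 : ∑ l ∈ S, w k * w l * (tau x π k ⬝ᵥ tau x π l) ≤
      ∑ l ∈ S, w k * (4 * w l + (if l = k then 4 * s * W else 0) +
        (if l = π k then 4 * s * W else 0)) := by
    refine Finset.sum_le_sum fun l hl => ?_
    rw [mul_assoc]
    refine mul_le_mul_of_nonneg_left ?_ (hw k hk)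
    have b1 := mul_le_mul_of_nonneg_left (h.tau_tau hp k l (hS hk) (hS hl)) (hw l hl)
    have b2 : w l * (4 * s) ≤ W * (4 * s) := mul_le_mul_of_nonneg_right (hW l hl) (by linarith)
    split_ifs at b1 ⊢ <;> linarith
  refine a1.trans ?_
  rw [← Finset.mul_sum]
  refine mul_le_mul_of_nonneg_left ?_ (hw k hk)
  have hW0 : 0 ≤ s * W := mul_nonneg hs ((hw k hk).trans (hW k hk))
  simp only [Finset.sum_add_distrib, Finset.sum_ite_eq', ← Finset.mul_sum]
  split_ifs <;> linarith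

theorem Cfg.pattern (h : Cfg x) (hp : Pairing x s P π) (hs : 0 ≤ s) (a b : Fin n) (hab : a ≠ b)
    (α β : ℝ) (hα : α ^ 2 = 4) (hβ : β ^ 2 = 4) :
    (((P.filter fun k => tau x π k a = α ∧ tau x π k b = β).card : ℕ) : ℝ) ≤ 2 * s := by
  set S := P.filter fun k => tau x π k a = α ∧ tau x π k b = β with hS
  have h1 := h.tau_nsq hp hs S (Finset.filter_subset _ _) (fun _ => 1) 1
    (fun _ _ => zero_le_one) fun _ _ => le_rfl
  set v : Fin n → ℝ := ∑ k ∈ S, (1 : ℝ) • tau x π k with hv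
  have ha : v a = S.card * α := by
    rw [hv, Finset.sum_apply, ← nsmul_eq_mul, ← Finset.sum_const]
    exact Finset.sum_congr rfl fun k hk => by simp [(Finset.mem_filter.1 hk).2.1]
  have hb : v b = S.card * β := by
    rw [hv, Finset.sum_apply, ← nsmul_eq_mul, ← Finset.sum_const]
    exact Finset.sum_congr rfl fun k hk => by simp [(Finset.mem_filter.1 hk).2.2]
  have h2 : v a * v a + v b * v b ≤ v ⬝ᵥ v := by
    rw [← Finset.sum_pair (f := fun c => v c * v c) hab]
    exact Finset.sum_le_sum_of_subset_of_nonneg (Finset.subset_univ _)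
      fun c _ _ => mul_self_nonneg _
  simp only [Finset.sum_const, nsmul_eq_mul, mul_one] at h1
  rw [ha, hb] at h2
  have h3 : (0 : ℝ) ≤ S.card := Nat.cast_nonneg _
  by_contra hc
  push Not at hc
  have e1 : (S.card : ℝ) * α * (S.card * α) = 4 * (S.card : ℝ) ^ 2 := by
    rw [← hα]; ring
  have e2 : (S.card : ℝ) * β * (S.card * β) = 4 * (S.card : ℝ) ^ 2 := by
    rw [← hβ]; ring
  nlinarith

theorem Cfg.overlap (h : Cfg x) (hp : Pairing x s P π) (hs : 0 ≤ s) (a b : Fin n) (hab : a ≠ b) :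
    ∑ k ∈ P, |tau x π k a| * |tau x π k b| ≤ 32 * s := by
  have key : ∀ α β : ℝ, ∑ k ∈ P, (if tau x π k a = α ∧ tau x π k b = β then (4 : ℝ) else 0) =
      4 * (((P.filter fun k => tau x π k a = α ∧ tau x π k b = β).card : ℕ) : ℝ) := by
    intro α β
    rw [← Finset.sum_filter, Finset.sum_const, nsmul_eq_mul, mul_comm]
  have h1 := h.pattern hp hs a b hab 2 2 (by norm_num) (by norm_num)
  have h2 := h.pattern hp hs a b hab 2 (-2) (by norm_num) (by norm_num)
  have h3 := h.pattern hp hs a b hab (-2) 2 (by norm_num) (by norm_num)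
  have h4 := h.pattern hp hs a b hab (-2) (-2) (by norm_num) (by norm_num)
  have h5 : ∑ k ∈ P, |tau x π k a| * |tau x π k b| ≤
      ∑ k ∈ P, ((if tau x π k a = 2 ∧ tau x π k b = 2 then (4 : ℝ) else 0) +
        (if tau x π k a = 2 ∧ tau x π k b = -2 then (4 : ℝ) else 0) +
        (if tau x π k a = -2 ∧ tau x π k b = 2 then (4 : ℝ) else 0) +
        (if tau x π k a = -2 ∧ tau x π k b = -2 then (4 : ℝ) else 0)) := by
    refine Finset.sum_le_sum fun k _ => ?_
    rcases h.tau_val (π := π) k a with e | e | e <;>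
      rcases h.tau_val (π := π) k b with e' | e' | e' <;> rw [e, e'] <;> norm_num
  simp only [Finset.sum_add_distrib, key] at h5
  linarith

theorem Cfg.cross (h : Cfg x) (hp : Pairing x s P π) (hs : 0 ≤ s) :
    ∑ k ∈ P, ∑ a, ∑ b, E x a b * (tau x π k a * tau x π k b) ≤
      2 * fr (E x) + 16 * s ^ 3 * P.card := by
  have h1 : ∑ k ∈ P, ∑ a, ∑ b, E x a b * (tau x π k a * tau x π k b) =
      ∑ a, ∑ b, E x a b * ∑ k ∈ P, tau x π k a * tau x π k b := by
    rw [Finset.sum_comm]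
    refine Finset.sum_congr rfl fun a _ => ?_
    rw [Finset.sum_comm]
    exact Finset.sum_congr rfl fun b _ => by rw [Finset.mul_sum]
  have h2 : ∑ a, ∑ b, E x a b * ∑ k ∈ P, tau x π k a * tau x π k b ≤
      ∑ a, ∑ b, (2 * E x a b ^ 2 + 4 * s * ∑ k ∈ P, |tau x π k a| * |tau x π k b|) := by
    refine Finset.sum_le_sum fun a _ => Finset.sum_le_sum fun b _ => ?_
    have c0 : 0 ≤ ∑ k ∈ P, |tau x π k a| * |tau x π k b| :=
      Finset.sum_nonneg fun k _ => by positivity
    by_cases e : a = b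
    · have : E x a b = 0 := by simp [E, e]
      rw [this]
      have := mul_nonneg hs c0
      nlinarith
    · have c1 := h.overlap hp hs a b e
      have c2 : |∑ k ∈ P, tau x π k a * tau x π k b| ≤ ∑ k ∈ P, |tau x π k a| * |tau x π k b| := by
        refine (Finset.abs_sum_le_sum_abs _ _).trans (le_of_eq ?_)
        exact Finset.sum_congr rfl fun k _ => abs_mul _ _
      have c3 := pow_le_pow_left₀ (abs_nonneg _) c2 2
      rw [sq_abs] at c3
      have c4 := mul_le_mul_of_nonneg_right c1 c0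
      nlinarith [sq_nonneg (4 * E x a b - ∑ k ∈ P, tau x π k a * tau x π k b)]
  have h3 : ∑ a, ∑ b, ∑ k ∈ P, |tau x π k a| * |tau x π k b| ≤ 4 * s ^ 2 * P.card := by
    have : ∑ a, ∑ b, ∑ k ∈ P, |tau x π k a| * |tau x π k b| =
        ∑ k ∈ P, (2 * sig x π k) ^ 2 := by
      rw [Finset.sum_congr rfl fun a _ => Finset.sum_comm, Finset.sum_comm]
      refine Finset.sum_congr rfl fun k _ => ?_
      rw [← h.tau_abs, pow_two, Finset.sum_mul_sum]
    rw [this, mul_comm _ (P.card : ℝ), ← nsmul_eq_mul, ← Finset.sum_const]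
    refine Finset.sum_le_sum fun k hk => ?_
    have := pow_le_pow_left₀ (h.sig_nonneg (π := π) k) (hp.sig_le k hk) 2
    nlinarith
  simp only [Finset.sum_add_distrib, ← Finset.mul_sum] at h2
  have h4 := mul_le_mul_of_nonneg_left h3 hs
  rw [h1]
  unfold fr
  nlinarith

end Pool.Agent.Elspas.Conf
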