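import Pool.Agent.P.MP_459691_co.ConfD

set_option autoImplicit false
set_option linter.unusedSectionVars false

open Finset Matrix

namespace Pool.Agent.Elspas.Conf

variable {ι : Type} [DecidableEq ι] [Fintype ι] {n : ℕ}
variable {x : ι → Fin n → ℝ} {s : ℝ} {P : Finset ι} {π : ι → ι}

theorem Pairing.sum_tau (hp : Pairing x s P π) (m : Fin n → ℝ) :
    ∑ k ∈ P, tau x π k ⬝ᵥ m = 2 * ((∑ k ∈ P, x k) ⬝ᵥ m) := by
  unfold tau
  simp only [add_dotProduct, Finset.sum_add_distrib]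
  rw [hp.sum_swap fun k => x k ⬝ᵥ m, sum_dotProduct]; ring

/-- rows of matched vectors -/
theorem Cfg.good (h : Cfg x) (hp : Pairing x s P π) (hs : 1 ≤ s)
    (hM : (Fintype.card ι : ℝ) = 2 * n + 3) :
    ∑ k ∈ P, ∑ l ∈ univ.erase k, (x k ⬝ᵥ x l) ^ 2 ≤
      P.card * ((n : ℝ) ^ 2 + 10 * s ^ 2 + 8 * s ^ 3 + (2 * n + 3)) + fr (E x) +
        ((∑ k ∈ Pᶜ, x k) ⬝ᵥ (∑ k ∈ Pᶜ, x k)) / 2 := by
  set F : ι → ℝ := fun k => ∑ l ∈ (univ.erase k).erase (π k), (x k ⬝ᵥ x l) ^ 2 with hF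
  set mP : Fin n → ℝ := ∑ k ∈ P, x k with hmP
  set mB : Fin n → ℝ := ∑ k ∈ Pᶜ, x k with hmB
  have hm : ∑ l, x l = mP + mB := (Finset.sum_add_sum_compl P x).symm
  have h1 : ∑ k ∈ P, ∑ l ∈ univ.erase k, (x k ⬝ᵥ x l) ^ 2 =
      ∑ k ∈ P, ((n : ℝ) - 2 * sig x π k) ^ 2 + ∑ k ∈ P, F k := by
    rw [← Finset.sum_add_distrib]
    refine Finset.sum_congr rfl fun k hk => ?_
    rw [← Finset.add_sum_erase _ _ (Finset.mem_erase.2 ⟨hp.ne k hk, mem_univ _⟩)]
    congr 1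
    unfold sig; ring
  have h2 : 2 * ∑ k ∈ P, F k ≤ ∑ k ∈ P, (Fintype.card ι * (4 * sig x π k) +
      ∑ a, ∑ b, E x a b * (tau x π k a * tau x π k b) - 2 * (tau x π k ⬝ᵥ (mP + mB)) +
        2 * Fintype.card ι) := by
    rw [two_mul]
    nth_rewrite 2 [← hp.sum_swap F]
    rw [← Finset.sum_add_distrib]
    refine Finset.sum_le_sum fun k hk => ?_
    have e1 : F (π k) = ∑ l ∈ (univ.erase k).erase (π k), (x (π k) ⬝ᵥ x l) ^ 2 := by
      simp only [hF]; rw [hp.inv k hk, Finset.erase_right_comm]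
    rw [e1, ← h.tau_self, ← h.quad, ← hm, dotProduct_sum]
    simp only [hF]
    rw [← Finset.sum_add_distrib]
    calc _ ≤ ∑ l ∈ (univ.erase k).erase (π k),
            ((tau x π k ⬝ᵥ x l) ^ 2 - 2 * (tau x π k ⬝ᵥ x l) + 2) := by
          refine Finset.sum_le_sum fun l hl => h.pair_sq k l ?_ (Finset.ne_of_mem_erase hl)
          exact Finset.ne_of_mem_erase (Finset.mem_of_mem_erase hl)
      _ ≤ ∑ l, ((tau x π k ⬝ᵥ x l) ^ 2 - 2 * (tau x π k ⬝ᵥ x l) + 2) :=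
          Finset.sum_le_sum_of_subset_of_nonneg (Finset.subset_univ _) fun l _ _ => by
            nlinarith [sq_nonneg (tau x π k ⬝ᵥ x l - 1)]
      _ = _ := by
          simp only [Finset.sum_add_distrib, Finset.sum_sub_distrib, ← Finset.mul_sum,
            Finset.sum_const, card_univ, nsmul_eq_mul]
          ring
  have h3 : ∑ k ∈ P, (((n : ℝ) - 2 * sig x π k) ^ 2 + 2 * (2 * n + 3) * sig x π k) ≤
      P.card * ((n : ℝ) ^ 2 + 10 * s ^ 2) := by
    rw [← nsmul_eq_mul, ← Finset.sum_const]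
    refine Finset.sum_le_sum fun k hk => ?_
    have a1 := h.sig_nonneg (π := π) k
    have a2 := hp.sig_le k hk
    nlinarith
  have h4 := h.cross hp (by linarith)
  have h5 := hp.sum_tau (mP + mB)
  have h6 := amgm mB mP 2
  simp only [Finset.sum_add_distrib, Finset.sum_sub_distrib, ← Finset.mul_sum, Finset.sum_const,
    nsmul_eq_mul] at h2 h3
  rw [h5, ← hmP, dotProduct_add, dotProduct_comm mP mB, hM] at h2
  rw [h1]
  nlinarith

/-- matched against unmatched vectors -/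
theorem Cfg.mixed (h : Cfg x) (hp : Pairing x s P π) (hs : 1 ≤ s) (L : ℝ) (hL : 0 < L) :
    2 * ∑ k ∈ P, ∑ l ∈ Pᶜ, (x k ⬝ᵥ x l) ^ 2 ≤
      4 * (Pᶜ.card : ℝ) * ∑ k ∈ P, sig x π k + 2 * (Pᶜ.card : ℝ) * P.card +
        (8 * s ^ 2 * ∑ k ∈ P, sig x π k + 4 * (∑ k ∈ P, sig x π k) ^ 2) / L +
          L * ((∑ k ∈ Pᶜ, x k) ⬝ᵥ (∑ k ∈ Pᶜ, x k)) := by
  set mB : Fin n → ℝ := ∑ k ∈ Pᶜ, x k with hmB
  set A : Fin n → ℝ := ∑ k ∈ P, sig x π k • tau x π k with hA
  have h1 : 2 * ∑ k ∈ P, ∑ l ∈ Pᶜ, (x k ⬝ᵥ x l) ^ 2 ≤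
      ∑ k ∈ P, ((Pᶜ.card : ℝ) * (4 * sig x π k + 2) - 2 * (sig x π k * (tau x π k ⬝ᵥ mB))) := by
    rw [two_mul]
    nth_rewrite 2 [← hp.sum_swap fun k => ∑ l ∈ Pᶜ, (x k ⬝ᵥ x l) ^ 2]
    rw [← Finset.sum_add_distrib]
    refine Finset.sum_le_sum fun k hk => ?_
    rw [← Finset.sum_add_distrib, hmB, dotProduct_sum, ← nsmul_eq_mul, ← Finset.sum_const,
      Finset.mul_sum, Finset.mul_sum, ← Finset.sum_sub_distrib]
    refine Finset.sum_le_sum fun l hl => ?_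
    have hl' := Finset.mem_compl.1 hl
    have e1 : l ≠ k := fun e => hl' (e ▸ hk)
    have e2 : l ≠ π k := fun e => hl' (e ▸ hp.mem k hk)
    have a1 := h.pair_sq k l e1 e2
    have a2 := h.tau_dot_le k l e1 e2
    have a3 := h.tau_dot_ge (π := π) k l
    nlinarith [mul_nonneg (sub_nonneg.2 a2) (sub_nonneg.2 a3)]
  have h2 : ∑ k ∈ P, sig x π k * (tau x π k ⬝ᵥ mB) = A ⬝ᵥ mB := by
    rw [hA, sum_dotProduct]
    exact Finset.sum_congr rfl fun k _ => by rw [smul_dotProduct, smul_eq_mul]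
  have h3 : A ⬝ᵥ A ≤ _ := h.tau_nsq hp (by linarith) P subset_rfl (sig x π) s
    (fun k _ => h.sig_nonneg k) hp.sig_le
  have h4 := amgm A mB L
  have h5 : -(2 * (A ⬝ᵥ mB)) ≤ (8 * s ^ 2 * ∑ k ∈ P, sig x π k +
      4 * (∑ k ∈ P, sig x π k) ^ 2) / L + L * (mB ⬝ᵥ mB) := by
    rw [← sub_le_iff_le_add, le_div_iff₀ hL]
    nlinarith
  simp only [Finset.sum_add_distrib, Finset.sum_sub_distrib, ← Finset.mul_sum, Finset.sum_const,
    nsmul_eq_mul] at h1
  rw [h2] at h1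
  nlinarith

theorem split_sum (P : Finset ι) (x : ι → Fin n → ℝ) :
    ∑ i, ∑ j ∈ univ.erase i, (x i ⬝ᵥ x j) ^ 2 =
      ∑ k ∈ P, ∑ l ∈ univ.erase k, (x k ⬝ᵥ x l) ^ 2 + ∑ k ∈ P, ∑ l ∈ Pᶜ, (x k ⬝ᵥ x l) ^ 2 +
        ∑ i ∈ Pᶜ, ∑ j ∈ Pᶜ.erase i, (x i ⬝ᵥ x j) ^ 2 := by
  rw [← Finset.sum_add_sum_compl P, add_assoc, Finset.sum_comm (s := P) (t := Pᶜ),
    ← Finset.sum_add_distrib]
  congr 1
  refine Finset.sum_congr rfl fun i hi => ?_
  have e : univ.erase i = P ∪ Pᶜ.erase i := by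
    ext j
    have := Finset.mem_compl.1 hi
    simp only [Finset.mem_erase, mem_univ, and_true, Finset.mem_union, Finset.mem_compl]
    constructor
    · intro hj
      by_cases c : j ∈ P
      · exact Or.inl c
      · exact Or.inr ⟨hj, c⟩
    · rintro (c | c)
      · exact fun e => this (e ▸ c)
      · exact c.1
  rw [e, Finset.sum_union]
  · congr 1
    exact Finset.sum_congr rfl fun j _ => by rw [dotProduct_comm]
  · exact Finset.disjoint_left.2 fun j hj hj' =>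
      Finset.mem_compl.1 (Finset.mem_of_mem_erase hj') hj

theorem Cfg.unique (h : Cfg x) (hs : 4 * s + 1 < n) (k j l : ι)
    (h1 : x k ⬝ᵥ x j ≤ -((n : ℝ) - 2 * s)) (h2 : x k ⬝ᵥ x l ≤ -((n : ℝ) - 2 * s)) : j = l := by
  by_contra e
  have h3 := h.le_one j l e
  have h4 : ∑ a : Fin n, (-1 : ℝ) ≤ ∑ a, (x k a * x j a + x k a * x l a + x j a * x l a) := by
    refine Finset.sum_le_sum fun a _ => ?_
    rcases h.sgn k a with e1 | e1 <;> rcases h.sgn j a with e2 | e2 <;>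
      rcases h.sgn l a with e3 | e3 <;> rw [e1, e2, e3] <;> norm_num
  simp only [Finset.sum_add_distrib, Finset.sum_const, card_univ, Fintype.card_fin,
    nsmul_eq_mul] at h4
  unfold dotProduct at h1 h2 h3
  linarith

theorem Cfg.exists_pairing (h : Cfg x) (hs0 : 0 ≤ s) (hs : 4 * s + 1 < n) :
    ∃ (P : Finset ι) (π : ι → ι), Pairing x s P π ∧
      (∀ k ∈ P, ∀ j, g x k j ≤ n - 2 * sig x π k) ∧ ∀ k ∈ Pᶜ, ∀ j, g x k j ≤ n - 2 * s := by
  classical
  let good : ι → Prop := fun k => ∃ j, x k ⬝ᵥ x j ≤ -((n : ℝ) - 2 * s)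
  let π : ι → ι := fun k => if hk : good k then hk.choose else k
  have hπ : ∀ k, good k → x k ⬝ᵥ x (π k) ≤ -((n : ℝ) - 2 * s) := by
    intro k hk
    simp only [π, dif_pos hk]
    exact hk.choose_spec
  have hg : ∀ k, good k → good (π k) := fun k hk => ⟨k, by rw [dotProduct_comm]; exact hπ k hk⟩
  refine ⟨univ.filter good, π, ⟨?_, ?_, ?_, ?_⟩, ?_, ?_⟩
  · intro k hk
    exact Finset.mem_filter.2 ⟨mem_univ _, hg k (Finset.mem_filter.1 hk).2⟩
  · intro k hk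
    have hk' := (Finset.mem_filter.1 hk).2
    exact h.unique hs (π k) _ _ (hπ _ (hg k hk')) (by rw [dotProduct_comm]; exact hπ k hk')
  · intro k hk e
    have := hπ k (Finset.mem_filter.1 hk).2
    rw [e, h.self] at this
    linarith
  · intro k hk
    exact hπ k (Finset.mem_filter.1 hk).2
  · intro k hk j
    have h1 := hπ k (Finset.mem_filter.1 hk).2
    unfold sig
    refine max_le ?_ (by linarith)
    by_cases c : x k ⬝ᵥ x j ≤ -((n : ℝ) - 2 * s)
    · rw [h.unique hs k j (π k) c h1]; linarith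
    · push Not at c; linarith
  · intro k hk j
    have h1 : ¬ good k := fun c => Finset.mem_compl.1 hk (Finset.mem_filter.2 ⟨mem_univ _, c⟩)
    refine max_le ?_ (by linarith)
    by_contra c
    push Not at c
    exact h1 ⟨j, by linarith⟩

/-- no `2 n + 3` sign vectors of a large length `n` have pairwise inner products at most one -/
theorem Cfg.false (h : Cfg x) (hM : (Fintype.card ι : ℝ) = 2 * n + 3) (hn : 10 ^ 66 ≤ n) :
    False := by
  have hn' : (10 : ℝ) ^ 66 ≤ n := by exact_mod_cast hn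
  have hn3 : 3 ≤ n := le_trans (by norm_num) hn
  obtain ⟨P, π, hp, hP, hB⟩ := h.exists_pairing (s := 10 ^ 21) (by norm_num) (by linarith)
  set Z : ℝ := ∑ k ∈ P, sig x π k with hZ
  set p : ℝ := (Pᶜ.card : ℝ) with hp'
  set r : ℝ := (P.card : ℝ) with hr
  have hp0 : 0 ≤ p := Nat.cast_nonneg _
  have hr0 : 0 ≤ r := Nat.cast_nonneg _
  have hrp : r + p = 2 * n + 3 := by
    rw [hr, hp', ← hM]; exact_mod_cast Finset.card_add_card_compl P
  have hZ0 : 0 ≤ Z := Finset.sum_nonneg fun k _ => h.sig_nonneg k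
  have h1 := h.partner hM hn3 (fun k => if k ∈ P then n - 2 * sig x π k else n - 2 * 10 ^ 21)
    (fun k => by
      split_ifs with c
      · linarith [hp.sig_le k c]
      · linarith)
    (fun k => by
      split_ifs with c
      · linarith [h.sig_nonneg (π := π) k]
      · linarith)
    (fun k j => by
      split_ifs with c
      · exact hP k c j
      · exact hB k (Finset.mem_compl.2 c) j)
  have h2 : ∑ k, ((n : ℝ) - if k ∈ P then n - 2 * sig x π k else n - 2 * 10 ^ 21) =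
      2 * Z + p * (2 * 10 ^ 21) := by
    rw [← Finset.sum_add_sum_compl P, hZ, Finset.mul_sum, hp', ← nsmul_eq_mul, ← Finset.sum_const]
    congr 1
    · exact Finset.sum_congr rfl fun k hk => by rw [if_pos hk]; ring
    · exact Finset.sum_congr rfl fun k hk => by rw [if_neg (Finset.mem_compl.1 hk)]; ring
  rw [h2] at h1
  have hZ1 : Z ≤ 1500000 * n := by nlinarith
  have hp1 : p * 10 ^ 15 ≤ 3 / 2 * n := by nlinarith
  have hp3 : p ≤ 3 * n := by linarith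
  have h3 := h.good hp (by norm_num) hM
  have h4 := h.mixed hp (by norm_num) (4 * 10 ^ 13) (by norm_num)
  have h5 := h.block Pᶜ hp3 (by omega)
  have h6 := h.msq_le Pᶜ
  have h7 := h.moment
  rw [split_sum P x, hM] at h7
  rw [← hZ, ← hp', ← hr] at h4
  rw [← hp'] at h5 h6
  rw [← hr] at h3
  have hn0 : (0 : ℝ) ≤ n := Nat.cast_nonneg _
  have c1 : p * (n + p) ≤ 4 * (p * n) := by nlinarith
  have c2 : p * n * 10 ^ 15 ≤ 3 / 2 * (n : ℝ) ^ 2 := by nlinarith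
  have c3 : p * Z ≤ 1500000 * (p * n) := by nlinarith
  have c4 : p * r ≤ 3 * (p * n) := by nlinarith
  have c5 : Z ^ 2 ≤ (1500000 * n) ^ 2 := pow_le_pow_left₀ hZ0 hZ1 2
  have c6 : 10 ^ 66 * (n : ℝ) ≤ (n : ℝ) ^ 2 := by nlinarith
  have c7 : r ≤ 3 * n := by linarith
  have c8 : r * (n : ℝ) ^ 2 + p * (n : ℝ) ^ 2 = (2 * n + 3) * (n : ℝ) ^ 2 := by rw [← hrp]; ring
  have c9 : r * (2 * n + 3) ≤ (2 * n + 3) * (2 * n + 3) :=
    mul_le_mul_of_nonneg_right (by linarith) (by linarith)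
  nlinarith

end Pool.Agent.Elspas.Conf
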