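import Pool.Agent.P.MP_459691_co.ConfE

set_option autoImplicit false
set_option linter.unusedSectionVars false

open Finset Matrix

namespace Pool.Agent.Elspas.Conf

variable {n : ℕ}

/-- the sign vector of a binary word -/
def sg (u : Fin n → Bool) : Fin n → ℝ := fun a => if u a then 1 else -1

theorem sg_val (u : Fin n → Bool) (a : Fin n) : sg u a = 1 ∨ sg u a = -1 := by
  unfold sg; split_ifs <;> simp

theorem sg_mul (u v : Fin n → Bool) (a : Fin n) :
    sg u a * sg v a = if u a ≠ v a then -1 else 1 := by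
  unfold sg; cases u a <;> cases v a <;> simp

theorem sg_dot (u v : Fin n → Bool) : sg u ⬝ᵥ sg v = n - 2 * hammingDist u v := by
  have : sg u ⬝ᵥ sg v = ∑ a, ((1 : ℝ) - 2 * if u a ≠ v a then 1 else 0) := by
    refine Finset.sum_congr rfl fun a _ => ?_
    rw [sg_mul]; split_ifs <;> norm_num
  rw [this, Finset.sum_sub_distrib, ← Finset.mul_sum, Finset.sum_boole]
  simp [hammingDist]

theorem sg_prod (u v : Fin n → Bool) :
    (∏ a, sg u a) * ∏ a, sg v a = (-1) ^ hammingDist u v := by
  rw [← Finset.prod_mul_distrib, Finset.prod_congr rfl fun a _ => sg_mul u v a, Finset.prod_ite]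
  simp [hammingDist]

theorem card_le_of_cfg {α : Type} (C : Finset α) (y : α → Fin n → ℝ) (hn : 10 ^ 66 ≤ n)
    (h1 : ∀ u a, y u a = 1 ∨ y u a = -1) (h2 : ∀ u ∈ C, ∀ v ∈ C, u ≠ v → y u ⬝ᵥ y v ≤ 1) :
    C.card ≤ 2 * n + 2 := by
  classical
  by_contra hc
  obtain ⟨D, hD, hcard⟩ := Finset.exists_subset_card_eq (s := C) (n := 2 * n + 3) (by omega)
  have h : Cfg (fun u : D => y u) :=
    ⟨fun u a => h1 u a, fun u v huv => h2 u (hD u.2) v (hD v.2) fun e => huv (Subtype.ext e)⟩
  refine h.false ?_ hn
  rw [Fintype.card_coe, hcard]; push_cast; ring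

theorem upper_even {d : ℕ} (hn : 10 ^ 66 ≤ n) (hd : n ≤ 2 * d + 1) (C : Finset (Fin n → Bool))
    (hC : ∀ u ∈ C, ∀ v ∈ C, u ≠ v → d ≤ hammingDist u v) : C.card ≤ 2 * n + 2 := by
  refine card_le_of_cfg C sg hn sg_val fun u hu v hv huv => ?_
  have h1 : (d : ℝ) ≤ hammingDist u v := by exact_mod_cast hC u hu v hv huv
  have h2 : (n : ℝ) ≤ 2 * d + 1 := by exact_mod_cast hd
  rw [sg_dot]; linarith

theorem upper_odd {d : ℕ} (hn : 10 ^ 66 ≤ n) (hd : n ≤ 2 * d + 2) (hodd : d % 2 = 1)
    (C : Finset (Fin n → Bool)) (hC : ∀ u ∈ C, ∀ v ∈ C, u ≠ v → d ≤ hammingDist u v) :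
    C.card ≤ 2 * (n + 1) + 2 := by
  refine card_le_of_cfg (n := n + 1) C (fun u => Fin.cons (∏ a, sg u a) (sg u)) (by omega) ?_
    fun u hu v hv huv => ?_
  · intro u a
    refine Fin.cases ?_ (fun b => ?_) a
    · have := sg_prod u u
      rw [hammingDist_self, pow_zero] at this
      simpa using mul_self_eq_one_iff.1 this
    · simpa using sg_val u b
  · have h1 := hC u hu v hv huv
    have h2 : (n : ℝ) ≤ 2 * d + 2 := by exact_mod_cast hd
    have h3 := sg_dot u v
    unfold dotProduct at h3 ⊢
    rw [Fin.sum_univ_succ]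
    simp only [Fin.cons_zero, Fin.cons_succ]
    rw [h3, sg_prod]
    rcases h1.eq_or_lt with e | e
    · rw [← e, Odd.neg_one_pow (Nat.odd_iff.2 hodd)]; linarith
    · have h4 : (d : ℝ) + 1 ≤ hammingDist u v := by exact_mod_cast e
      have h5 : ((-1 : ℝ)) ^ hammingDist u v ≤ 1 := by
        rcases neg_one_pow_eq_or ℝ (hammingDist u v) with c | c <;> rw [c] <;> norm_num
      linarith

theorem exists_code {ι : Type} [Fintype ι] (y : ι → Fin n → ℝ) (d : ℕ) (hd : 0 < d)
    (h1 : ∀ i a, y i a = 1 ∨ y i a = -1) (h2 : ∀ i j, i ≠ j → y i ⬝ᵥ y j ≤ n - 2 * d) :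
    ∃ C : Finset (Fin n → Bool), (∀ u ∈ C, ∀ v ∈ C, u ≠ v → d ≤ hammingDist u v) ∧
      C.card = Fintype.card ι := by
  classical
  let c : ι → Fin n → Bool := fun i a => decide (y i a = 1)
  have hc : ∀ i, sg (c i) = y i := by
    intro i; funext a
    rcases h1 i a with e | e
    · simp [sg, c, e]
    · have : ¬ (-1 : ℝ) = 1 := by norm_num
      simp [sg, c, e, this]
  have hd' : ∀ i j, i ≠ j → d ≤ hammingDist (c i) (c j) := by
    intro i j hij
    have := h2 i j hij
    rw [← hc, ← hc, sg_dot] at this
    have h3 : (d : ℝ) ≤ hammingDist (c i) (c j) := by linarith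
    exact_mod_cast h3
  refine ⟨univ.image c, ?_, ?_⟩
  · intro u hu v hv huv
    obtain ⟨i, -, rfl⟩ := Finset.mem_image.1 hu
    obtain ⟨j, -, rfl⟩ := Finset.mem_image.1 hv
    exact hd' i j fun e => huv (by rw [e])
  · rw [Finset.card_image_of_injective, card_univ]
    intro i j e
    by_contra hij
    have := hd' i j hij
    rw [e, hammingDist_self] at this
    omega

section Paley

variable {F : Type} [Field F] [Fintype F] [DecidableEq F]

theorem chi_corr (hF : ringChar F ≠ 2) (i j : F) (hij : i ≠ j) :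
    ∑ a, quadraticChar F (a - i) * quadraticChar F (a - j) = -1 := by
  have h1 : ∑ a, quadraticChar F (a - i) * quadraticChar F (a - j) =
      ∑ b ∈ univ.erase (0 : F), quadraticChar F (1 + (i - j) * b⁻¹) := by
    rw [← Equiv.sum_comp (Equiv.addRight i), ← Finset.add_sum_erase _ _ (mem_univ (0 : F))]
    simp only [Equiv.coe_addRight, add_sub_cancel_right]
    rw [MulChar.map_zero, zero_mul, zero_add]
    refine Finset.sum_congr rfl fun b hb => ?_
    have hb0 : b ≠ 0 := Finset.ne_of_mem_erase hb
    have : b + i - j = b * (1 + (i - j) * b⁻¹) := by field_simp; ring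
    rw [this, map_mul, ← mul_assoc, ← pow_two, quadraticChar_sq_one hb0, one_mul]
  have hc : i - j ≠ 0 := sub_ne_zero.2 hij
  have h2 : ∑ b : F, quadraticChar F (1 + (i - j) * b⁻¹) = 0 := by
    rw [← quadraticChar_sum_zero hF]
    exact Equiv.sum_comp (((Equiv.inv F).trans (Equiv.mulLeft₀ (i - j) hc)).trans
      (Equiv.addLeft 1)) fun a => quadraticChar F a
  rw [← Finset.add_sum_erase _ _ (mem_univ (0 : F))] at h2
  simp only [_root_.inv_zero, mul_zero, add_zero, map_one] at h2
  rw [h1]; linarith

/-- the conference matrix code as integer sign vectors -/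
def conf (w : Option F × Bool) (a : F) : ℤ :=
  match w.1 with
  | none => if w.2 then 1 else -1
  | some i => (if w.2 then 1 else -1) * quadraticChar F (a - i) + if a = i then 1 else 0

theorem conf_val (w : Option F × Bool) (a : F) : conf w a = 1 ∨ conf w a = -1 := by
  obtain ⟨o, b⟩ := w
  cases o with
  | none => cases b <;> simp [conf]
  | some i =>
    by_cases e : a = i
    · simp [conf, e]
    · rcases quadraticChar_dichotomy (sub_ne_zero.2 e) with c | c <;> cases b <;>
        simp [conf, e, c]

theorem chi_shift (hF : ringChar F ≠ 2) (i : F) : ∑ a, quadraticChar F (a - i) = 0 := by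
  rw [← quadraticChar_sum_zero hF]
  exact Equiv.sum_comp (Equiv.subRight i) fun a => quadraticChar F a

theorem conf_dot (hF : ringChar F ≠ 2) (h4 : Fintype.card F % 4 = 1) (w z : Option F × Bool)
    (hwz : w ≠ z) : ∑ a, conf w a * conf z a ≤ 1 := by
  have hneg : quadraticChar F (-1) = 1 := by
    rw [quadraticChar_one_iff_isSquare (by simp), FiniteField.isSquare_neg_one_iff]; omega
  have sgn : ∀ b : Bool, (if b then (1 : ℤ) else -1) = 1 ∨ (if b then (1 : ℤ) else -1) = -1 := by
    intro b; cases b <;> simp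
  obtain ⟨o, b⟩ := w
  obtain ⟨o', b'⟩ := z
  cases o with
  | none =>
    cases o' with
    | none =>
      have : b ≠ b' := fun e => hwz (by rw [e])
      cases b <;> cases b' <;> simp [conf] at this ⊢ <;> omega
    | some j =>
      simp only [conf, mul_add, Finset.sum_add_distrib, ← Finset.mul_sum, chi_shift hF]
      rcases sgn b with c | c <;> rw [c] <;> simp
  | some i =>
    cases o' with
    | none =>
      simp only [conf, add_mul, Finset.sum_add_distrib, ← Finset.sum_mul, ← Finset.mul_sum,
        chi_shift hF]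
      rcases sgn b' with c | c <;> rw [c] <;> simp
    | some j =>
      by_cases e : i = j
      · subst e
        have hb : b ≠ b' := fun e => hwz (by rw [e])
        have : ∑ a, conf (some i, b) a * conf (some i, b') a ≤
            ∑ a, if a = i then (1 : ℤ) else 0 := by
          refine Finset.sum_le_sum fun a _ => ?_
          by_cases c : a = i
          · simp [conf, c]
          · rcases quadraticChar_dichotomy (sub_ne_zero.2 c) with c' | c' <;> cases b <;>
              cases b' <;> simp [conf, c, c'] at hb ⊢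
        simpa using this
      · have h1 : ∑ a, conf (some i, b) a * conf (some j, b') a =
            (if b then 1 else -1) * (if b' then 1 else -1) *
              ∑ a, quadraticChar F (a - i) * quadraticChar F (a - j) +
            ∑ a, (if a = j then (if b then 1 else -1) * quadraticChar F (j - i) else 0) +
            ∑ a, (if a = i then (if b' then 1 else -1) * quadraticChar F (i - j) else 0) := by
          rw [Finset.mul_sum, ← Finset.sum_add_distrib, ← Finset.sum_add_distrib]
          refine Finset.sum_congr rfl fun a _ => ?_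
          simp only [conf]
          by_cases c1 : a = i
          · subst c1; simp [e]
          · by_cases c2 : a = j
            · subst c2; simp [c1]
            · simp only [c1, c2, if_false]; ring
        have h2 : quadraticChar F (j - i) = quadraticChar F (i - j) := by
          rw [← neg_sub, ← neg_one_mul, map_mul, hneg, one_mul]
        rw [h1, chi_corr hF i j e, h2]
        simp only [Finset.sum_ite_eq', mem_univ, if_true]
        rcases quadraticChar_dichotomy (sub_ne_zero.2 e) with c | c <;> cases b <;> cases b' <;>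
          simp [c]

end Paley

theorem exists_conf (hq : IsPrimePow n) (h4 : n % 4 = 1) :
    ∃ y : Option (Fin n) × Bool → Fin n → ℝ, (∀ i a, y i a = 1 ∨ y i a = -1) ∧
      ∀ i j, i ≠ j → y i ⬝ᵥ y j ≤ 1 := by
  classical
  obtain ⟨p, k, hp, hk, rfl⟩ := (isPrimePow_nat_iff n).1 hq
  haveI : Fact p.Prime := ⟨hp⟩
  haveI : Fintype (GaloisField p k) := Fintype.ofFinite _
  have hcard : Fintype.card (GaloisField p k) = p ^ k := by
    rw [← Nat.card_eq_fintype_card, GaloisField.card p k hk.ne']
  have hF : ringChar (GaloisField p k) ≠ 2 := by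
    intro e
    have := (FiniteField.even_card_iff_char_two (F := GaloisField p k)).1 e
    omega
  let e : Fin (p ^ k) ≃ GaloisField p k := (Fintype.equivFinOfCardEq hcard).symm
  refine ⟨fun w a => (conf (w.1.map e, w.2) (e a) : ℝ), fun w a => ?_, fun w z hwz => ?_⟩
  · rcases conf_val (w.1.map e, w.2) (e a) with c | c <;> simp [c]
  · have h1 := conf_dot hF (by omega) (w.1.map e, w.2) (z.1.map e, z.2) (by
      intro c
      obtain ⟨c1, c2⟩ := Prod.mk.inj c
      exact hwz (Prod.ext (Option.map_injective e.injective c1) c2))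
    rw [← Equiv.sum_comp e] at h1
    unfold dotProduct
    beta_reduce
    exact_mod_cast h1

theorem lower_even {d : ℕ} (hq : IsPrimePow n) (h4 : n % 4 = 1) (hd : n = 2 * d + 1) :
    ∃ C : Finset (Fin n → Bool), (∀ u ∈ C, ∀ v ∈ C, u ≠ v → d ≤ hammingDist u v) ∧
      C.card = 2 * n + 2 := by
  obtain ⟨y, h1, h2⟩ := exists_conf hq h4
  have h5 := hq.two_le
  obtain ⟨C, hC, hc⟩ := exists_code y d (by omega) h1 fun i j hij => by
    have : (n : ℝ) = 2 * d + 1 := by exact_mod_cast hd
    linarith [h2 i j hij]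
  exact ⟨C, hC, by rw [hc]; simp; ring⟩

theorem lower_odd {d : ℕ} (hq : IsPrimePow (n + 1)) (hodd : d % 2 = 1) (hd : n = 2 * d + 2) :
    ∃ C : Finset (Fin n → Bool), (∀ u ∈ C, ∀ v ∈ C, u ≠ v → d ≤ hammingDist u v) ∧
      C.card = 2 * (n + 1) + 2 := by
  obtain ⟨y, h1, h2⟩ := exists_conf hq (by omega)
  obtain ⟨C, hC, hc⟩ := exists_code (fun i (a : Fin n) => y i a.succ) d (by omega)
    (fun i a => h1 i _) fun i j hij => by
      have e : (n : ℝ) = 2 * d + 2 := by exact_mod_cast hd
      have h3 := h2 i j hij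
      unfold dotProduct at h3 ⊢
      rw [Fin.sum_univ_succ] at h3
      have h4 : -1 ≤ y i 0 * y j 0 := by
        rcases h1 i 0 with c | c <;> rcases h1 j 0 with c' | c' <;> rw [c, c'] <;> norm_num
      linarith
  exact ⟨C, hC, by rw [hc]; simp; ring⟩

end Pool.Agent.Elspas.Conf
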