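import Pool.Agent.P.MP_459691_co.Seeds

/-! Plotkin bound and its attainment. -/

set_option autoImplicit false
open Finset

namespace Pool.Agent.Elspas

theorem sign_sum {κ : Type} [Fintype κ] (x y : κ → Bool) :
    ∑ t, (if x t then (1 : ℤ) else -1) * (if y t then (1 : ℤ) else -1)
      = Fintype.card κ - 2 * (hammingDist x y : ℤ) := by
  have : ∀ t, (if x t then (1 : ℤ) else -1) * (if y t then (1 : ℤ) else -1)
      = 1 - 2 * (if x t ≠ y t then 1 else 0) := by
    intro t; cases x t <;> cases y t <;> simp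
  simp only [this, Finset.sum_sub_distrib, ← Finset.mul_sum, Finset.sum_boole, hammingDist]
  simp

/-- Plotkin bound for an odd number of words. -/
theorem plotkin_odd {κ ι : Type} [Fintype κ] [Fintype ι] [DecidableEq ι] (w : ι → κ → Bool)
    (k d : ℕ) (hk : 1 ≤ k) (hι : Fintype.card ι = 2 * k + 1)
    (hd : ∀ i j, i ≠ j → d ≤ hammingDist (w i) (w j)) :
    d * (2 * k + 1) ≤ Fintype.card κ * (k + 1) := by
  set n := Fintype.card κ with hn
  let c : κ → ι → ℤ := fun t i => if w i t then 1 else -1
  have h1 : ∀ t, 1 ≤ (∑ i, c t i) ^ 2 := by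
    intro t
    have : ∑ i, c t i = Fintype.card ι - 2 * ∑ i, (if w i t then (0 : ℤ) else 1) := by
      rw [Finset.mul_sum, eq_sub_iff_add_eq, ← Finset.sum_add_distrib]
      rw [Finset.sum_congr rfl (g := fun _ => (1 : ℤ))]
      · simp
      · intro i _; simp only [c]; split_ifs <;> simp
    have h0 : ∑ i, c t i ≠ 0 := by rw [this, hι]; push_cast; omega
    have := sq_pos_of_pos (abs_pos.2 h0)
    rw [sq_abs] at this
    omega
  have h2 : ∑ t, (∑ i, c t i) ^ 2 = ∑ i, ∑ j, ∑ t, c t i * c t j := by
    simp only [sq, Finset.sum_mul_sum]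
    rw [Finset.sum_comm]
    exact Finset.sum_congr rfl fun i _ => Finset.sum_comm
  have h3 : ∀ i j, ∑ t, c t i * c t j ≤ (n - 2 * d : ℤ) + (if i = j then (2 * d : ℤ) else 0) := by
    intro i j
    rw [sign_sum]
    split_ifs with h
    · subst h; simp [hn]
    · have := hd i j h
      omega
  have h4 : (n : ℤ) ≤ ∑ t, (∑ i, c t i) ^ 2 := by
    calc (n : ℤ) = ∑ _t : κ, (1 : ℤ) := by simp [hn]
      _ ≤ _ := Finset.sum_le_sum fun t _ => h1 t
  have h5 : ∑ i, ∑ j, ∑ t, c t i * c t j
      ≤ (2 * k + 1) * ((2 * k + 1) * (n - 2 * d : ℤ) + 2 * d) := by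
    calc _ ≤ ∑ i : ι, ∑ j : ι, ((n - 2 * d : ℤ) + (if i = j then (2 * d : ℤ) else 0)) :=
          Finset.sum_le_sum fun i _ => Finset.sum_le_sum fun j _ => h3 i j
      _ = _ := by simp [Finset.sum_add_distrib, hι]; left; ring
  have h6 : (4 * k : ℤ) * (d * (2 * k + 1)) ≤ (4 * k : ℤ) * (n * (k + 1)) := by nlinarith
  have h7 := le_of_mul_le_mul_left h6 (by positivity)
  exact_mod_cast h7

/-- existence of a code from a sign matrix, with `r` deleted and `p` added coordinates -/
theorem code_of_good {k q b : ℕ} (h : GoodK k q b) (n d e : ℕ) (hd : 1 ≤ d)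
    (hdq : d + e ≤ k * q + b) (hn : 2 * k * q + 2 * b ≤ n + e + q) :
    ∃ D : Finset (Fin n → Bool), (∀ x ∈ D, ∀ y ∈ D, x ≠ y → d ≤ hammingDist x y) ∧
      D.card = 2 * k := by
  obtain ⟨m, hm, G, ⟨c, h1, h2⟩, h3⟩ := h
  let w0 : Fin (2 * k) → Fin m → Bool := fun i t => decide (c t i = 1)
  have hw0 : ∀ i j, i ≠ j → d + e ≤ hammingDist (w0 i) (w0 j) := by
    intro i j hij
    have e1 := sign_sum (w0 i) (w0 j)
    have : ∀ t i, (if w0 i t then (1 : ℤ) else -1) = c t i := by
      intro t i; rcases h1 t i with h | h <;> simp [w0, h]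
    simp only [this, h2 i j hij, Fintype.card_fin] at e1
    have := h3 i j hij
    have hm' : (m : ℤ) + q = 2 * (k * q) + 2 * b := by exact_mod_cast (by rw [hm]; ring)
    have hdq' : (d : ℤ) + e ≤ k * q + b := by exact_mod_cast hdq
    omega
  let w : Fin (2 * k) → Fin n → Bool := fun i t => if h : t.val < m then w0 i ⟨t, h⟩ else false
  have hw : ∀ i j, i ≠ j → d ≤ hammingDist (w i) (w j) := by
    intro i j hij
    have h0 := hw0 i j hij
    have : hammingDist (w0 i) (w0 j) ≤ hammingDist (w i) (w j) + e := by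
      unfold hammingDist
      have hsub : (univ.filter fun t => w0 i t ≠ w0 j t).map Fin.valEmbedding ⊆
          (univ.filter fun t => w i t ≠ w j t).map Fin.valEmbedding ∪ Finset.Ico n (n + e) := by
        intro x hx
        simp only [mem_map, mem_filter, mem_univ, true_and, Fin.valEmbedding_apply] at hx
        obtain ⟨t, ht, rfl⟩ := hx
        by_cases htn : t.val < n
        · refine mem_union_left _ ?_
          simp only [mem_map, mem_filter, mem_univ, true_and, Fin.valEmbedding_apply]
          exact ⟨⟨t, htn⟩, by simpa [w] using ht, rfl⟩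
        · refine mem_union_right _ ?_
          have := t.2
          rw [Finset.mem_Ico]; omega
      have := (card_le_card hsub).trans (card_union_le _ _)
      simpa using this
    omega
  have hinj : Function.Injective w := by
    intro i j hij
    by_contra hne
    have := hw i j hne
    rw [hij, hammingDist_self] at this
    omega
  refine ⟨univ.image w, ?_, by rw [card_image_of_injective _ hinj]; simp⟩
  intro x hx y hy hxy
  obtain ⟨i, -, rfl⟩ := mem_image.1 hx
  obtain ⟨j, -, rfl⟩ := mem_image.1 hy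
  exact hw i j (fun e => hxy (by rw [e]))

/-- Plotkin bound with the parity extension -/
theorem plotkin_code {n d k : ℕ} (hk : 1 ≤ k) (C : Finset (Fin n → Bool))
    (hC : ∀ x ∈ C, ∀ y ∈ C, x ≠ y → d ≤ hammingDist x y) (hc : 2 * k + 1 ≤ C.card) :
    (d + d % 2) * (2 * k + 1) ≤ (n + d % 2) * (k + 1) := by
  obtain ⟨C', hC', hc'⟩ := Finset.exists_subset_card_eq hc
  rcases Nat.mod_two_eq_zero_or_one d with h | h
  · have := plotkin_odd (ι := C') (fun x => x.1) k d hk (by simp [hc'])
      (fun i j hij => hC _ (hC' i.2) _ (hC' j.2) (fun e => hij (Subtype.ext e)))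
    simpa [h] using this
  · let par : (Fin n → Bool) → Bool := fun x => decide (hammingDist x (fun _ => false) % 2 = 1)
    let w : C' → Option (Fin n) → Bool := fun x t => t.elim (par x.1) x.1
    have := plotkin_odd (ι := C') w k (d + 1) hk (by simp [hc']) (by
      intro i j hij
      have h0 := hC _ (hC' i.2) _ (hC' j.2) (fun e => hij (Subtype.ext e))
      have e1 : hammingDist (w i) (w j)
          = (if par i.1 ≠ par j.1 then 1 else 0) + hammingDist i.1 j.1 := by
        unfold hammingDist
        simp only [card_filter]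
        rw [Fintype.sum_option]
        rfl
      have e3 : (hammingDist i.1 j.1 + hammingDist i.1 (fun _ => false)
          + hammingDist j.1 (fun _ => false)) % 2 = 0 := by
        unfold hammingDist
        simp only [card_filter, ← Finset.sum_add_distrib]
        refine Nat.eq_zero_of_dvd_of_lt ((Nat.dvd_mod_iff (dvd_refl 2)).2 ?_) (Nat.mod_lt _ two_pos)
        refine Finset.dvd_sum fun t _ => ?_
        cases i.1 t <;> cases j.1 t <;> simp
      rw [e1]
      by_cases a : hammingDist i.1 (fun _ => false) % 2 = 1 <;>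
        by_cases b : hammingDist j.1 (fun _ => false) % 2 = 1 <;>
        simp [par, a, b] <;> omega)
    simpa [h] using this

/-- the Plotkin bound is attained when the distance is large compared with the size -/
theorem exists_code (n d k : ℕ) (hk : 2 ≤ k) (hd : 180 * k ^ 2 * (Nat.log 2 k + 2) ≤ d)
    (hn : (d + d % 2) * (2 * k - 1) ≤ (n + d % 2) * k) :
    ∃ D : Finset (Fin n → Bool), (∀ x ∈ D, ∀ y ∈ D, x ≠ y → d ≤ hammingDist x y) ∧
      D.card = 2 * k := by
  set s := Nat.log 2 k + 2 with hs
  have h1 : 2 * k ≤ 2 ^ s := by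
    have := Nat.lt_pow_succ_log_self (b := 2) (by norm_num) k
    rw [hs, pow_succ]; rw [Nat.succ_eq_add_one] at this; omega
  have h2 : 2 ^ s ≤ 4 * k := by
    have := Nat.pow_log_le_self 2 (x := k) (by omega)
    rw [hs, pow_add]; omega
  have H : ∀ t, 2 * s * 2 ^ s ≤ t → PH (Fin (2 * k)) (4 * t) :=
    fun t ht => ph_all s (by simpa using h1) t ht
  set d' := d + d % 2 with hd'
  have hdm := Nat.div_add_mod d' k
  have hml := Nat.mod_lt d' (show 0 < k by omega)
  set q := d' / k
  set b := d' % k
  have hq : 20 * (2 * s * 2 ^ s) + 19 ≤ q := by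
    rw [Nat.le_div_iff_mul_le (by omega)]
    have : (20 * (2 * s * 2 ^ s) + 19) * k ≤ 180 * k ^ 2 * s := by
      have hs2 : 2 ≤ s := by omega
      have : s * 2 ^ s ≤ s * (4 * k) := Nat.mul_le_mul_left _ h2
      nlinarith [Nat.mul_le_mul hs2 hk]
    omega
  have hG := good_all H hk q b hq (by rw [mul_comm, hdm]; omega)
  have hpos : 1 ≤ d := le_trans (by
    have : 0 < 180 * k ^ 2 * s := by positivity
    omega) hd
  refine code_of_good hG n d (d % 2) hpos (by omega) ?_
  obtain ⟨k', rfl⟩ : ∃ k', k = k' + 1 := ⟨k - 1, by omega⟩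
  rw [show 2 * (k' + 1) - 1 = 2 * k' + 1 by omega] at hn
  by_contra hlt
  push Not at hlt
  nlinarith

end Pool.Agent.Elspas
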