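import Pool.Agent.P.MP_459691_co.Rz

/-! Blocks from perfect matchings, and the explicit factorizations used for the seeds. -/

set_option autoImplicit false
open Finset

namespace Pool.Agent.Elspas

variable {ι ι' : Type}

/-- fixed point free involution -/
def Inv (σ : ι → ι) : Prop := (∀ i, σ (σ i) = i) ∧ ∀ i, σ i ≠ i

theorem Inv.sum {σ : ι → ι} {τ : ι' → ι'} (h : Inv σ) (h' : Inv τ) : Inv (Sum.map σ τ) := by
  constructor
  · rintro (i | i) <;> simp [h.1, h'.1]
  · rintro (i | i) <;> simp [h.2, h'.2]

theorem Rz.inv [Fintype ι] [DecidableEq ι] {σ : ι → ι} (hσ : Inv σ) {h : ℕ} (hh : PH ι h) :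
    Rz ι h (fun i j => -(if σ i = j then (h : ℤ) else 0)) := by
  obtain ⟨c, h1, h2⟩ := hh
  let e := Fintype.equivFin ι
  let sg : ι → ℤ := fun i => if e i < e (σ i) then 1 else -1
  let rp : ι → ι := fun i => if e i < e (σ i) then i else σ i
  have hne : ∀ i, e i ≠ e (σ i) := fun i hi => hσ.2 i (e.injective hi).symm
  have hsg : ∀ i, sg i = 1 ∨ sg i = -1 := fun i => by
    simp only [sg]; split_ifs <;> simp
  refine ⟨fun t i => sg i * c t (rp i), fun t i => ?_, fun i j hij => ?_⟩
  · rcases hsg i with a | a <;> rcases h1 t (rp i) with b | b <;> simp [a, b]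
  · have e1 : ∑ t, sg i * c t (rp i) * (sg j * c t (rp j))
        = sg i * sg j * ∑ t, c t (rp i) * c t (rp j) := by
      rw [Finset.mul_sum]; exact Finset.sum_congr rfl fun t _ => by ring
    rw [e1]
    by_cases hj : σ i = j
    · subst hj
      have hr : rp (σ i) = rp i := by
        simp only [rp, hσ.1]
        rcases lt_or_gt_of_ne (hne i) with a | a
        · simp [a, not_lt_of_gt a]
        · simp [a, not_lt_of_gt a]
      have hs : sg i * sg (σ i) = -1 := by
        simp only [sg, hσ.1]
        rcases lt_or_gt_of_ne (hne i) with a | a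
        · simp [a, not_lt_of_gt a]
        · simp [a, not_lt_of_gt a]
      have : ∑ t, c t (rp i) * c t (rp i) = h := by
        have : ∀ t, c t (rp i) * c t (rp i) = 1 := fun t => by
          rcases h1 t (rp i) with b | b <;> simp [b]
        simp [this]
      rw [hr, hs, this]; simp
    · have : rp i ≠ rp j := by
        simp only [rp]
        split_ifs
        · exact hij
        · intro hh; exact hj (by rw [hh, hσ.1])
        · exact hj
        · intro hh; exact hij (by rw [← hσ.1 i, hh, hσ.1])
      rw [h2 _ _ this]; simp [hj]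

theorem Rz.invs [Fintype ι] [DecidableEq ι] {κ : Type} [Fintype κ] (σ : κ → ι → ι)
    (hσ : ∀ k, Inv (σ k)) (w : κ → ℕ) (hw : ∀ k, PH ι (w k)) :
    Rz ι (∑ k, w k) (fun i j => -∑ k, (if σ k i = j then (w k : ℤ) else 0)) := by
  refine (Rz.sum univ w _ (fun k _ => Rz.inv (hσ k) (hw k))).congr rfl (fun i j _ => ?_)
  rw [Finset.sum_neg_distrib]

theorem Rz.invs_const [Fintype ι] [DecidableEq ι] {κ : Type} [Fintype κ] (σ : κ → ι → ι)
    (hσ : ∀ k, Inv (σ k)) (h : ℕ) (hw : PH ι h) :
    Rz ι (Fintype.card κ * h) (fun i j => -(h * ∑ k, (if σ k i = j then (1 : ℤ) else 0))) := by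
  refine (Rz.invs σ hσ (fun _ => h) (fun _ => hw)).congr (by simp) (fun i j _ => ?_)
  rw [Finset.mul_sum]
  congr 1
  exact Finset.sum_congr rfl fun k _ => by split_ifs <;> simp

section Layers
variable {A : Type} [AddCommGroup A] [DecidableEq A]

/-- matching between the two layers with shift `s` -/
def cross (s : A) (p : A × Bool) : A × Bool := (if p.2 then p.1 - s else p.1 + s, !p.2)

/-- shift of a pair of points in different layers -/
def shift (p p' : A × Bool) : A := if p.2 then p.1 - p'.1 else p'.1 - p.1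

/-- reflection inside the layers, fixed points being sent across -/
def mu (s c : A) (p : A × Bool) : A × Bool :=
  if (if p.2 then c + s + s else c) - p.1 = p.1 then cross s p
  else ((if p.2 then c + s + s else c) - p.1, p.2)

omit [DecidableEq A] in
theorem cross_inv (s : A) : Inv (cross s) := by
  constructor
  · rintro ⟨x, _ | _⟩ <;> simp [cross]
  · rintro ⟨x, _ | _⟩ <;> simp [cross]

omit [DecidableEq A] in
theorem cross_eq_iff (s : A) (p p' : A × Bool) :
    cross s p = p' ↔ p.2 ≠ p'.2 ∧ shift p p' = s := by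
  obtain ⟨x, _ | _⟩ := p <;> obtain ⟨y, _ | _⟩ := p' <;> simp [cross, shift]
  · constructor <;> rintro rfl <;> simp
  · constructor <;> rintro rfl <;> simp

theorem mu_inv (s c : A) : Inv (mu s c) := by
  constructor
  · rintro ⟨x, _ | _⟩
    · by_cases h : c - x = x
      · have h' : c + s + s - (x + s) = x + s := by rw [← h]; simp only [sub_eq_iff_eq_add] at h; rw [h]; abel
        simp [mu, cross, h, h']
      · have h' : ¬ x = c - x := fun e => h e.symm
        simp [mu, h, h']
    · by_cases h : c + s + s - x = x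
      · have h' : c - (x - s) = x - s := by
          rw [sub_eq_iff_eq_add] at h ⊢
          have : c = x + x - s - s := by rw [← h]; abel
          rw [this]; abel
        simp [mu, cross, h, h']
      · have h' : ¬ x = c + s + s - x := fun e => h e.symm
        simp [mu, h, h']
  · rintro ⟨x, b⟩
    unfold mu
    split_ifs with h1 h2 h3
    · exact (cross_inv s).2 _
    · simpa using h2
    · exact (cross_inv s).2 _
    · simpa using h3

theorem mu_count [Fintype A] (s : A) (p p' : A × Bool) (hp : p ≠ p') :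
    ∑ c, (if mu s c p = p' then (1 : ℤ) else 0)
      = if p.2 = p'.2 then 1 else if shift p p' = s then 1 else 0 := by
  have key : ∀ c, mu s c p = p' ↔
      c = p.1 + (if p.2 = p'.2 then p'.1 else p.1) - (if p.2 then s + s else 0)
        ∧ (p.2 = p'.2 ∨ shift p p' = s) := by
    intro c
    obtain ⟨x, b⟩ := p
    obtain ⟨y, b'⟩ := p'
    unfold mu
    by_cases h : (if b then c + s + s else c) - x = x
    · rw [if_pos h, cross_eq_iff]
      have hc : c = x + x - (if b then s + s else 0) := by
        rw [sub_eq_iff_eq_add] at h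
        rw [← h]; cases b <;> simp [add_assoc]
      by_cases hb : b = b'
      · subst hb
        have hxy : x ≠ y := fun e => hp (by rw [e])
        simp only [ne_eq, not_true_eq_false, false_and, if_true, true_or, and_true, false_iff]
        intro h2
        rw [hc] at h2
        exact hxy (by simpa using h2)
      · simp [hb, hc]
    · rw [if_neg h]
      by_cases hb : b = b'
      · subst hb
        simp only [Prod.mk.injEq, and_true, if_true, true_or]
        cases b
        · simp [sub_eq_iff_eq_add']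
        · simp only [if_true]
          constructor
          · rintro rfl; abel
          · rintro rfl; abel
      · simp only [Prod.mk.injEq, hb, and_false, if_false, false_or, false_iff, not_and]
        rintro rfl
        exact absurd (by cases b <;> simp <;> abel) h
  simp only [key]
  by_cases h1 : p.2 = p'.2
  · simp [h1]
  · by_cases h2 : shift p p' = s <;> simp [h1, h2]

theorem cross_sum [Fintype A] (w : A → ℤ) (p p' : A × Bool) :
    ∑ s, (if cross s p = p' then w s else 0) = if p.2 = p'.2 then 0 else w (shift p p') := by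
  simp only [cross_eq_iff]
  by_cases h1 : p.2 = p'.2 <;> simp [h1]

/-- general weighted design on two layers -/
theorem two_layer [Fintype A] (a : A) (u w : ℕ) (C : A → ℕ) (hu : PH (A × Bool) u)
    (hw : PH (A × Bool) w) (hC : ∀ s, PH (A × Bool) (C s)) :
    Rz (A × Bool) (Fintype.card A * (u + w) + ∑ s, C s) (fun i j => if i.2 = j.2 then -((u : ℤ) + w)
      else -((if shift i j = 0 then (u : ℤ) else 0) + (if shift i j = a then (w : ℤ) else 0)
        + C (shift i j))) := by
  have h1 := Rz.invs_const (mu (0 : A)) (mu_inv 0) u hu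
  have h2 := Rz.invs_const (mu a) (mu_inv a) w hw
  have h3 := Rz.invs (cross (A := A)) cross_inv C hC
  refine ((h1.add h2).add h3).congr (by ring) (fun i j hij => ?_)
  rw [mu_count _ _ _ hij, mu_count _ _ _ hij, cross_sum (fun s => (C s : ℤ))]
  split_ifs <;> ring

end Layers

section Four
variable {A A' U : Type} [AddCommGroup A] [DecidableEq A] [AddCommGroup A'] [DecidableEq A']
  (E : A' ⊕ U ≃ A)

/-- matchings inside the four groups -/
def nu (s : A) (s' s'' : A') : A' ⊕ U → (A × Bool) ⊕ (A' × Bool) → (A × Bool) ⊕ (A' × Bool)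
  | .inl c => Sum.map (mu s (E (.inl c))) (mu s' c)
  | .inr u => Sum.map (mu s (E (.inr u))) (cross s'')

/-- matchings between the two parts -/
def beta (s : A) (t : A × Bool) : (A × Bool) ⊕ (A' × Bool) → (A × Bool) ⊕ (A' × Bool)
  | .inr p => .inl (E (.inl p.1) + t.1 + (if xor p.2 t.2 then s else 0), xor p.2 t.2)
  | .inl p => Sum.elim (fun j => .inr (j, xor p.2 t.2)) (fun _ => .inl (cross s p))
      (E.symm (p.1 - t.1 - (if p.2 then s else 0)))

theorem nu_inv (s : A) (s' s'' : A') (c : A' ⊕ U) : Inv (nu E s s' s'' c) := by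
  rcases c with c | c
  · exact (mu_inv _ _).sum (mu_inv _ _)
  · exact (mu_inv _ _).sum (cross_inv _)

omit [DecidableEq A] [AddCommGroup A'] [DecidableEq A'] in
theorem beta_inv (s : A) (t : A × Bool) : Inv (beta E s t) := by
  constructor
  · rintro (⟨x, b⟩ | ⟨x, b⟩)
    · rcases h : E.symm (x - t.1 - (if b then s else 0)) with j | u
      · have h2 : E (.inl j) = x - t.1 - (if b then s else 0) := by rw [← h]; simp
        simp [beta, h, h2]
        abel
      · have h2 : (cross s (x, b)).1 - t.1 - (if (cross s (x, b)).2 then s else 0)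
            = x - t.1 - (if b then s else 0) := by
          cases b <;> simp [cross] <;> abel
        simp only [beta, h, Sum.elim_inr, h2, (cross_inv s).1]
    · have : E (.inl x) + t.1 + (if xor b t.2 then s else 0) - t.1 - (if xor b t.2 then s else 0)
          = E (.inl x) := by abel
      simp only [beta, this, Equiv.symm_apply_apply, Sum.elim_inl]
      simp
  · rintro (⟨x, b⟩ | ⟨x, b⟩)
    · rcases h : E.symm (x - t.1 - (if b then s else 0)) with j | u
      · simp [beta, h]
      · simpa [beta, h] using (cross_inv s).2 (x, b)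
    · simp [beta]

variable [Fintype A] [Fintype A'] [Fintype U]

theorem nu_ll (s : A) (s' s'' : A') (p p' : A × Bool) (hp : p ≠ p') :
    ∑ c, (if nu E s s' s'' c (.inl p) = .inl p' then (1 : ℤ) else 0)
      = if p.2 = p'.2 then 1 else if shift p p' = s then 1 else 0 := by
  rw [← mu_count s p p' hp, ← Equiv.sum_comp E]
  refine Finset.sum_congr rfl ?_
  rintro (c | c) _ <;> simp [nu]

omit [Fintype A] in
theorem nu_rr (s : A) (s' s'' : A') (p p' : A' × Bool) (hp : p ≠ p') :
    ∑ c, (if nu E s s' s'' c (.inr p) = .inr p' then (1 : ℤ) else 0)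
      = if p.2 = p'.2 then 1 else (if shift p p' = s' then 1 else 0)
          + Fintype.card U * (if shift p p' = s'' then 1 else 0) := by
  rw [Fintype.sum_sum_type]
  simp only [nu, Sum.map_inr, Sum.inr.injEq]
  rw [mu_count s' p p' hp]
  simp only [cross_eq_iff]
  by_cases h : p.2 = p'.2 <;> simp [h]

omit [Fintype A] in
theorem nu_lr (s : A) (s' s'' : A') (p : A × Bool) (p' : A' × Bool) :
    ∑ c, (if nu E s s' s'' c (.inl p) = .inr p' then (1 : ℤ) else 0) = 0 := by
  refine Finset.sum_eq_zero ?_
  rintro (c | c) _ <;> simp [nu]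

omit [Fintype A] in
theorem nu_rl (s : A) (s' s'' : A') (p : A' × Bool) (p' : A × Bool) :
    ∑ c, (if nu E s s' s'' c (.inr p) = .inl p' then (1 : ℤ) else 0) = 0 := by
  refine Finset.sum_eq_zero ?_
  rintro (c | c) _ <;> simp [nu]

omit [AddCommGroup A'] [Fintype A'] [Fintype U] in
theorem beta_rr (s : A) (p p' : A' × Bool) :
    ∑ t, (if beta E s t (.inr p) = .inr p' then (1 : ℤ) else 0) = 0 := by
  simp [beta]

omit [AddCommGroup A'] [Fintype A'] [Fintype U] in
theorem beta_rl (s : A) (p : A' × Bool) (p' : A × Bool) :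
    ∑ t, (if beta E s t (.inr p) = .inl p' then (1 : ℤ) else 0) = 1 := by
  have key : ∀ t, beta E s t (.inr p) = .inl p' ↔
      t = (p'.1 - E (.inl p.1) - (if p'.2 then s else 0), xor p.2 p'.2) := by
    rintro ⟨t, e⟩
    obtain ⟨x, b⟩ := p
    obtain ⟨y, b'⟩ := p'
    simp only [beta, Sum.inl.injEq, Prod.mk.injEq]
    constructor
    · rintro ⟨rfl, rfl⟩
      exact ⟨by abel, by cases b <;> cases e <;> rfl⟩
    · rintro ⟨rfl, rfl⟩
      have : xor b (xor b b') = b' := by cases b <;> cases b' <;> rfl
      rw [this]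
      exact ⟨by abel, rfl⟩
  simp [key]

omit [AddCommGroup A'] [Fintype A'] [Fintype U] in
theorem beta_lr (s : A) (p : A × Bool) (p' : A' × Bool) :
    ∑ t, (if beta E s t (.inl p) = .inr p' then (1 : ℤ) else 0) = 1 := by
  refine Eq.trans (Finset.sum_congr rfl fun t _ => ?_) (beta_rl E s p' p)
  have : beta E s t (.inl p) = .inr p' ↔ beta E s t (.inr p') = .inl p := by
    constructor <;> intro h <;> rw [← h, (beta_inv E s t).1]
  simp only [this]

omit [AddCommGroup A'] in
theorem beta_ll (s : A) (p p' : A × Bool) :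
    ∑ t, (if beta E s t (.inl p) = .inl p' then (1 : ℤ) else 0)
      = if p.2 = p'.2 then 0 else 2 * Fintype.card U * (if shift p p' = s then 1 else 0) := by
  rw [Fintype.sum_prod_type]
  let F : A' ⊕ U ≃ A := E.trans (Equiv.subLeft (p.1 - (if p.2 then s else 0)))
  rw [← Equiv.sum_comp F, Fintype.sum_sum_type]
  have h : ∀ c, p.1 - F c - (if p.2 then s else 0) = E c := by
    intro c; simp only [F, Equiv.trans_apply, Equiv.subLeft_apply]; abel
  simp only [beta, h, Equiv.symm_apply_apply, Sum.elim_inl, Sum.elim_inr, Sum.inl.injEq,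
    cross_eq_iff]
  by_cases h1 : p.2 = p'.2
  · simp [h1]
  · by_cases h2 : shift p p' = s <;> simp [h1, h2]; ring

omit [AddCommGroup A] [DecidableEq A] [AddCommGroup A'] [DecidableEq A'] [Fintype A]
  [Fintype A'] in
/-- three seed columns -/
theorem seed3 : Rz ((A × Bool) ⊕ (A' × Bool)) 3 (fun i j =>
    match i, j with
    | .inl p, .inl p' => if p.2 = p'.2 then 3 else -1
    | .inr p, .inr p' => if p.2 = p'.2 then 3 else -1
    | _, _ => -1) := by
  let c1 : (A × Bool) ⊕ (A' × Bool) → ℤ :=
    Sum.elim (fun p => if p.2 then 1 else -1) (fun p => if p.2 then 1 else -1)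
  let c2 : (A × Bool) ⊕ (A' × Bool) → ℤ :=
    Sum.elim (fun p => if p.2 then 1 else -1) (fun p => if p.2 then -1 else 1)
  let c3 : (A × Bool) ⊕ (A' × Bool) → ℤ := Sum.elim (fun _ => 1) (fun _ => -1)
  have h1 := Rz.single c1 (by rintro (⟨_, _ | _⟩ | ⟨_, _ | _⟩) <;> simp [c1])
  have h2 := Rz.single c2 (by rintro (⟨_, _ | _⟩ | ⟨_, _ | _⟩) <;> simp [c2])
  have h3 := Rz.single c3 (by rintro (⟨_, _ | _⟩ | ⟨_, _ | _⟩) <;> simp [c3])
  refine ((h1.add h2).add h3).congr rfl ?_
  rintro (⟨_, _ | _⟩ | ⟨_, _ | _⟩) (⟨_, _ | _⟩ | ⟨_, _ | _⟩) _ <;> simp [c1, c2, c3]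

omit [Fintype U] in
theorem gamma_rz (C : A' → ℕ) (hC : ∀ s, PH ((A × Bool) ⊕ (A' × Bool)) (C s)) :
    Rz ((A × Bool) ⊕ (A' × Bool)) (∑ s, C s) (fun i j =>
    match i, j with
    | .inl p, .inl p' => if p.2 = p'.2 then 0 else
        -(Sum.elim (fun s => (C s : ℤ)) (fun _ => 0) (E.symm (shift p p')))
    | .inr p, .inr p' => if p.2 = p'.2 then 0 else -(C (shift p p') : ℤ)
    | _, _ => 0) := by
  have h := Rz.invs (fun s : A' => Sum.map (cross (E (.inl s))) (cross s))
    (fun s => (cross_inv _).sum (cross_inv _)) C hC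
  refine h.congr rfl ?_
  rintro (p | p) (p' | p') _
  · simp only [Sum.map_inl, Sum.inl.injEq, cross_eq_iff]
    by_cases h1 : p.2 = p'.2
    · simp [h1]
    · obtain ⟨c, hc⟩ := E.surjective (shift p p')
      rw [← hc]
      rcases c with c | c <;> simp [h1]
  · simp
  · simp
  · simp only [Sum.map_inr, Sum.inr.injEq]
    rw [cross_sum (fun s => (C s : ℤ))]
    split_ifs <;> simp

end Four

end Pool.Agent.Elspas
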