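import Pool.Agent.P.MP_459691_co.Main

/-! Complementary families on cubes, and tilings of arcs by them. -/

set_option autoImplicit false
open Finset

namespace Pool.Agent.Elspas.Poly

/-- inner product of two signed basis vectors -/
def ip {R : Type} [DecidableEq R] (a b : R × Bool) : ℤ :=
  if a.1 = b.1 then (if a.2 = b.2 then 1 else -1) else 0

theorem ip_ne {R : Type} [DecidableEq R] {a b : R × Bool} (h : a.1 ≠ b.1) : ip a b = 0 :=
  if_neg h

theorem ip_comm {R : Type} [DecidableEq R] (a b : R × Bool) : ip a b = ip b a := by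
  unfold ip
  simp only [eq_comm (a := a.1), eq_comm (a := a.2)]

theorem ip_map {R R' : Type} [DecidableEq R] [DecidableEq R'] (f : R → R') (a b : R × Bool)
    (hf : f a.1 = f b.1 → a.1 = b.1) : ip (f a.1, a.2) (f b.1, b.2) = ip a b := by
  unfold ip
  by_cases h : a.1 = b.1
  · simp [h]
  · have : ¬ f a.1 = f b.1 := fun e => h (hf e)
    simp [h, this]

/-- the two halves of the Golay doubling step -/
def TT (β : Bool) (s : ℕ × Bool) : ℕ × Bool :=
  (2 * (s.1 / 2) + (if β then 1 else 0), xor s.2 (β && decide (s.1 % 2 = 1)))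

theorem ip_T_ft (a b : ℕ × Bool) : ip (TT false a) (TT true b) = 0 :=
  ip_ne (by simp [TT]; omega)

theorem ip_T_tf (a b : ℕ × Bool) : ip (TT true a) (TT false b) = 0 :=
  ip_ne (by simp [TT]; omega)

theorem ip_T_sum (a b : ℕ × Bool) :
    ip (TT false a) (TT false b) + ip (TT true a) (TT true b) = 2 * ip a b := by
  obtain ⟨c, s⟩ := a
  obtain ⟨c', s'⟩ := b
  by_cases h : c / 2 = c' / 2
  · by_cases h2 : c = c'
    · subst h2
      cases s <;> cases s' <;> simp [ip, TT]
    · have h3 : (c % 2 = 1 ∧ ¬ c' % 2 = 1) ∨ (¬ c % 2 = 1 ∧ c' % 2 = 1) := by omega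
      rcases h3 with ⟨h3, h4⟩ | ⟨h3, h4⟩ <;> cases s <;> cases s' <;> simp [ip, TT, h, h2, h3, h4]
  · have h2 : c ≠ c' := fun e => h (by rw [e])
    simp [ip, TT, h, h2]

theorem TT_lt (β : Bool) (s : ℕ × Bool) (k : ℕ) (h : s.1 < 2 * k) : (TT β s).1 < 2 * k := by
  cases β <;> simp [TT] <;> omega

theorem TT_ge (β : Bool) (s : ℕ × Bool) (h : 2 ≤ s.1) : 2 ≤ (TT β s).1 := by
  cases β <;> simp [TT] <;> omega

theorem sum_prod2 {I B : Type} [Fintype I] [Fintype B] (f : I × B → I × B → ℤ) :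
    ∑ x, ∑ y, f x y = ∑ i, ∑ j, ∑ u, ∑ u', f (i, u) (j, u') := by
  rw [Fintype.sum_prod_type]
  refine Finset.sum_congr rfl fun i _ => ?_
  simp only [Fintype.sum_prod_type]
  rw [Finset.sum_comm]

/-- a complementary family in which the class `0` is the set `A` with constant sign -/
def Row (I : Type) [Fintype I] (k : ℕ) (p : I → ℤ) (A : I → Bool) : Prop :=
  ∃ V : I → ℕ × Bool, (∀ i, (V i).1 < 2 * (k + 1)) ∧ (∀ i, A i = true → V i = (0, false)) ∧
    (∀ i, A i = false → 2 ≤ (V i).1) ∧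
    ∀ ω : ℤ → ℤ, ω 0 = 0 → ∑ i, ∑ j, ip (V i) (V j) * ω (p j - p i) = 0

theorem Row.equiv {I J : Type} [Fintype I] [Fintype J] {k : ℕ} {p : I → ℤ} {A : I → Bool}
    (h : Row I k p A) (e : J ≃ I) (p' : J → ℤ) (A' : J → Bool) (hp : ∀ j, p' j = p (e j))
    (hA : ∀ j, A' j = A (e j)) : Row J k p' A' := by
  obtain ⟨V, h1, h2, h3, h4⟩ := h
  refine ⟨fun j => V (e j), fun j => h1 _, fun j hj => h2 _ (hA j ▸ hj),
    fun j hj => h3 _ (hA j ▸ hj), fun ω hω => ?_⟩
  rw [← h4 ω hω, ← Equiv.sum_comp e]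
  refine Finset.sum_congr rfl fun i _ => ?_
  rw [← Equiv.sum_comp e]
  simp only [hp]

theorem Row.step {I : Type} [Fintype I] {k : ℕ} {p : I → ℤ} {A : I → Bool} (h : Row I k p A)
    (s a b : ℤ) :
    Row (I × Bool × Bool) (k + 1)
      (fun x => p x.1 + s + (if x.2.1 then a else 0) + (if x.2.2 then b else 0))
      (fun x => A x.1 && !x.2.2) := by
  obtain ⟨V, h1, h2, h3, h4⟩ := h
  let V' : I × Bool × Bool → ℕ × Bool := fun x =>
    if A x.1 then (if x.2.2 then (2 * (k + 1), x.2.1) else (0, false))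
    else TT x.2.2 (TT x.2.1 (V x.1))
  have hlt : ∀ i u u', (TT u (TT u' (V i))).1 < 2 * (k + 1) := fun i u u' =>
    TT_lt _ _ _ (TT_lt _ _ _ (h1 i))
  have hge : ∀ i u u', A i = false → 2 ≤ (TT u (TT u' (V i))).1 := fun i u u' hi =>
    TT_ge _ _ (TT_ge _ _ (h3 i hi))
  refine ⟨V', ?_, ?_, ?_, fun ω hω => ?_⟩
  · rintro ⟨i, u, u'⟩
    have := hlt i u' u
    simp only [V']
    split_ifs <;> simp <;> omega
  · rintro ⟨i, u, u'⟩ hx
    simp only [Bool.and_eq_true, Bool.not_eq_true'] at hx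
    simp [V', hx.1, hx.2]
  · rintro ⟨i, u, u'⟩ hx
    cases hA : A i
    · simpa [V', hA] using hge i u' u hA
    · have : u' = true := by simpa [hA] using hx
      simp [V', hA, this]
  · rw [sum_prod2]
    have key : ∀ i j, ∑ u : Bool × Bool, ∑ u' : Bool × Bool, ip (V' (i, u)) (V' (j, u')) *
        ω ((p j + s + (if u'.1 then a else 0) + (if u'.2 then b else 0))
          - (p i + s + (if u.1 then a else 0) + (if u.2 then b else 0)))
        = 4 * (ip (V i) (V j) * ω (p j - p i)) := by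
      intro i j
      cases hi : A i <;> cases hj : A j
      · have e1 := ip_T_sum (V i) (V j)
        have e2 := ip_T_sum (TT false (V i)) (TT false (V j))
        have e3 := ip_T_sum (TT true (V i)) (TT true (V j))
        have e4 := ip_T_sum (TT false (V i)) (TT true (V j))
        have e5 := ip_T_sum (TT true (V i)) (TT false (V j))
        rw [ip_T_ft] at e4
        rw [ip_T_tf] at e5
        simp only [Fintype.sum_prod_type, Fintype.sum_bool, V', hi, hj, ip_T_ft, ip_T_tf,
          Bool.false_eq_true, if_false, if_true, add_zero, zero_mul, zero_add,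
          add_sub_add_right_eq_sub]
        linear_combination (ω (p j - p i)) * (e2 + e3 + 2 * e1)
          + ω (p j + s + a - (p i + s)) * e4 + ω (p j + s - (p i + s + a)) * e5
      · have e0 : ∀ u u', ip (V' (i, u)) (V' (j, u')) = 0 := by
          rintro ⟨u1, u2⟩ ⟨u3, u4⟩
          have := hlt i u2 u1
          have := hge i u2 u1 hi
          refine ip_ne ?_
          cases u4 <;> simp [V', hi, hj] <;> omega
        have e1 : ip (V i) (V j) = 0 := ip_ne (by have := h3 i hi; rw [h2 j hj]; simp; omega)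
        simp [e0, e1]
      · have e0 : ∀ u u', ip (V' (i, u)) (V' (j, u')) = 0 := by
          rintro ⟨u1, u2⟩ ⟨u3, u4⟩
          have := hlt j u4 u3
          have := hge j u4 u3 hj
          refine ip_ne ?_
          cases u2 <;> simp [V', hi, hj] <;> omega
        have e1 : ip (V i) (V j) = 0 := ip_ne (by have := h3 j hj; rw [h2 i hi]; simp; omega)
        simp [e0, e1]
      · simp only [Fintype.sum_prod_type, Fintype.sum_bool, V', hi, hj, h2 i hi, h2 j hj,
          Bool.false_eq_true, if_false, if_true, add_zero, add_sub_add_right_eq_sub]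
        simp [ip]
        ring
    simp only [key, ← Finset.mul_sum, h4 ω hω, mul_zero]

/-- `p` enumerates `0, …, n-1` -/
def Enum {I : Type} [Fintype I] (p : I → ℤ) (n : ℕ) : Prop :=
  ∀ ω : ℤ → ℤ, ∑ i, ω (p i) = ∑ z ∈ range n, ω z

theorem grid (k : ℕ) : ∀ c : ℕ, c < 4 ^ k →
    ∃ (I : Type) (_ : Fintype I) (p : I → ℤ) (A B : I → Bool), Row I k p A ∧ Row I k p B ∧
      Enum p (4 ^ k) ∧ ∀ ω : ℤ → ℤ,
        ∑ i, ∑ j, (if A i && B j then ω (p i + p j) else 0) = ∑ i, ω (p i + c) := by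
  induction k with
  | zero =>
    intro c hc
    have hc0 : c = 0 := by simpa using hc
    have hR : Row Unit 0 (fun _ => 0) (fun _ => true) :=
      ⟨fun _ => (0, false), by simp, by simp, by simp, fun ω hω => by simp [hω]⟩
    exact ⟨Unit, inferInstance, fun _ => 0, fun _ => true, fun _ => true, hR, hR,
      fun ω => by simp, fun ω => by simp [hc0]⟩
  | succ k ih =>
    intro c hc
    have hl : 0 < 4 ^ k := by positivity
    obtain ⟨I, _, p, A, B, hA, hB, hE, hS⟩ := ih (c % 4 ^ k) (Nat.mod_lt _ hl)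
    set l : ℕ := 4 ^ k with hldef
    have hd : c / l < 4 := by
      rw [Nat.div_lt_iff_lt_mul hl]; rw [pow_succ] at hc; omega
    have hcd : (c : ℤ) = (c % l : ℕ) + l * (c / l : ℕ) := by
      exact_mod_cast (Nat.mod_add_div c l).symm
    obtain ⟨s, a, b, hs, hab⟩ : ∃ s a b : ℤ, (c : ℤ) = (c % l : ℕ) + s ∧ ∀ F : ℤ → ℤ,
        F (s + a + b) + F (s + b) + (F (s + a) + F s) = F 0 + F l + F (2 * l) + F (3 * l) := by
      have : c / l = 0 ∨ c / l = 1 ∨ c / l = 2 ∨ c / l = 3 := by
        generalize c / l = x at hd; omega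
      rcases this with h | h | h | h <;> rw [h] at hcd
      · refine ⟨0, l, 2 * l, by simpa using hcd, fun F => ?_⟩
        rw [show (0 : ℤ) + l + 2 * l = 3 * l by ring, zero_add, zero_add]; ring
      · refine ⟨l, -l, 2 * l, by simpa using hcd, fun F => ?_⟩
        rw [show (l : ℤ) + -l + 2 * l = 2 * l by ring, show (l : ℤ) + -l = 0 by ring,
          show (l : ℤ) + 2 * l = 3 * l by ring]; ring
      · refine ⟨2 * l, l, -(2 * l), by rw [hcd]; push_cast; ring, fun F => ?_⟩
        rw [show 2 * (l : ℤ) + l + -(2 * l) = l by ring, show 2 * (l : ℤ) + l = 3 * l by ring,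
          show 2 * (l : ℤ) + -(2 * l) = 0 by ring]; ring
      · refine ⟨3 * l, -l, -(2 * l), by rw [hcd]; push_cast; ring, fun F => ?_⟩
        rw [show 3 * (l : ℤ) + -l + -(2 * l) = 0 by ring, show 3 * (l : ℤ) + -l = 2 * l by ring,
          show 3 * (l : ℤ) + -(2 * l) = l by ring]; ring
    refine ⟨I × Bool × Bool, inferInstance,
      fun x => p x.1 + s + (if x.2.1 then a else 0) + (if x.2.2 then b else 0),
      fun x => A x.1 && !x.2.2, fun x => B x.1 && !x.2.1, hA.step s a b, ?_, fun ω => ?_,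
      fun ω => ?_⟩
    · refine (hB.step s b a).equiv ((Equiv.refl I).prodCongr (Equiv.prodComm _ _)) _ _ ?_ ?_
      · rintro ⟨i, u, u'⟩; simp; ring
      · rintro ⟨i, u, u'⟩; simp
    · have e1 : ∀ t : ℤ, ∑ i, ω (p i + t) = ∑ z ∈ range l, ω (z + t) := fun t =>
        hE (fun z => ω (z + t))
      have e2 := hab (fun t => ∑ z ∈ range l, ω (z + t))
      simp only [Fintype.sum_prod_type, Fintype.sum_bool, Bool.false_eq_true, if_false, if_true,
        add_zero, Finset.sum_add_distrib, add_assoc (p _), e1]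
      rw [e2, pow_succ, ← hldef, show l * 4 = l + l + l + l by ring]
      simp only [Finset.sum_range_add]
      push_cast
      simp only [add_zero]
      congr 1
      · congr 1
        · congr 1
          exact Finset.sum_congr rfl fun z _ => by rw [add_comm]
        · exact Finset.sum_congr rfl fun z _ => by congr 1; ring
      · exact Finset.sum_congr rfl fun z _ => by congr 1; ring
    · rw [sum_prod2]
      have e1 : ∀ t : ℤ, ∑ i, ∑ j, (if A i && B j then ω (p i + p j + t) else 0)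
          = ∑ i, ω (p i + (c % l : ℕ) + t) := fun t => hS (fun z => ω (z + t))
      have e2 : ∀ i j, ∑ u : Bool × Bool, ∑ u' : Bool × Bool,
          (if (A i && !u.2) && (B j && !u'.1) then
            ω (p i + s + (if u.1 then a else 0) + (if u.2 then b else 0) +
              (p j + s + (if u'.1 then a else 0) + (if u'.2 then b else 0))) else 0)
          = (if A i && B j then ω (p i + p j + (2 * s + a + b)) else 0)
            + (if A i && B j then ω (p i + p j + (2 * s + b)) else 0)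
            + ((if A i && B j then ω (p i + p j + (2 * s + a)) else 0)
            + (if A i && B j then ω (p i + p j + 2 * s) else 0)) := by
        intro i j
        cases A i <;> cases B j <;>
          simp only [Fintype.sum_prod_type, Fintype.sum_bool, Bool.false_eq_true, if_false,
            if_true, add_zero, Bool.not_true, Bool.not_false, Bool.and_true, Bool.and_false,
            zero_add, Bool.false_and]
        rw [show p i + s + a + (p j + s + b) = p i + p j + (2 * s + a + b) by ring,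
          show p i + s + a + (p j + s) = p i + p j + (2 * s + a) by ring,
          show p i + s + (p j + s + b) = p i + p j + (2 * s + b) by ring,
          show p i + s + (p j + s) = p i + p j + 2 * s by ring]
        ring
      simp only [e2, Finset.sum_add_distrib, e1]
      simp only [Fintype.sum_prod_type, Fintype.sum_bool, Bool.false_eq_true, if_false, if_true,
        add_zero, Finset.sum_add_distrib, hs]
      congr 1 <;> congr 1 <;> exact Finset.sum_congr rfl fun z _ => by congr 1; ring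

/-- two complementary families whose cross correlation is `-∑ z^(d i)` -/
def Bi (I : Type) [Fintype I] (r : ℕ) (p q d : I → ℤ) : Prop :=
  ∃ V W : I → ℕ × Bool, (∀ i, (V i).1 < r) ∧ (∀ i, (W i).1 < r) ∧
    (∀ ω : ℤ → ℤ, ω 0 = 0 → ∑ i, ∑ j, ip (V i) (V j) * ω (p j - p i) = 0) ∧
    (∀ ω : ℤ → ℤ, ω 0 = 0 → ∑ i, ∑ j, ip (W i) (W j) * ω (q j - q i) = 0) ∧
    ∀ ω : ℤ → ℤ, ∑ i, ∑ j, ip (V i) (W j) * ω (p i - q j) = -∑ i, ω (d i)

section
variable {I J : Type} [Fintype I] [Fintype J] {r r' : ℕ} {p q d : I → ℤ}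

theorem Bi.mono (h : Bi I r p q d) (hr : r ≤ r') : Bi I r' p q d := by
  obtain ⟨V, W, h1, h2, h3⟩ := h
  exact ⟨V, W, fun i => (h1 i).trans_le hr, fun i => (h2 i).trans_le hr, h3⟩

theorem Bi.shift (h : Bi I r p q d) (a b : ℤ) (p' q' d' : I → ℤ) (hp : ∀ i, p' i = p i + a)
    (hq : ∀ i, q' i = q i + b) (hd : ∀ i, d' i = d i + (a - b)) : Bi I r p' q' d' := by
  obtain ⟨V, W, h1, h2, h3, h4, h5⟩ := h
  refine ⟨V, W, h1, h2, fun ω hω => ?_, fun ω hω => ?_, fun ω => ?_⟩
  · simpa only [hp, add_sub_add_right_eq_sub] using h3 ω hω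
  · simpa only [hq, add_sub_add_right_eq_sub] using h4 ω hω
  · have := h5 (fun z => ω (z + (a - b)))
    simp only [hp, hq, hd, ← this]
    refine Finset.sum_congr rfl fun i _ => Finset.sum_congr rfl fun j _ => ?_
    congr 2; ring

theorem Bi.neg (h : Bi I r p q d) : Bi I r (fun i => -p i) (fun i => -q i) (fun i => -d i) := by
  obtain ⟨V, W, h1, h2, h3, h4, h5⟩ := h
  refine ⟨V, W, h1, h2, fun ω hω => ?_, fun ω hω => ?_, fun ω => ?_⟩
  · rw [← h3 (fun z => ω (-z)) (by simpa using hω)]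
    refine Finset.sum_congr rfl fun i _ => Finset.sum_congr rfl fun j _ => ?_
    congr 2; ring
  · rw [← h4 (fun z => ω (-z)) (by simpa using hω)]
    refine Finset.sum_congr rfl fun i _ => Finset.sum_congr rfl fun j _ => ?_
    congr 2; ring
  · rw [← h5 (fun z => ω (-z))]
    refine Finset.sum_congr rfl fun i _ => Finset.sum_congr rfl fun j _ => ?_
    congr 2; ring

theorem sum_ip_sum (V W : I → ℕ × Bool) (V' W' : J → ℕ × Bool) (hV : ∀ i, (V i).1 < r)
    (hW : ∀ i, (W i).1 < r) (F : I ⊕ J → I ⊕ J → ℤ) :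
    ∑ x, ∑ y, ip (Sum.elim V (fun j => ((V' j).1 + r, (V' j).2)) x)
        (Sum.elim W (fun j => ((W' j).1 + r, (W' j).2)) y) * F x y
      = ∑ i, ∑ j, ip (V i) (W j) * F (.inl i) (.inl j)
        + ∑ i, ∑ j, ip (V' i) (W' j) * F (.inr i) (.inr j) := by
  have e1 : ∀ i j, ip (V i) ((W' j).1 + r, (W' j).2) = 0 := fun i j =>
    ip_ne (by have := hV i; simp; omega)
  have e2 : ∀ i j, ip ((V' i).1 + r, (V' i).2) (W j) = 0 := fun i j =>
    ip_ne (by have := hW j; simp; omega)
  have e3 : ∀ i j, ip ((V' i).1 + r, (V' i).2) ((W' j).1 + r, (W' j).2) = ip (V' i) (W' j) :=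
    fun i j => ip_map (fun c => c + r) _ _ (by simp)
  simp only [Fintype.sum_sum_type, Sum.elim_inl, Sum.elim_inr, e1, e2, e3, zero_mul,
    Finset.sum_const_zero, add_zero, zero_add]

theorem Bi.sum {p' q' d' : J → ℤ} (h : Bi I r p q d) (h' : Bi J r' p' q' d') :
    Bi (I ⊕ J) (r + r') (Sum.elim p p') (Sum.elim q q') (Sum.elim d d') := by
  obtain ⟨V, W, h1, h2, h3, h4, h5⟩ := h
  obtain ⟨V', W', h1', h2', h3', h4', h5'⟩ := h'
  refine ⟨Sum.elim V (fun j => ((V' j).1 + r, (V' j).2)),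
    Sum.elim W (fun j => ((W' j).1 + r, (W' j).2)), ?_, ?_, fun ω hω => ?_, fun ω hω => ?_,
    fun ω => ?_⟩
  · rintro (i | j)
    · have := h1 i; simp; omega
    · have := h1' j; simp; omega
  · rintro (i | j)
    · have := h2 i; simp; omega
    · have := h2' j; simp; omega
  · rw [sum_ip_sum V V V' V' h1 h1]
    simp only [Sum.elim_inl, Sum.elim_inr, h3 ω hω, h3' ω hω, add_zero]
  · rw [sum_ip_sum W W W' W' h2 h2]
    simp only [Sum.elim_inl, Sum.elim_inr, h4 ω hω, h4' ω hω, add_zero]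
  · rw [sum_ip_sum V W V' W' h1 h2]
    simp only [Sum.elim_inl, Sum.elim_inr, h5 ω, h5' ω, Fintype.sum_sum_type]
    ring

end

theorem Bi.single (a b : ℤ) : Bi Unit 1 (fun _ => a) (fun _ => b) (fun _ => a - b) :=
  ⟨fun _ => (0, false), fun _ => (0, true), by simp, by simp, fun ω hω => by simp [hω],
    fun ω hω => by simp [hω], fun ω => by simp [ip]⟩

theorem Bi.empty : Bi Empty 0 (fun _ => 0) (fun _ => 0) (fun _ => 0) :=
  ⟨fun x => x.elim, fun x => x.elim, fun x => x.elim, fun x => x.elim, by simp, by simp, by simp⟩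

theorem piece (k c : ℕ) (hc : c < 4 ^ k) :
    ∃ (I : Type) (_ : Fintype I) (p : I → ℤ), Enum p (4 ^ k) ∧
      Bi I (4 * (k + 1)) p (fun i => -p i) (fun i => p i + c) := by
  obtain ⟨I, _, p, A, B, ⟨V, h1, h2, h3, h4⟩, ⟨W, g1, g2, g3, g4⟩, hE, hS⟩ := grid k c hc
  let f : ℕ → ℕ := fun n => if n = 0 then 0 else n + 2 * (k + 1)
  let W' : I → ℕ × Bool := fun i => (f (W i).1, !(W i).2)
  refine ⟨I, inferInstance, p, hE, V, W', fun i => by have := h1 i; omega, fun i => ?_, h4,
    fun ω hω => ?_, fun ω => ?_⟩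
  · have := g1 i
    simp only [W', f]; split_ifs <;> omega
  · rw [← g4 (fun z => ω (-z)) (by simpa using hω)]
    refine Finset.sum_congr rfl fun i _ => Finset.sum_congr rfl fun j _ => ?_
    have : ip (W' i) (W' j) = ip (W i) (W j) := by
      have e := ip_map f ((W i).1, !(W i).2) ((W j).1, !(W j).2)
        (by intro h; simp only [f] at h ⊢; split_ifs at h <;> omega)
      simp only [W', e]
      simp [ip]
    rw [this]
    congr 2; ring
  · rw [← hS ω, ← Finset.sum_neg_distrib]
    refine Finset.sum_congr rfl fun i _ => ?_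
    rw [← Finset.sum_neg_distrib]
    refine Finset.sum_congr rfl fun j _ => ?_
    have a1 := h1 i
    cases hi : A i <;> cases hj : B j
    · have a2 := h3 i hi
      have a3 := g3 j hj
      rw [ip_ne (by simp only [W', f]; split_ifs <;> omega)]; simp
    · have a2 := h3 i hi
      rw [ip_ne (by simp only [W', f, g2 j hj]; simp; omega)]; simp
    · have a3 := g3 j hj
      rw [ip_ne (by simp only [W', f, h2 i hi]; split_ifs <;> omega)]; simp
    · simp [W', f, h2 i hi, g2 j hj, ip]

/-- a pair of mirror arcs of length `L` whose differences tile an interval of length `L` -/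
def Arc (L : ℕ) (α β : ℤ) (r : ℕ) : Prop :=
  ∃ (I : Type) (_ : Fintype I) (p d : I → ℤ), Bi I r p (fun i => -p i) d ∧ Enum p L ∧
    ∀ ω : ℤ → ℤ, (∀ t, ω (t - α) = ω (2 * L - 2 + β - t)) →
      ∑ i, ω (d i) = ∑ t ∈ range L, ω (t - α)

theorem Arc.rev {L r : ℕ} {α β : ℤ} (h : Arc L β α r) : Arc L α β r := by
  obtain ⟨I, _, p, d, h1, h2, h3⟩ := h
  refine ⟨I, inferInstance, fun i => L - 1 - p i, fun i => 2 * L - 2 - d i, ?_, fun ω => ?_,
    fun ω hω => ?_⟩
  · exact h1.neg.shift (L - 1) (-(L - 1)) _ _ _ (fun i => by ring) (fun i => by ring)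
      (fun i => by ring)
  · rw [h2 (fun z => ω (L - 1 - z)), ← Finset.sum_range_reflect]
    refine Finset.sum_congr rfl fun z hz => ?_
    have := Finset.mem_range.1 hz
    congr 1; omega
  · rw [h3 (fun z => ω (2 * L - 2 - z)) (fun t => by
      rw [show 2 * (L : ℤ) - 2 - (2 * L - 2 + α - t) = t - α by ring, hω]; congr 1; ring)]
    refine Finset.sum_congr rfl fun z _ => ?_
    rw [hω]; congr 1; ring

theorem Arc.peel {L r k : ℕ} {α β : ℤ} (h1 : -(4 ^ k : ℤ) < α) (h2 : α ≤ 0)
    (h : Arc L (α + 4 ^ k) (β - 4 ^ k) r) : Arc (4 ^ k + L) α β (4 * (k + 1) + r) := by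
  obtain ⟨c, hc⟩ : ∃ c : ℕ, α = -c := ⟨(-α).toNat, by omega⟩
  have hck : c < 4 ^ k := by
    have : (c : ℤ) < 4 ^ k := by omega
    exact_mod_cast this
  obtain ⟨I, _, p, hE, hB⟩ := piece k c hck
  obtain ⟨J, _, p', d', g1, g2, g3⟩ := h
  refine ⟨I ⊕ J, inferInstance, Sum.elim p (fun j => p' j + 4 ^ k),
    Sum.elim (fun i => p i + c) (fun j => d' j + 2 * 4 ^ k), ?_, fun ω => ?_, fun ω hω => ?_⟩
  · have := hB.sum (g1.shift (4 ^ k) (-4 ^ k) (fun j => p' j + 4 ^ k)
      (fun j => -(p' j + 4 ^ k)) (fun j => d' j + 2 * 4 ^ k) (fun _ => rfl) (fun _ => by ring)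
      (fun _ => by ring))
    convert this using 1
    funext x; cases x <;> rfl
  · simp only [Fintype.sum_sum_type, Sum.elim_inl, Sum.elim_inr]
    rw [hE ω, g2 (fun z => ω (z + 4 ^ k)), Finset.sum_range_add]
    congr 1
    exact Finset.sum_congr rfl fun z _ => by congr 1; push_cast; ring
  · simp only [Fintype.sum_sum_type, Sum.elim_inl, Sum.elim_inr]
    rw [hE (fun z => ω (z + c)), g3 (fun z => ω (z + 2 * 4 ^ k)) (fun t => by
      rw [show t - (α + 4 ^ k) + 2 * 4 ^ k = t + 4 ^ k - α by ring, hω]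
      congr 1; push_cast; ring), Finset.sum_range_add]
    congr 1
    · exact Finset.sum_congr rfl fun z _ => by congr 1; rw [hc]; ring
    · exact Finset.sum_congr rfl fun z _ => by congr 1; push_cast; ring

theorem Arc.mono {L r r' : ℕ} {α β : ℤ} (h : Arc L α β r) (hr : r ≤ r') : Arc L α β r' := by
  obtain ⟨I, _, p, d, h1, h2⟩ := h
  exact ⟨I, inferInstance, p, d, h1.mono hr, h2⟩

theorem arc_all (m : ℕ) : ∀ j k : ℕ, k + j = m → ∀ L : ℕ, L < 4 ^ m → 4 ^ k ∣ L →
    ∀ α β : ℤ, -(4 ^ k : ℤ) < α → α ≤ 0 → 0 < β → β ≤ 4 ^ k → Arc L α β (12 * m * j) := by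
  intro j
  induction j with
  | zero =>
    intro k hk L hL hd α β _ _ _ _
    obtain rfl : k = m := by omega
    obtain rfl : L = 0 := Nat.eq_zero_of_dvd_of_lt hd hL
    exact ⟨Empty, inferInstance, fun _ => 0, fun _ => 0, by simpa using Bi.empty,
      fun ω => by simp, fun ω _ => by simp⟩
  | succ j ih =>
    intro k hk L hL hd
    have key : ∀ s L' : ℕ, s * 4 ^ k + L' < 4 ^ m → 4 ^ (k + 1) ∣ L' → ∀ α β : ℤ,
        -(4 ^ k : ℤ) < α → α ≤ 0 → 0 < β → β ≤ 4 ^ k →
        Arc (s * 4 ^ k + L') α β (4 * m * s + 12 * m * j) := by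
      intro s
      induction s with
      | zero =>
        intro L' h1 h2 α β a1 a2 a3 a4
        have h4 : (0 : ℤ) < 4 ^ k := by positivity
        simpa using ih (k + 1) (by omega) L' (by omega) h2 α β (by rw [pow_succ]; omega) a2 a3
          (by rw [pow_succ]; omega)
      | succ s ihs =>
        intro L' h1 h2 α β a1 a2 a3 a4
        have := (ihs L' (by nlinarith [Nat.zero_le (4 ^ k)]) h2 (β - 4 ^ k) (α + 4 ^ k) (by omega)
          (by omega) (by omega) (by omega)).rev
        have := Arc.peel a1 a2 this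
        rw [show (s + 1) * 4 ^ k + L' = 4 ^ k + (s * 4 ^ k + L') by ring]
        exact this.mono (by nlinarith)
    intro α β a1 a2 a3 a4
    obtain ⟨u, rfl⟩ := hd
    have e : 4 ^ k * u = (u % 4) * 4 ^ k + 4 ^ (k + 1) * (u / 4) := by
      conv_lhs => rw [← Nat.mod_add_div u 4]
      ring
    rw [e] at hL ⊢
    refine (key (u % 4) _ hL (Dvd.intro _ rfl) α β a1 a2 a3 a4).mono ?_
    have : u % 4 ≤ 3 := by omega
    nlinarith [Nat.mul_le_mul_left (4 * m) this]

end Pool.Agent.Elspas.Poly
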