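import Pool.Agent.P.MP_459691_co.Poly1

/-! Starters in cyclic groups with few classes. -/

set_option autoImplicit false
open Finset

namespace Pool.Agent.Elspas.Poly

theorem Bi.pairs (n : ℕ) (a b : Fin n → ℤ) : Bi (Fin n) n a b (fun i => a i - b i) := by
  have e1 : ∀ (s : Bool) (i j : Fin n), ip ((i : ℕ), s) ((j : ℕ), s) = if i = j then 1 else 0 := by
    intro s i j; simp [ip, Fin.ext_iff]
  have e2 : ∀ (i j : Fin n), ip ((i : ℕ), false) ((j : ℕ), true) = if i = j then -1 else 0 := by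
    intro i j; simp [ip, Fin.ext_iff]
  refine ⟨fun i => (i, false), fun i => (i, true), fun i => i.2, fun i => i.2, fun ω hω => ?_,
    fun ω hω => ?_, fun ω => ?_⟩
  · simp [e1, hω]
  · simp [e1, hω]
  · simp [e2]

/-- a starter over the integers: positions tile `[0,v)`, differences are given by `S` -/
def StZ (v : ℕ) (X : Type) [Fintype X] (r : ℕ) (S : (ℤ → ℤ) → ℤ) : Prop :=
  ∃ (I : Type) (_ : Fintype I) (p q d : I → ℤ) (ξ : X → ℤ), Bi I r p q d ∧
    (∀ ω : ℤ → ℤ, ∑ i, ω (p i) + ∑ i, ω (q i) + ∑ x, ω (ξ x) = ∑ z ∈ range v, ω z) ∧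
    ∀ ω : ℤ → ℤ, (∀ n, ω (-n) = ω n) → (∀ n, ω (n + v) = ω n) → ∑ i, ω (d i) = S ω

theorem StZ.mk' {X : Type} [Fintype X] {nA nB e L r n : ℕ}
    (h : Arc L ((nA : ℤ) - e) ((nB : ℤ) - e) r) (a b : Fin n → ℤ) (ξ : X → ℤ)
    (hs : ∀ ω : ℤ → ℤ, ∑ i, ω (a i) + ∑ i, ω (b i) + ∑ x, ω (ξ x)
      = ∑ z ∈ range nA, ω z + ∑ z ∈ range nB, ω (nA + L + z)) :
    StZ (nA + L + nB + L) X (r + n)
      (fun ω => ∑ t ∈ range L, ω (((e + t : ℕ) : ℤ) + 1) + ∑ i, ω (a i - b i)) := by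
  obtain ⟨I, _, p, d, h1, h2, h3⟩ := h
  set v : ℤ := nA + L + nB + L with hv
  refine ⟨I ⊕ Fin n, inferInstance, Sum.elim (fun i => p i + nA) a,
    Sum.elim (fun i => -p i + (v - 1)) b,
    Sum.elim (fun i => d i + (nA - (v - 1))) (fun i => a i - b i), ξ,
    (h1.shift nA (v - 1) _ _ _ (fun _ => rfl) (fun _ => rfl) (fun _ => rfl)).sum
      (Bi.pairs n a b), fun ω => ?_, fun ω g1 g2 => ?_⟩
  · simp only [Fintype.sum_sum_type, Sum.elim_inl, Sum.elim_inr]
    rw [h2 (fun z => ω (z + nA)), h2 (fun z => ω (-z + (v - 1))),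
      ← Finset.sum_range_reflect (fun z : ℕ => ω (-(z : ℤ) + (v - 1)))]
    have e1 : ∑ z ∈ range L, ω (-((L - 1 - z : ℕ) : ℤ) + (v - 1))
        = ∑ z ∈ range L, ω ((nA + L + nB + z : ℕ) : ℤ) := by
      refine Finset.sum_congr rfl fun z hz => ?_
      have := Finset.mem_range.1 hz
      congr 1; omega
    have e2 : ∑ z ∈ range L, ω ((z : ℤ) + nA) = ∑ z ∈ range L, ω ((nA + z : ℕ) : ℤ) :=
      Finset.sum_congr rfl fun z _ => by congr 1; push_cast; ring
    have e3 := hs ω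
    rw [e1, e2]
    simp only [Finset.sum_range_add]
    push_cast at e3 ⊢
    linarith
  · simp only [Fintype.sum_sum_type, Sum.elim_inl, Sum.elim_inr]
    have g3 : ∀ n, ω (n + v) = ω n := fun n => by rw [← g2 n]; congr 1
    rw [h3 (fun z => ω (z + (nA - (v - 1)))) (fun t => by
      rw [← g3, ← g1]; congr 1; rw [hv]; ring)]
    congr 1
    refine Finset.sum_congr rfl fun t _ => ?_
    rw [← g3]; congr 1; push_cast; ring

theorem StZ.congr {X : Type} [Fintype X] {v v' r r' : ℕ} {S S' : (ℤ → ℤ) → ℤ} (h : StZ v X r S)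
    (hv : v = v') (hr : r ≤ r') (hS : ∀ ω, S ω = S' ω) : StZ v' X r' S' := by
  subst hv
  obtain ⟨I, _, p, q, d, ξ, h1, h2, h3⟩ := h
  exact ⟨I, inferInstance, p, q, d, ξ, h1.mono hr, h2, fun ω a b => (h3 ω a b).trans (hS ω)⟩

theorem arc4 {m L : ℕ} (hm : 1 ≤ m) (hL : L < 4 ^ m) (h4 : 4 ∣ L) (α β : ℤ) (a1 : -4 < α)
    (a2 : α ≤ 0) (a3 : 0 < β) (a4 : β ≤ 4) : Arc L α β (12 * m ^ 2) :=
  (arc_all m (m - 1) 1 (by omega) L hL (by simpa using h4) α β (by simpa using a1) a2 a3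
    (by simpa using a4)).mono (by nlinarith [Nat.sub_le m 1])

theorem stz_odd {m L : ℕ} (hL : L < 4 ^ m) :
    StZ (2 * L + 1) Unit (12 * m ^ 2 + 4) (fun ω => ∑ t ∈ range L, ω ((t : ℤ) + 1)) := by
  have h := (arc_all m m 0 (by omega) L hL (by simp) 0 1 (by simp) le_rfl one_pos (by simp)).rev
  have := StZ.mk' (X := Unit) (nA := 1) (nB := 0) (e := 0) (n := 0) (by simpa using h)
    (fun i => i.elim0) (fun i => i.elim0) (fun _ => 0) (fun ω => by simp)
  exact this.congr (by ring) (by nlinarith) (fun ω => by simp)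

theorem stz_even {m w : ℕ} (hm : 1 ≤ m) (hw : w < 4 ^ m) :
    StZ (2 * (w + 1)) Bool (12 * m ^ 2 + 4) (fun ω => ∑ t ∈ range w, ω ((t : ℤ) + 1)) := by
  have h4 : w % 4 = 0 ∨ w % 4 = 1 ∨ w % 4 = 2 ∨ w % 4 = 3 := by omega
  rcases h4 with h | h | h | h
  · have := StZ.mk' (X := Bool) (nA := 0) (nB := 2) (e := 0) (n := 0) (L := w)
      (arc4 hm hw (by omega) _ _ (by simp) (by simp) (by simp) (by simp))
      (fun i => i.elim0) (fun i => i.elim0) (fun x => if x then w else w + 1)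
      (fun ω => by simp [Finset.sum_range_succ])
    exact this.congr (by ring) (by omega) (fun ω => by simp)
  · obtain ⟨L, rfl⟩ : ∃ L, w = 1 + L := ⟨w - 1, by omega⟩
    have := StZ.mk' (X := Bool) (nA := 0) (nB := 4) (e := 1) (n := 1) (L := L)
      (arc4 hm (by omega) (by omega) _ _ (by simp) (by simp) (by simp) (by simp))
      ![L + 1] ![L] (fun x => if x then L + 2 else L + 3)
      (fun ω => by simp [Finset.sum_range_succ]; ring)
    exact this.congr (by ring) (by omega) (fun ω => by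
      rw [Finset.sum_range_add]; simp; ring)
  · obtain ⟨L, rfl⟩ : ∃ L, w = 2 + L := ⟨w - 2, by omega⟩
    have := StZ.mk' (X := Bool) (nA := 0) (nB := 6) (e := 2) (n := 2) (L := L)
      (arc4 hm (by omega) (by omega) _ _ (by simp) (by simp) (by simp) (by simp))
      ![L + 1, L + 4] ![L, L + 2] (fun x => if x then L + 3 else L + 5)
      (fun ω => by simp [Finset.sum_range_succ]; ring)
    exact this.congr (by ring) (by omega) (fun ω => by
      rw [Finset.sum_range_add]; simp [Finset.sum_range_succ]; ring)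
  · obtain ⟨L, rfl⟩ : ∃ L, w = 3 + L := ⟨w - 3, by omega⟩
    have := StZ.mk' (X := Bool) (nA := 2) (nB := 6) (e := 3) (n := 3) (L := L)
      (arc4 hm (by omega) (by omega) _ _ (by simp) (by simp) (by simp) (by simp))
      ![1, 2 + L + 2, 2 + L + 4] ![0, 2 + L, 2 + L + 1]
      (fun x => if x then 2 + L + 3 else 2 + L + 5)
      (fun ω => by simp [Finset.sum_range_succ, Fin.sum_univ_succ]; ring)
    exact this.congr (by ring) (by omega) (fun ω => by
      rw [Finset.sum_range_add]; simp [Finset.sum_range_succ, Fin.sum_univ_succ]; ring)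

theorem stz_plus {m w : ℕ} (hm : 1 ≤ m) (hw : w < 4 ^ m) :
    ∃ S S' : (ℤ → ℤ) → ℤ, StZ (2 * (w + 1)) Empty (12 * m ^ 2 + 4) S ∧
      StZ (2 * (w + 1)) Empty (12 * m ^ 2 + 4) S' ∧
      ∀ ω, S ω + S' ω = 2 * ∑ t ∈ range (w + 1), ω ((t : ℤ) + 1) := by
  have h4 : w % 4 = 0 ∨ w % 4 = 1 ∨ w % 4 = 2 ∨ w % 4 = 3 := by omega
  rcases h4 with h | h | h | h
  · have := StZ.mk' (X := Empty) (nA := 0) (nB := 2) (e := 1) (n := 1) (L := w)
      (arc4 hm hw (by omega) _ _ (by simp) (by simp) (by simp) (by simp))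
      ![w + 1] ![w] (fun x => x.elim) (fun ω => by simp [Finset.sum_range_succ]; ring)
    have := this.congr (v' := 2 * (w + 1)) (r' := 12 * m ^ 2 + 4) (by ring) (by omega)
      (fun _ => rfl)
    refine ⟨_, _, this, this, fun ω => ?_⟩
    rw [add_comm w 1, Finset.sum_range_add]; simp; ring
  · obtain ⟨L, rfl⟩ : ∃ L, w = 1 + L := ⟨w - 1, by omega⟩
    have hA := arc4 hm (L := L) (by omega) (by omega) (((0 : ℕ) : ℤ) - (2 : ℕ))
      (((4 : ℕ) : ℤ) - (2 : ℕ)) (by simp) (by simp) (by simp) (by simp)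
    have h1 := StZ.mk' (X := Empty) hA ![L + 1, L + 3] ![L, L + 2] (fun x => x.elim)
      (fun ω => by simp [Finset.sum_range_succ]; ring)
    have h2 := StZ.mk' (X := Empty) hA ![L + 2, L + 3] ![L, L + 1] (fun x => x.elim)
      (fun ω => by simp [Finset.sum_range_succ]; ring)
    refine ⟨_, _, h1.congr (by ring) (by omega) (fun _ => rfl),
      h2.congr (by ring) (by omega) (fun _ => rfl), fun ω => ?_⟩
    rw [show 1 + L + 1 = 2 + L by ring, Finset.sum_range_add]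
    simp [Finset.sum_range_succ]; ring_nf
  · obtain ⟨L, rfl⟩ : ∃ L, w = 2 + L := ⟨w - 2, by omega⟩
    have hA := arc4 hm (L := L) (by omega) (by omega) (((0 : ℕ) : ℤ) - (3 : ℕ))
      (((6 : ℕ) : ℤ) - (3 : ℕ)) (by simp) (by simp) (by simp) (by simp)
    have h1 := StZ.mk' (X := Empty) hA ![L + 3, L + 2, L + 5] ![L, L + 1, L + 4] (fun x => x.elim)
      (fun ω => by simp [Finset.sum_range_succ, Fin.sum_univ_succ]; ring)
    have h2 := StZ.mk' (X := Empty) hA ![L + 2, L + 4, L + 5] ![L, L + 1, L + 3] (fun x => x.elim)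
      (fun ω => by simp [Finset.sum_range_succ, Fin.sum_univ_succ]; ring)
    refine ⟨_, _, h1.congr (by ring) (by omega) (fun _ => rfl),
      h2.congr (by ring) (by omega) (fun _ => rfl), fun ω => ?_⟩
    rw [show 2 + L + 1 = 3 + L by ring, Finset.sum_range_add]
    simp [Finset.sum_range_succ, Fin.sum_univ_succ]; ring_nf
  · obtain ⟨L, rfl⟩ : ∃ L, w = 3 + L := ⟨w - 3, by omega⟩
    have := StZ.mk' (X := Empty) (nA := 2) (nB := 6) (e := 4) (n := 4) (L := L)
      (arc4 hm (by omega) (by omega) _ _ (by simp) (by simp) (by simp) (by simp))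
      ![1, 2 + L + 3, 2 + L + 5, 2 + L + 4] ![0, 2 + L, 2 + L + 1, 2 + L + 2] (fun x => x.elim)
      (fun ω => by simp [Finset.sum_range_succ, Fin.sum_univ_succ]; ring)
    have := this.congr (v' := 2 * (3 + L + 1)) (r' := 12 * m ^ 2 + 4) (by ring) (by omega)
      (fun _ => rfl)
    refine ⟨_, _, this, this, fun ω => ?_⟩
    rw [show 3 + L + 1 = 4 + L by ring, Finset.sum_range_add]
    simp [Finset.sum_range_succ, Fin.sum_univ_succ]; ring_nf

/-- a starter in a finite abelian group, with exceptional points `X` -/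
def St (G : Type) [AddCommGroup G] [DecidableEq G] (X : Type) (r : ℕ) (D : G → ℤ) : Prop :=
  ∃ (I : Type) (_ : Fintype I) (e : (I ⊕ I) ⊕ X ≃ G) (V W : I → Fin r × Bool),
    (∀ h ≠ 0, ∑ i, ∑ j, ip (V i) (V j) *
      (if e (.inl (.inl j)) - e (.inl (.inl i)) = h then 1 else 0) = 0) ∧
    (∀ h ≠ 0, ∑ i, ∑ j, ip (W i) (W j) *
      (if e (.inl (.inr j)) - e (.inl (.inr i)) = h then 1 else 0) = 0) ∧
    ∀ h, ∑ i, ∑ j, ip (V i) (W j) *
      ((if e (.inl (.inr j)) - e (.inl (.inl i)) = h then 1 else 0)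
        + (if e (.inl (.inl i)) - e (.inl (.inr j)) = h then 1 else 0)) = -D h

theorem sum_zmod (v : ℕ) [NeZero v] (φ : ZMod v → ℤ) :
    ∑ z ∈ range v, φ ((z : ℤ) : ZMod v) = ∑ g, φ g := by
  refine Finset.sum_nbij' (fun z => (z : ZMod v)) (fun g => g.val) (by simp)
    (fun g _ => Finset.mem_range.2 (ZMod.val_lt g)) (fun z hz => ?_) (fun g _ => ?_)
    (fun z _ => by simp)
  · exact ZMod.val_cast_of_lt (Finset.mem_range.1 hz)
  · simp

/-- the even periodic test function of a residue class -/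
def eta {v : ℕ} (h : ZMod v) (n : ℤ) : ℤ :=
  (if -(n : ZMod v) = h then 1 else 0) + (if (n : ZMod v) = h then 1 else 0)

theorem StZ.st {X : Type} [Fintype X] {v r : ℕ} [NeZero v] {S : (ℤ → ℤ) → ℤ} (h : StZ v X r S) :
    St (ZMod v) X r (fun h => S (eta h)) := by
  classical
  obtain ⟨I, _, p, q, d, ξ, ⟨V, W, b1, b2, h1, h2, h3⟩, h4, h5⟩ := h
  let pos : (I ⊕ I) ⊕ X → ZMod v := fun u => ((Sum.elim (Sum.elim p q) ξ u : ℤ) : ZMod v)
  have hp : ∀ φ : ZMod v → ℤ, ∑ u, φ (pos u) = ∑ g, φ g := fun φ => by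
    rw [← sum_zmod, ← h4 (fun z => φ (z : ZMod v))]
    simp [pos, Fintype.sum_sum_type]
  have hb : Function.Bijective pos := by
    rw [Fintype.bijective_iff_surjective_and_card]
    refine ⟨fun g => ?_, ?_⟩
    · by_contra hg
      push Not at hg
      have := hp (fun x => if x = g then 1 else 0)
      simp [hg] at this
    · have := hp (fun _ => 1)
      simp only [Finset.sum_const, card_univ, nsmul_eq_mul, mul_one, Nat.cast_inj] at this
      exact this
  have hip : ∀ (a b : ℕ × Bool) (ha : a.1 < r) (hb : b.1 < r),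
      ip ((⟨a.1, ha⟩ : Fin r), a.2) ((⟨b.1, hb⟩ : Fin r), b.2) = ip a b := by
    intro a b ha hb; simp [ip]
  refine ⟨I, inferInstance, Equiv.ofBijective pos hb, fun i => (⟨(V i).1, b1 i⟩, (V i).2),
    fun i => (⟨(W i).1, b2 i⟩, (W i).2), fun h hh => ?_, fun h hh => ?_, fun h => ?_⟩
  · have := h1 (fun n => if (n : ZMod v) = h then 1 else 0) (by simp [hh.symm])
    simpa [hip, pos] using this
  · have := h2 (fun n => if (n : ZMod v) = h then 1 else 0) (by simp [hh.symm])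
    simpa [hip, pos] using this
  · have := h3 (eta h)
    rw [h5 (eta h) (fun n => by simp [eta, add_comm]) (fun n => by simp [eta])] at this
    rw [← this]
    simp [hip, pos, eta]

theorem St.congr {G : Type} [AddCommGroup G] [DecidableEq G] {X : Type} {r : ℕ} {D D' : G → ℤ}
    (h : St G X r D) (hD : ∀ x, D x = D' x) : St G X r D' := by
  rwa [show D' = D from funext fun x => (hD x).symm]

theorem eta_sum_odd (L : ℕ) (h : ZMod (2 * L + 1)) :
    ∑ t ∈ range L, eta h ((t : ℤ) + 1) = if h = 0 then 0 else 1 := by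
  have h1 := sum_zmod (2 * L + 1) (fun g => if g = h then 1 else 0)
  rw [show range (2 * L + 1) = range (1 + L + L) by congr 1; ring, Finset.sum_range_add,
    Finset.sum_range_add,
    ← Finset.sum_range_reflect (fun x => if (((1 + L + x : ℕ) : ℤ) : ZMod (2 * L + 1)) = h
      then (1 : ℤ) else 0)] at h1
  have e1 : ∀ t ∈ range L, (((1 + L + (L - 1 - t) : ℕ) : ℤ) : ZMod (2 * L + 1))
      = -(((t : ℤ) + 1 : ℤ) : ZMod (2 * L + 1)) := by
    intro t ht
    have := Finset.mem_range.1 ht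
    rw [eq_neg_iff_add_eq_zero, ← Int.cast_add,
      show ((1 + L + (L - 1 - t) : ℕ) : ℤ) + (t + 1) = ((2 * L + 1 : ℕ) : ℤ) by omega]
    rw [Int.cast_natCast, ZMod.natCast_self]
  have e0 : ∑ t ∈ range L, (if (((1 + L + (L - 1 - t) : ℕ) : ℤ) : ZMod (2 * L + 1)) = h
      then (1 : ℤ) else 0) = ∑ t ∈ range L,
        (if -(((t : ℤ) + 1 : ℤ) : ZMod (2 * L + 1)) = h then 1 else 0) :=
    Finset.sum_congr rfl (fun t ht => by rw [e1 t ht])
  rw [e0] at h1
  have e2 : ∀ t : ℕ, ((1 + t : ℕ) : ℤ) = t + 1 := fun t => by push_cast; ring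
  simp only [e2, Finset.sum_ite_eq', mem_univ, if_true, Finset.sum_range_one, Nat.cast_zero,
    Int.cast_zero, eq_comm (a := (0 : ZMod (2 * L + 1)))] at h1
  simp only [eta, Finset.sum_add_distrib]
  split_ifs at h1 ⊢ <;> linarith

theorem eta_sum_even (w : ℕ) (h : ZMod (2 * (w + 1))) :
    ∑ t ∈ range w, eta h ((t : ℤ) + 1)
      = 1 - (if h = 0 then 1 else 0) - (if h = ((w + 1 : ℕ) : ZMod (2 * (w + 1))) then 1 else 0) := by
  have h1 := sum_zmod (2 * (w + 1)) (fun g => if g = h then 1 else 0)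
  rw [show range (2 * (w + 1)) = range (1 + w + 1 + w) by congr 1; ring, Finset.sum_range_add,
    Finset.sum_range_succ, Finset.sum_range_add,
    ← Finset.sum_range_reflect (fun x => if (((1 + w + 1 + x : ℕ) : ℤ) : ZMod (2 * (w + 1))) = h
      then (1 : ℤ) else 0)] at h1
  have e1 : ∀ t ∈ range w, (((1 + w + 1 + (w - 1 - t) : ℕ) : ℤ) : ZMod (2 * (w + 1)))
      = -(((t : ℤ) + 1 : ℤ) : ZMod (2 * (w + 1))) := by
    intro t ht
    have := Finset.mem_range.1 ht
    rw [eq_neg_iff_add_eq_zero, ← Int.cast_add,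
      show ((1 + w + 1 + (w - 1 - t) : ℕ) : ℤ) + (t + 1) = ((2 * (w + 1) : ℕ) : ℤ) by omega]
    rw [Int.cast_natCast, ZMod.natCast_self]
  have e0 : ∑ t ∈ range w, (if (((1 + w + 1 + (w - 1 - t) : ℕ) : ℤ) : ZMod (2 * (w + 1))) = h
      then (1 : ℤ) else 0) = ∑ t ∈ range w,
        (if -(((t : ℤ) + 1 : ℤ) : ZMod (2 * (w + 1))) = h then 1 else 0) :=
    Finset.sum_congr rfl (fun t ht => by rw [e1 t ht])
  rw [e0] at h1
  have e2 : ∀ t : ℕ, ((1 + t : ℕ) : ℤ) = t + 1 := fun t => by push_cast; ring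
  have e3 : (((w : ℤ) + 1 : ℤ) : ZMod (2 * (w + 1))) = ((w + 1 : ℕ) : ZMod (2 * (w + 1))) := by
    push_cast; rfl
  simp only [e2, e3, Finset.sum_ite_eq', mem_univ, if_true, Finset.sum_range_one, Nat.cast_zero,
    Int.cast_zero, eq_comm (a := (0 : ZMod (2 * (w + 1)))),
    eq_comm (a := ((w + 1 : ℕ) : ZMod (2 * (w + 1))))] at h1
  simp only [eta, Finset.sum_add_distrib]
  linarith

theorem half_add (w : ℕ) :
    ((w + 1 : ℕ) : ZMod (2 * (w + 1))) + ((w + 1 : ℕ) : ZMod (2 * (w + 1))) = 0 := by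
  rw [← Nat.cast_add, ← two_mul, ZMod.natCast_self]

theorem half_ne (w : ℕ) : ((w + 1 : ℕ) : ZMod (2 * (w + 1))) ≠ 0 := by
  rw [Ne, ZMod.natCast_eq_zero_iff]
  intro h
  have := Nat.le_of_dvd (by omega) h
  omega

theorem st_odd {m L : ℕ} (hL : L < 4 ^ m) :
    St (ZMod (2 * L + 1)) Unit (12 * m ^ 2 + 4) (fun h => if h = 0 then 0 else 1) :=
  (stz_odd hL).st.congr (eta_sum_odd L)

theorem st_even {m w : ℕ} (hm : 1 ≤ m) (hw : w < 4 ^ m) :
    St (ZMod (2 * (w + 1))) Bool (12 * m ^ 2 + 4) (fun h => 1 - (if h = 0 then 1 else 0)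
      - (if h = ((w + 1 : ℕ) : ZMod (2 * (w + 1))) then 1 else 0)) :=
  (stz_even hm hw).st.congr (eta_sum_even w)

theorem st_plus {m w : ℕ} (hm : 1 ≤ m) (hw : w < 4 ^ m) :
    ∃ D D' : ZMod (2 * (w + 1)) → ℤ, St (ZMod (2 * (w + 1))) Empty (12 * m ^ 2 + 4) D ∧
      St (ZMod (2 * (w + 1))) Empty (12 * m ^ 2 + 4) D' ∧ ∀ h ≠ 0, D h + D' h =
        2 * (1 + if h = ((w + 1 : ℕ) : ZMod (2 * (w + 1))) then 1 else 0) := by
  obtain ⟨S, S', h1, h2, h3⟩ := stz_plus hm hw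
  refine ⟨_, _, h1.st, h2.st, fun h hh => ?_⟩
  rw [h3, Finset.sum_range_succ, eta_sum_even, if_neg hh]
  have e3 : (((w : ℤ) + 1 : ℤ) : ZMod (2 * (w + 1))) = ((w + 1 : ℕ) : ZMod (2 * (w + 1))) := by
    push_cast; rfl
  simp only [eta, e3, neg_eq_of_add_eq_zero_left (half_add w),
    eq_comm (a := ((w + 1 : ℕ) : ZMod (2 * (w + 1))))]
  ring

end Pool.Agent.Elspas.Poly
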