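import Pool.Agent.P.MP_459691_co.Poly2

/-! Developing a starter over several orbits and fixed points. -/

set_option autoImplicit false
open Finset

namespace Pool.Agent.Elspas.Poly

theorem rz_of_sym {ι κ R : Type} [Fintype κ] [DecidableEq R] (B : κ → ι → R × Bool) {h : ℕ}
    (hh : PH R h) : Rz ι (Fintype.card κ * h) (fun i j => h * ∑ t, ip (B t i) (B t j)) := by
  obtain ⟨c, h1, h2⟩ := hh
  have := Rz.of_fun (ι := ι) (κ := κ × Fin h)
    (fun x i => (if (B x.1 i).2 then -1 else 1) * c x.2 (B x.1 i).1) (by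
      intro x i
      rcases h1 x.2 (B x.1 i).1 with a | a <;> cases (B x.1 i).2 <;> simp [a])
  refine this.congr (by simp) (fun i j _ => ?_)
  rw [Fintype.sum_prod_type, Finset.mul_sum]
  refine Finset.sum_congr rfl fun t _ => ?_
  have e1 : ∑ l, (if (B t i).2 then (-1 : ℤ) else 1) * c l (B t i).1 *
      ((if (B t j).2 then -1 else 1) * c l (B t j).1)
      = (if (B t i).2 then (-1 : ℤ) else 1) * (if (B t j).2 then -1 else 1) *
        ∑ l, c l (B t i).1 * c l (B t j).1 := by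
    rw [Finset.mul_sum]; exact Finset.sum_congr rfl fun l _ => by ring
  rw [e1]
  by_cases e : (B t i).1 = (B t j).1
  · have : ∀ l, c l (B t j).1 * c l (B t j).1 = 1 := fun l => by
      rcases h1 l (B t j).1 with b | b <;> simp [b]
    simp only [ip, e, this, if_true]
    cases (B t i).2 <;> cases (B t j).2 <;> simp
  · rw [h2 _ _ e, ip_ne e]; simp

theorem pair_sym {E : Type} [Fintype E] [DecidableEq E] {μ : E → E} (hμ : Inv μ) :
    ∃ s : E → E × Bool, ∀ a b, a ≠ b → ip (s a) (s b) = if μ a = b then -1 else 0 := by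
  let e := Fintype.equivFin E
  have hne : ∀ i, e i ≠ e (μ i) := fun i hi => hμ.2 i (e.injective hi).symm
  refine ⟨fun i => if e i < e (μ i) then (i, false) else (μ i, true), fun a b hab => ?_⟩
  by_cases hj : μ a = b
  · subst hj
    simp only [hμ.1]
    rcases lt_or_gt_of_ne (hne a) with c | c
    · simp [c, not_lt_of_gt c, ip]
    · simp [c, not_lt_of_gt c, ip]
  · rw [if_neg hj]
    refine ip_ne ?_
    beta_reduce
    split_ifs
    · exact hab
    · intro hh; exact hj (by rw [show a = μ b from hh, hμ.1])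
    · exact hj
    · intro hh; exact hab (by rw [← hμ.1 a, show μ a = μ b from hh, hμ.1])

theorem sum_shift {G U : Type} [AddCommGroup G] [Fintype G] [DecidableEq G] [Fintype U]
    (e : U ≃ G) (φ : U → U → ℤ) (x y : G) :
    ∑ t, φ (e.symm (x + t)) (e.symm (y + t))
      = ∑ u, ∑ u', φ u u' * (if e u' - e u = y - x then 1 else 0) := by
  rw [← Equiv.sum_comp (e.trans (Equiv.subRight x))]
  refine Finset.sum_congr rfl fun u _ => ?_
  rw [Finset.sum_eq_single (e.symm (y + (e u - x)))]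
  · rw [if_pos (by rw [Equiv.apply_symm_apply]; abel)]; simp
  · intro u' _ hu
    rw [if_neg, mul_zero]
    intro h
    exact hu (by rw [Equiv.eq_symm_apply, ← sub_eq_zero, ← sub_eq_zero.2 h]; abel)
  · simp

/-- the Gram matrix of one developed base column -/
def gam {G X O F : Type} [AddCommGroup G] [Fintype G] [DecidableEq G] [Fintype X] [DecidableEq X]
    [DecidableEq O] [DecidableEq F] (D : G → ℤ) (τ : O → O) (μ : (O × X) ⊕ F → (O × X) ⊕ F) :
    (O × G) ⊕ F → (O × G) ⊕ F → ℤ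
  | .inl p, .inl p' => -(if p'.1 = τ p.1 then D (p'.2 - p.2) else 0)
      - (if p.2 = p'.2 then ∑ a, (if μ (.inl (p.1, a)) = .inl (p'.1, a) then 1 else 0) else 0)
  | .inl p, .inr f => -∑ a, (if μ (.inl (p.1, a)) = .inr f then 1 else 0)
  | .inr f, .inl p => -∑ a, (if μ (.inl (p.1, a)) = .inr f then 1 else 0)
  | .inr f, .inr f' => -(Fintype.card G * if μ (.inr f) = .inr f' then 1 else 0)

theorem atom {G X O F : Type} [AddCommGroup G] [Fintype G] [DecidableEq G] [Fintype X]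
    [DecidableEq X] [Fintype O] [DecidableEq O] [Fintype F] [DecidableEq F] {r : ℕ} {D : G → ℤ}
    (hS : St G X r D) (τ : O → O) (hτ : ∀ o, τ (τ o) = o) (μ : (O × X) ⊕ F → (O × X) ⊕ F)
    (hμ : Inv μ) (hμ' : ∀ o a o' a', μ (.inl (o, a)) = .inl (o', a') → a = a') {h : ℕ}
    (hh : PH ((O × Fin r) ⊕ ((O × X) ⊕ F)) h) :
    Rz ((O × G) ⊕ F) (Fintype.card G * h) (fun i j => h * gam D τ μ i j) := by
  obtain ⟨I, _, e, V, W, h1, h2, h3⟩ := hS
  obtain ⟨s, hs⟩ := pair_sym hμ
  let b : O → (I ⊕ I) ⊕ X → ((O × Fin r) ⊕ ((O × X) ⊕ F)) × Bool := fun o =>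
    Sum.elim (Sum.elim (fun i => (.inl (o, (V i).1), (V i).2))
      (fun i => (.inl (τ o, (W i).1), (W i).2)))
      (fun a => (.inr (s (.inl (o, a))).1, (s (.inl (o, a))).2))
  let B : G → (O × G) ⊕ F → ((O × Fin r) ⊕ ((O × X) ⊕ F)) × Bool := fun t =>
    Sum.elim (fun p => b p.1 (e.symm (p.2 + t))) (fun f => (.inr (s (.inr f)).1, (s (.inr f)).2))
  have i1 : ∀ (o o' : O) (a a' : Fin r × Bool),
      ip ((.inl (o, a.1), a.2) : ((O × Fin r) ⊕ ((O × X) ⊕ F)) × Bool) (.inl (o', a'.1), a'.2)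
        = (if o = o' then 1 else 0) * ip a a' := by
    intro o o' a a'
    by_cases ho : o = o' <;> simp [ip, ho]
  have i2 : ∀ (a a' : ((O × X) ⊕ F) × Bool),
      ip ((.inr a.1, a.2) : ((O × Fin r) ⊕ ((O × X) ⊕ F)) × Bool) (.inr a'.1, a'.2) = ip a a' := by
    intro a a'; simp [ip]
  have i3 : ∀ (c : O × Fin r) (c' : (O × X) ⊕ F) (u u' : Bool),
      ip ((.inl c, u) : ((O × Fin r) ⊕ ((O × X) ⊕ F)) × Bool) (.inr c', u') = 0 := by
    intro c c' u u'; simp [ip]
  have i4 : ∀ (c : O × Fin r) (c' : (O × X) ⊕ F) (u u' : Bool),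
      ip ((.inr c', u') : ((O × Fin r) ⊕ ((O × X) ⊕ F)) × Bool) (.inl c, u) = 0 := by
    intro c c' u u'; simp [ip]
  have hlr : ∀ (p : O × G) (f : F), ∑ t, ip (B t (.inl p)) (B t (.inr f))
      = -∑ a, (if μ (.inl (p.1, a)) = .inr f then 1 else 0) := by
    intro p f
    rw [← Equiv.sum_comp (e.trans (Equiv.subRight p.2)), ← Finset.sum_neg_distrib]
    simp only [B, b, Sum.elim_inl, Sum.elim_inr, Equiv.trans_apply, Equiv.subRight_apply,
      add_sub_cancel, Equiv.symm_apply_apply, Fintype.sum_sum_type, i2, i3,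
      Finset.sum_const_zero, zero_add]
    refine Finset.sum_congr rfl fun a _ => ?_
    rw [hs _ _ (by simp)]; split_ifs <;> simp
  refine (rz_of_sym B hh).congr rfl ?_
  rintro (⟨o, x⟩ | f) (⟨o', y⟩ | f') hij
  · congr 1
    simp only [B, Sum.elim_inl, gam]
    rw [sum_shift e (fun u u' => ip (b o u) (b o' u'))]
    simp only [b, Fintype.sum_sum_type, Sum.elim_inl, Sum.elim_inr, i1, i2, i3, i4, zero_mul,
      Finset.sum_const_zero, add_zero, zero_add, Finset.sum_add_distrib, mul_assoc,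
      ← Finset.mul_sum]
    have t1 : (if o = o' then (1 : ℤ) else 0) * ∑ i, ∑ j, ip (V i) (V j) *
        (if e (.inl (.inl j)) - e (.inl (.inl i)) = y - x then 1 else 0) = 0 := by
      split_ifs with ho
      · rw [h1 _ (fun hh => hij (by rw [ho, (sub_eq_zero.1 hh)])), mul_zero]
      · simp
    have t2 : (if τ o = τ o' then (1 : ℤ) else 0) * ∑ i, ∑ j, ip (W i) (W j) *
        (if e (.inl (.inr j)) - e (.inl (.inr i)) = y - x then 1 else 0) = 0 := by
      split_ifs with ho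
      · have ho' : o = o' := by rw [← hτ o, ho, hτ]
        rw [h2 _ (fun hh => hij (by rw [ho', (sub_eq_zero.1 hh)])), mul_zero]
      · simp
    have t3 := h3 (y - x)
    simp only [mul_add, Finset.sum_add_distrib] at t3
    have t4 : ∑ i, ∑ j, ip (W i) (V j) *
        (if e (.inl (.inl j)) - e (.inl (.inr i)) = y - x then (1 : ℤ) else 0)
        = ∑ i, ∑ j, ip (V i) (W j) *
        (if e (.inl (.inl i)) - e (.inl (.inr j)) = y - x then (1 : ℤ) else 0) := by
      rw [Finset.sum_comm]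
      simp only [ip_comm (W _)]
    have t5 : ∑ a, ∑ a', ip (s (.inl (o, a))) (s (.inl (o', a'))) *
        (if e (.inr a') - e (.inr a) = y - x then (1 : ℤ) else 0)
        = -(if x = y then ∑ a, (if μ (.inl (o, a)) = .inl (o', a) then 1 else 0) else 0) := by
      have : ∀ a a', ip (s (.inl (o, a))) (s (.inl (o', a'))) *
          (if e (.inr a') - e (.inr a) = y - x then (1 : ℤ) else 0)
          = if a = a' then -(if x = y then
              (if μ (.inl (o, a)) = .inl (o', a) then 1 else 0) else 0) else 0 := by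
        intro a a'
        by_cases ha : a = a'
        · subst ha
          by_cases hx : x = y
          · subst hx
            rw [hs _ _ (fun hh => hij (by simp at hh; rw [hh]))]
            simp only [sub_self, if_true]; split_ifs <;> simp
          · have : ¬ (0 : G) = y - x := fun hh => hx (sub_eq_zero.1 hh.symm).symm
            simp [hx, this]
        · rw [hs _ _ (by simp [ha]), if_neg (fun hh => ha (hμ' _ _ _ _ hh))]
          simp [ha]
      simp only [this, Finset.sum_ite_eq, mem_univ, if_true, Finset.sum_neg_distrib]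
      split_ifs <;> simp
    rw [t1, t2, t4, t5]
    by_cases ho : o' = τ o
    · have e1 : o = τ o' := by rw [ho, hτ]
      rw [if_pos e1, if_pos ho.symm, if_pos ho]; linarith
    · have e1 : ¬ o = τ o' := fun hh => ho (by rw [hh, hτ])
      rw [if_neg e1, if_neg (fun hh => ho hh.symm), if_neg ho]; ring
  · rw [hlr]; rfl
  · simp only [ip_comm (B _ (.inr f))]
    rw [hlr]; rfl
  · simp only [B, Sum.elim_inr, i2, gam]
    rw [hs _ _ (by simpa using hij)]
    split_ifs <;> simp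

theorem inv_std {ι : Type} [Fintype ι] {σ : ι → ι} (hσ : Inv σ) :
    ∃ (S : Type) (_ : Fintype S) (e : S × Bool ≃ ι), ∀ s b, σ (e (s, b)) = e (s, !b) := by
  let n := Fintype.equivFin ι
  have hne : ∀ i, n i ≠ n (σ i) := fun i hi => hσ.2 i (n.injective hi).symm
  let f : {i // n i < n (σ i)} × Bool → ι := fun x => if x.2 then σ x.1 else x.1
  have hf : Function.Bijective f := by
    constructor
    · rintro ⟨⟨a, ha⟩, _ | _⟩ ⟨⟨b, hb⟩, _ | _⟩ h <;> simp only [f, if_true, Bool.false_eq_true,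
        if_false] at h
      · simp [h]
      · subst h; rw [hσ.1] at ha; exact absurd ha (not_lt_of_gt hb)
      · subst h; rw [hσ.1] at hb; exact absurd hb (not_lt_of_gt ha)
      · have : a = b := by rw [← hσ.1 a, h, hσ.1]
        simp [this]
    · intro i
      rcases lt_or_gt_of_ne (hne i) with c | c
      · exact ⟨(⟨i, c⟩, false), rfl⟩
      · exact ⟨(⟨σ i, by rw [hσ.1]; exact c⟩, true), by simp [f, hσ.1]⟩
  refine ⟨_, inferInstance, Equiv.ofBijective f hf, fun s b => ?_⟩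
  cases b <;> simp [f, hσ.1]

theorem inv_conj {ι ι' : Type} [Fintype ι] [Fintype ι'] {σ : ι → ι} {σ' : ι' → ι'} (hσ : Inv σ)
    (hσ' : Inv σ') (hc : Fintype.card ι = Fintype.card ι') :
    ∃ e : ι ≃ ι', ∀ i j, σ' (e i) = e j ↔ σ i = j := by
  obtain ⟨S, _, e, he⟩ := inv_std hσ
  obtain ⟨S', _, e', he'⟩ := inv_std hσ'
  have h1 := Fintype.card_congr e
  have h2 := Fintype.card_congr e'
  simp only [Fintype.card_prod, Fintype.card_bool] at h1 h2
  obtain ⟨u⟩ : Nonempty (S ≃ S') := Fintype.card_eq.1 (by omega)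
  refine ⟨e.symm.trans ((u.prodCongr (Equiv.refl Bool)).trans e'), fun i j => ?_⟩
  obtain ⟨⟨s, b⟩, rfl⟩ := e.surjective i
  obtain ⟨⟨s', b'⟩, rfl⟩ := e.surjective j
  simp [he, he']

/-- `Rz` with the length given as an integer -/
def RzZ (ι : Type) (n : ℤ) (G : ι → ι → ℤ) : Prop := ∃ m : ℕ, (m : ℤ) = n ∧ Rz ι m G

theorem RzZ.add {ι : Type} {n n' : ℤ} {G G' : ι → ι → ℤ} (h : RzZ ι n G) (h' : RzZ ι n' G') :
    RzZ ι (n + n') (fun i j => G i j + G' i j) := by
  obtain ⟨m, rfl, h⟩ := h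
  obtain ⟨m', rfl, h'⟩ := h'
  exact ⟨m + m', by push_cast; rfl, h.add h'⟩

theorem RzZ.congr {ι : Type} {n n' : ℤ} {G G' : ι → ι → ℤ} (h : RzZ ι n G) (hn : n = n')
    (hG : ∀ i j, i ≠ j → G i j = G' i j) : RzZ ι n' G' := by
  obtain ⟨m, rfl, h⟩ := h
  exact ⟨m, hn, h.congr rfl hG⟩

theorem toZ {ι : Type} {n : ℕ} {G : ι → ι → ℤ} (h : Rz ι n G) : RzZ ι n G := ⟨n, rfl, h⟩

/-- translation matchings -/
def NN {O G F : Type} [AddCommGroup G] (τ : O → O) (h : G) (φ : F → F) :
    (O × G) ⊕ F → (O × G) ⊕ F := Sum.map (fun p => (τ p.1, p.2 + h)) φ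

theorem NN_inv {O G F : Type} [AddCommGroup G] {τ : O → O} {h : G} {φ : F → F}
    (hτ : ∀ o, τ (τ o) = o) (hh : h + h = 0) (hne : (∀ o, τ o ≠ o) ∨ h ≠ 0) (hφ : Inv φ) :
    Inv (NN τ h φ) := by
  refine Inv.sum ⟨fun p => by simp [hτ, add_assoc, hh], fun p hp => ?_⟩ hφ
  rcases hne with c | c
  · exact c _ (congrArg Prod.fst hp)
  · exact c (by simpa using congrArg Prod.snd hp)

theorem inv_not : Inv (fun b : Bool => !b) := ⟨by simp, by simp⟩

theorem inv_empty : Inv (fun x : Empty => x) := ⟨fun x => x.elim, fun x => x.elim⟩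

section
variable {m T : ℕ} (hm : 1 ≤ m) (H : ∀ t, T ≤ t → PH (Fin (48 * m ^ 2 + 26)) (4 * t))
  {ι : Type} [Fintype ι] [DecidableEq ι] {k : ℕ} (hι : Fintype.card ι = 2 * k) (hk : k ≤ 4 ^ m)
include H hι hk

omit [DecidableEq ι] in
theorem rz_K (hk1 : 1 ≤ k) (t : ℕ) (ht : T ≤ t) :
    RzZ ι (4 * (t * (2 * k - 1))) (fun _ _ => -(4 * t : ℤ)) := by
  obtain ⟨L, rfl⟩ : ∃ L, k = L + 1 := ⟨k - 1, by omega⟩
  have h := atom (O := Unit) (F := Unit) (st_odd (m := m) (L := L) (by omega)) id (fun _ => rfl)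
    (Sum.elim (fun _ => .inr ()) (fun _ => .inl ((), ())))
    ⟨by rintro (_ | _) <;> rfl, by rintro (_ | _) <;> simp⟩ (fun _ _ _ _ _ => rfl)
    ((H t ht).of_card (by simp; omega))
  obtain ⟨e⟩ : Nonempty (ι ≃ (Unit × ZMod (2 * L + 1)) ⊕ Unit) :=
    Fintype.card_eq.1 (by simp [hι, ZMod.card]; ring)
  refine (toZ (h.comp e e.injective)).congr (by rw [ZMod.card]; push_cast; ring)
    (fun i j hij => ?_)
  have := e.injective.ne hij
  revert this
  rcases e i with ⟨_, x⟩ | _ <;> rcases e j with ⟨_, y⟩ | _ <;> intro h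
  · have : y - x ≠ 0 := fun hh => h (by rw [sub_eq_zero.1 hh])
    simp [gam, this]
  · simp [gam]
  · simp [gam]
  · exact absurd rfl h

include hm

theorem rz_minus (hk2 : 2 ≤ k) {M : ι → ι} (hM : Inv M) (t : ℕ) (ht : T ≤ t) :
    RzZ ι (4 * (t * (2 * k - 2))) (fun i j => -(4 * t : ℤ) + if M i = j then (4 * t : ℤ) else 0) := by
  obtain ⟨w, rfl⟩ : ∃ w, k = w + 2 := ⟨k - 2, by omega⟩
  have h := atom (O := Unit) (F := Bool) (st_even hm (w := w) (by omega)) id (fun _ => rfl)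
    (Sum.elim (fun p => .inr p.2) (fun b => .inl ((), b)))
    ⟨by rintro (_ | _) <;> rfl, by rintro (_ | _) <;> simp⟩ (by simp)
    ((H t ht).of_card (by simp; omega))
  obtain ⟨e, he⟩ := inv_conj hM (NN_inv (O := Unit) (τ := id) (fun _ => rfl) (half_add w)
    (Or.inr (half_ne w)) inv_not) (by simp [hι, ZMod.card]; ring)
  refine (toZ (h.comp e e.injective)).congr (by rw [ZMod.card]; push_cast; ring)
    (fun i j hij => ?_)
  have := e.injective.ne hij
  simp only [← he]
  revert this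
  rcases e i with ⟨_, x⟩ | b <;> rcases e j with ⟨_, y⟩ | b' <;> intro h
  · have h1 : y - x ≠ 0 := fun hh => h (by rw [sub_eq_zero.1 hh])
    simp only [gam, if_neg h1]
    simp only [NN, id, if_true, Sum.map_inl, Sum.inl.injEq, Prod.mk.injEq,
      true_and, Sum.elim_inl, reduceCtorEq, if_false, Finset.sum_const_zero, ite_self,
      sub_eq_iff_eq_add', eq_comm (a := y)]
    split_ifs <;> push_cast <;> ring
  · simp [gam, NN]
  · simp [gam, NN]
  · have : (!b) = b' := by revert h; cases b <;> cases b' <;> simp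
    simp [gam, NN, this]

theorem rz_plus (hk1 : 1 ≤ k) {M : ι → ι} (hM : Inv M) (t : ℕ) (ht : T ≤ t) :
    RzZ ι (4 * (2 * t * (2 * k))) (fun i j => -(8 * t : ℤ) - if M i = j then (8 * t : ℤ) else 0) := by
  obtain ⟨w, rfl⟩ : ∃ w, k = w + 1 := ⟨k - 1, by omega⟩
  obtain ⟨D, D', h1, h2, h3⟩ := st_plus hm (w := w) (by omega)
  have hI : Inv (fun x : (Unit × Empty) ⊕ Empty => x) :=
    ⟨fun _ => rfl, by rintro (⟨_, ⟨⟩⟩ | ⟨⟨⟩⟩)⟩
  have g1 := atom (O := Unit) (F := Empty) h1 id (fun _ => rfl) _ hI (fun _ a => a.elim)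
    ((H t ht).of_card (by simp; omega))
  have g2 := atom (O := Unit) (F := Empty) h2 id (fun _ => rfl) _ hI (fun _ a => a.elim)
    ((H t ht).of_card (by simp; omega))
  obtain ⟨e, he⟩ := inv_conj hM (NN_inv (O := Unit) (τ := id) (fun _ => rfl) (half_add w)
    (Or.inr (half_ne w)) inv_empty) (by simp [hι, ZMod.card])
  refine (toZ ((g1.add g2).comp e e.injective)).congr (by rw [ZMod.card]; push_cast; ring)
    (fun i j hij => ?_)
  have := e.injective.ne hij
  simp only [← he]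
  revert this
  rcases e i with ⟨_, x⟩ | ⟨⟨⟩⟩
  rcases e j with ⟨_, y⟩ | ⟨⟨⟩⟩
  intro h
  have h1 : y - x ≠ 0 := fun hh => h (by rw [sub_eq_zero.1 hh])
  have h4 := h3 _ h1
  simp only [sub_eq_iff_eq_add', eq_comm (a := y)] at h4
  simp only [gam, NN, id, if_true, Sum.map_inl, Sum.inl.injEq, Prod.mk.injEq,
    true_and, Finset.univ_eq_empty, Finset.sum_empty, ite_self]
  push_cast at h4 ⊢
  split_ifs at h4 ⊢ <;> linear_combination (-4 * t) * h4

theorem adj (hk2 : 2 ≤ k) {M : ι → ι} (hM : Inv M) (z : ℤ) (y : ℕ) (hy : 5 * T + |z| + 2 ≤ y) :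
    RzZ ι (4 * (y * (2 * k - 1) + z)) (fun i j => -(4 * y : ℤ) - if M i = j then 4 * z else 0) := by
  obtain ⟨a, b, c, ha, hb, hc, e1, e2⟩ : ∃ a b c : ℕ, T ≤ a ∧ T ≤ b ∧ T ≤ c ∧
      (y : ℤ) = 2 * a + b + c ∧ z = 2 * a - b := by
    rcases abs_cases z with ⟨h, h'⟩ | ⟨h, h'⟩ <;> rw [h] at hy
    · exact ⟨T + ((z + 1) / 2).toNat, (2 * T + 2 * ((z + 1) / 2) - z).toNat,
        (y - 4 * T - 4 * ((z + 1) / 2) + z).toNat, by omega, by omega, by omega, by omega, by omega⟩
    · exact ⟨T, (2 * T - z).toNat, (y - 4 * T + z).toNat, le_rfl, by omega, by omega, by omega,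
        by omega⟩
  refine (((rz_plus hm H hι hk (by omega) hM a ha).add (rz_minus hm H hι hk hk2 hM b hb)).add
    (rz_K H hι hk (by omega) c hc)).congr (by rw [e1, e2]; ring) (fun i j _ => ?_)
  rw [e1, e2]
  split_ifs <;> ring

end

end Pool.Agent.Elspas.Poly
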