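import Pool.Agent.P.MP_459691_co.Poly3

/-! Seeds and all parameters. -/

set_option autoImplicit false
open Finset

namespace Pool.Agent.Elspas.Poly

/-- Gram matrix of a base column with one exceptional point in each orbit -/
def gam0 {G O F : Type} [Fintype G] [DecidableEq G] [DecidableEq O] [DecidableEq F] (τ : O → O)
    (μ : O ⊕ F → O ⊕ F) : (O × G) ⊕ F → (O × G) ⊕ F → ℤ
  | .inl p, .inl p' => -(if p'.1 = τ p.1 then (if p.2 = p'.2 then 0 else 1) else 0)
      - (if p.2 = p'.2 then (if μ (.inl p.1) = .inl p'.1 then 1 else 0) else 0)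
  | .inl p, .inr f => -(if μ (.inl p.1) = .inr f then 1 else 0)
  | .inr f, .inl p => -(if μ (.inl p.1) = .inr f then 1 else 0)
  | .inr f, .inr f' => -(Fintype.card G * if μ (.inr f) = .inr f' then 1 else 0)

/-- the matching of the exceptional points, one point per orbit -/
def ext1 {O F : Type} (μ : O ⊕ F → O ⊕ F) : (O × Unit) ⊕ F → (O × Unit) ⊕ F :=
  fun x => Sum.map (fun o => (o, ())) id (μ (Sum.map Prod.fst id x))

/-- the matching of the exceptional points, two points per orbit -/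
def ext2 {O F : Type} (μ : O ⊕ F → O ⊕ F) (ν : O → O) : (O × Bool) ⊕ F → (O × Bool) ⊕ F
  | .inl (o, true) => .inl (ν o, true)
  | .inl (o, false) => Sum.map (fun o => (o, false)) id (μ (.inl o))
  | .inr f => Sum.map (fun o => (o, false)) id (μ (.inr f))

theorem ext1_inv {O F : Type} {μ : O ⊕ F → O ⊕ F} (h : Inv μ) : Inv (ext1 μ) := by
  have e : ∀ y : O ⊕ F, Sum.map Prod.fst id (Sum.map (fun o => (o, ())) id y) = y := by
    rintro (_ | _) <;> rfl
  constructor
  · intro x
    simp only [ext1, e, h.1]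
    rcases x with _ | _ <;> rfl
  · intro x hx
    have := congrArg (Sum.map Prod.fst id) hx
    simp only [ext1, e] at this
    exact h.2 _ this

theorem ext2_inv {O F : Type} {μ : O ⊕ F → O ⊕ F} {ν : O → O} (h : Inv μ) (h' : Inv ν) :
    Inv (ext2 μ ν) := by
  have e : ∀ y : O ⊕ F, ext2 μ ν (Sum.map (fun o => (o, false)) id y)
      = Sum.map (fun o => (o, false)) id (μ y) := by
    rintro (_ | _) <;> rfl
  have e' : ∀ y : O ⊕ F, Sum.map Prod.fst id (Sum.map (fun o => (o, false)) id y) = y := by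
    rintro (_ | _) <;> rfl
  constructor
  · rintro (⟨o, _ | _⟩ | f)
    · rw [ext2, e, h.1]; rfl
    · simp [ext2, h'.1]
    · rw [ext2, e, h.1]; rfl
  · rintro (⟨o, _ | _⟩ | f) hx
    · have := congrArg (Sum.map Prod.fst id) hx
      rw [ext2, e'] at this
      exact h.2 _ this
    · simp [ext2, h'.2] at hx
    · have := congrArg (Sum.map Prod.fst id) hx
      rw [ext2, e'] at this
      exact h.2 _ this

theorem RzZ.good {ι : Type} [Fintype ι] {n : ℤ} {G : ι → ι → ℤ} (h : RzZ ι n G) {k q b : ℕ}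
    (hι : Fintype.card ι = 2 * k) (hn : n + q = 2 * k * q + 2 * b)
    (hG : ∀ i j, i ≠ j → G i j ≤ -(q : ℤ)) : GoodK k q b := by
  obtain ⟨n, rfl, h⟩ := h
  exact Good.toK ⟨G, h, hG⟩ hι (by exact_mod_cast hn)

theorem good_del {k q b : ℕ} (h : GoodK (k + 1) q b) : GoodK k q (q + b) := by
  obtain ⟨n, hn, G, h1, h2⟩ := h
  have hle : 2 * k ≤ 2 * (k + 1) := by omega
  exact ⟨n, by rw [hn]; ring, _, h1.comp (Fin.castLE hle) (Fin.castLE_injective hle),
    fun i j hij => h2 _ _ ((Fin.castLE_injective hle).ne hij)⟩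

theorem seed_two {ι : Type} (π : ι → Bool) :
    RzZ ι 2 (fun i j => if π i = π j then 2 else -2) := by
  have h1 := Rz.single (fun i => if π i then (1 : ℤ) else -1) (fun i => by cases π i <;> simp)
  refine (toZ (h1.add h1)).congr rfl (fun i j _ => ?_)
  cases π i <;> cases π j <;> simp

theorem seed_three {ι : Type} (π : ι → Bool × Bool) :
    RzZ ι 3 (fun i j => if π i = π j then 3 else -1) := by
  have h := fun c : ι → Bool =>
    Rz.single (fun i => if c i then (1 : ℤ) else -1) (fun i => by cases c i <;> simp)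
  refine (toZ (((h fun i => (π i).1).add (h fun i => (π i).2)).add
    (h fun i => xor (π i).1 (π i).2))).congr rfl (fun i j _ => ?_)
  rcases π i with ⟨_ | _, _ | _⟩ <;> rcases π j with ⟨_ | _, _ | _⟩ <;> simp

/-- the three translations of the Klein group -/
def s1 (o : Bool × Bool) : Bool × Bool := (!o.1, o.2)
/-- the three translations of the Klein group -/
def s2 (o : Bool × Bool) : Bool × Bool := (o.1, !o.2)
/-- the three translations of the Klein group -/
def s3 (o : Bool × Bool) : Bool × Bool := (!o.1, !o.2)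

theorem s1_inv : Inv s1 := ⟨by decide, by decide⟩
theorem s2_inv : Inv s2 := ⟨by decide, by decide⟩
theorem s3_inv : Inv s3 := ⟨by decide, by decide⟩

/-- the two fixed points are matched into layer `l`, the other layer is matched inside -/
def mu4 (l e : Bool) : (Bool × Bool) ⊕ Bool → (Bool × Bool) ⊕ Bool
  | .inl o => if o.2 = l then .inr (xor o.1 e) else .inl (s1 o)
  | .inr b => .inl (xor b e, l)

theorem mu4_inv (l e : Bool) : Inv (mu4 l e) := by
  revert l e; unfold Inv; decide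

section
variable {m T : ℕ} (hm : 1 ≤ m) (H : ∀ t, T ≤ t → PH (Fin (48 * m ^ 2 + 26)) (4 * t))
  {k : ℕ} (hk : k ≤ 4 ^ m) (hk2 : 2 ≤ k)
include hm H hk hk2

theorem vatom {O F : Type} [Fintype O] [DecidableEq O] [Fintype F] [DecidableEq F] {g : ℕ}
    [NeZero g] (hι : Fintype.card ((O × ZMod g) ⊕ F) = 2 * k) (hg : g ≤ k)
    (hO : Fintype.card O ≤ 4) (hF : Fintype.card F ≤ 2) (τ : O → O) (hτ : ∀ o, τ (τ o) = o)
    (μ : O ⊕ F → O ⊕ F) (hμ : Inv μ) (ν : O → O) (hν : Inv ν) (φ : F → F) (hφ : Inv φ)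
    (x y : ℕ) (hx : T ≤ x) (hy : 10 * T + 2 * x + 4 ≤ y) :
    RzZ ((O × ZMod g) ⊕ F) (4 * (x * g + y * (2 * k - 1)))
      (fun i j => -(4 * y : ℤ) + 4 * x * gam0 τ μ i j) := by
  have hg0 : g ≠ 0 := NeZero.ne g
  have hc : ∀ X : Type, ∀ _ : Fintype X, Fintype.card X ≤ 2 →
      PH ((O × Fin (12 * m ^ 2 + 4)) ⊕ ((O × X) ⊕ F)) (4 * x) := by
    intro X _ hX
    refine (H x hx).of_card ?_
    simp only [Fintype.card_sum, Fintype.card_prod, Fintype.card_fin]
    nlinarith [Nat.mul_le_mul hO hX, Nat.mul_le_mul_right (12 * m ^ 2 + 4) hO]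
  rcases Nat.even_or_odd' g with ⟨w, hw | hw⟩
  · obtain ⟨w, rfl⟩ : ∃ w', w = w' + 1 := ⟨w - 1, by omega⟩
    subst hw
    have h := atom (st_even hm (w := w) (by omega)) τ hτ (ext2 μ ν) (ext2_inv hμ hν) (by
      rintro o (_ | _) o' a' hh
      · rcases h' : μ (.inl o) with c | c <;> simp [ext2, h'] at hh
        exact hh.2.symm ▸ rfl
      · simp [ext2] at hh
        exact hh.2.symm) (hc Bool inferInstance (by simp))
    have a1 := adj hm H hι hk hk2 (NN_inv hτ (half_add w) (Or.inr (half_ne w)) hφ) x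
      (5 * T + x + 2) (by simp)
    have a2 := adj hm H hι hk hk2 (NN_inv (h := 0) hν.1 (add_zero _) (Or.inl hν.2) hφ) (-x)
      (y - (5 * T + x + 2)) (by simp; omega)
    have ey : ((y - (5 * T + x + 2) : ℕ) : ℤ) = y - (5 * T + x + 2) := by omega
    refine (((toZ h).add a1).add a2).congr (by rw [ZMod.card, ey]; push_cast; ring) ?_
    rintro (⟨o, u⟩ | f) (⟨o', u'⟩ | f') _ <;> rw [ey]
    · have e1 : (ext2 μ ν (.inl (o, false)) = .inl (o', false)) ↔ μ (.inl o) = .inl o' := by
        rcases h' : μ (.inl o) with c | c <;> simp [ext2, h']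
      have e2 : (u' - u = 0) ↔ u = u' := by rw [sub_eq_zero, eq_comm]
      simp only [gam, gam0, Fintype.sum_bool, e1, e2]
      simp only [NN, ext2, Sum.map_inl, Sum.inl.injEq, Prod.mk.injEq, and_true, add_zero,
        sub_eq_iff_eq_add', eq_comm (a := u'), eq_comm (a := o'), ite_and]
      push_cast
      split_ifs <;> ring
    · have e1 : (ext2 μ ν (.inl (o, false)) = .inr f') ↔ μ (.inl o) = .inr f' := by
        rcases h' : μ (.inl o) with c | c <;> simp [ext2, h']
      simp only [gam, gam0, Fintype.sum_bool, e1]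
      simp only [NN, ext2, Sum.map_inl, reduceCtorEq, if_false]
      push_cast; ring
    · have e1 : (ext2 μ ν (.inl (o', false)) = .inr f) ↔ μ (.inl o') = .inr f := by
        rcases h' : μ (.inl o') with c | c <;> simp [ext2, h']
      simp only [gam, gam0, Fintype.sum_bool, e1]
      simp only [NN, ext2, Sum.map_inr, reduceCtorEq, if_false]
      push_cast; ring
    · have e1 : (ext2 μ ν (.inr f) = .inr f') ↔ μ (.inr f) = .inr f' := by
        rcases h' : μ (.inr f) with c | c <;> simp [ext2, h']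
      simp only [gam, gam0, e1]
      simp only [NN, Sum.map_inr, Sum.inr.injEq]
      push_cast
      split_ifs <;> ring
  · subst hw
    have h := atom (st_odd (m := m) (L := w) (by omega)) τ hτ (ext1 μ) (ext1_inv hμ)
      (fun _ _ _ _ _ => rfl) (hc Unit inferInstance (by simp))
    refine ((toZ h).add (rz_K H hι hk (by omega) y (by omega))).congr
      (by rw [ZMod.card]; push_cast; ring) ?_
    rintro (⟨o, u⟩ | f) (⟨o', u'⟩ | f') _
    · have e1 : (ext1 μ (.inl (o, ())) = .inl (o', ())) ↔ μ (.inl o) = .inl o' := by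
        rcases h' : μ (.inl o) with c | c <;> simp [ext1, h']
      have e2 : (u' - u = 0) ↔ u = u' := by rw [sub_eq_zero, eq_comm]
      simp only [gam, gam0, Finset.univ_unique, Finset.sum_singleton, e1, e2]
      push_cast; ring
    · have e1 : (ext1 μ (.inl (o, ())) = .inr f') ↔ μ (.inl o) = .inr f' := by
        rcases h' : μ (.inl o) with c | c <;> simp [ext1, h']
      simp only [gam, gam0, Finset.univ_unique, Finset.sum_singleton, e1]
      push_cast; ring
    · have e1 : (ext1 μ (.inl (o', ())) = .inr f) ↔ μ (.inl o') = .inr f := by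
        rcases h' : μ (.inl o') with c | c <;> simp [ext1, h']
      simp only [gam, gam0, Finset.univ_unique, Finset.sum_singleton, e1]
      push_cast; ring
    · have e1 : (ext1 μ (.inr f) = .inr f') ↔ μ (.inr f) = .inr f' := by
        rcases h' : μ (.inr f) with c | c <;> simp [ext1, h']
      simp only [gam, gam0, e1]
      push_cast; ring

theorem good_small (y z : ℕ) (hy : 5 * T + z + 2 ≤ y) : GoodK k (4 * y) (2 * z) := by
  have hι : Fintype.card (Fin k × Bool) = 2 * k := by simp [mul_comm]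
  have hM : Inv (fun p : Fin k × Bool => (p.1, !p.2)) :=
    ⟨fun p => by simp, fun p hp => by simpa using congrArg Prod.snd hp⟩
  refine (adj hm H hι hk hk2 hM z y (by simp; omega)).good hι (by push_cast; ring)
    (fun i j _ => ?_)
  split_ifs <;> push_cast <;> omega

theorem good_seed2 : GoodK k (124 * T + 54) 0 := by
  have : NeZero k := ⟨by omega⟩
  have hι : Fintype.card ((Bool × ZMod k) ⊕ Empty) = 2 * k := by simp [ZMod.card]
  have hμ := inv_not.sum inv_empty
  have h1 := vatom hm H hk hk2 hι le_rfl (by simp) (by simp) id (fun _ => rfl) _ hμ _ inv_not _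
    inv_empty (T + 1) (12 * T + 6) (by omega) (by omega)
  have h2 := vatom hm H hk hk2 hι le_rfl (by simp) (by simp) _ inv_not.1 _ hμ _ inv_not _
    inv_empty T (12 * T + 4) (by omega) (by omega)
  have h3 := adj hm H hι hk hk2 (NN_inv (h := 0) inv_not.1 (add_zero _) (Or.inl inv_not.2)
    inv_empty) (-(T + 1 : ℕ)) (6 * T + 3) (by rw [abs_neg, Nat.abs_cast]; push_cast; omega)
  have h0 := seed_two (ι := (Bool × ZMod k) ⊕ Empty) (Sum.elim Prod.fst Empty.elim)
  refine (((h0.add h1).add h2).add h3).good hι (by push_cast; ring) ?_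
  rintro (⟨o, x⟩ | ⟨⟨⟩⟩) (⟨o', y⟩ | ⟨⟨⟩⟩) hij
  by_cases hx : x = y
  · subst hx
    cases o <;> cases o' <;> first | exact absurd rfl hij | (simp [gam0, NN]; omega)
  · cases o <;> cases o' <;> simp [gam0, NN, hx] <;> omega

theorem good_seed1 : GoodK k (268 * T + 97) (k % 2) := by
  rcases Nat.even_or_odd' k with ⟨g, hg | hg⟩
  · have : NeZero g := ⟨by omega⟩
    have hι : Fintype.card (((Bool × Bool) × ZMod g) ⊕ Empty) = 2 * k := by
      simp [ZMod.card]; omega
    have h1 := vatom hm H hk hk2 hι (by omega) (by simp) (by simp) id (fun _ => rfl) _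
      (s1_inv.sum inv_empty) _ s1_inv _ inv_empty (T + 1) (12 * T + 6) (by omega) (by omega)
    have h2 := vatom hm H hk hk2 hι (by omega) (by simp) (by simp) _ s1_inv.1 _
      (s1_inv.sum inv_empty) _ s1_inv _ inv_empty T (12 * T + 4) (by omega) (by omega)
    have h3 := vatom hm H hk hk2 hι (by omega) (by simp) (by simp) _ s2_inv.1 _
      (s2_inv.sum inv_empty) _ s1_inv _ inv_empty T (12 * T + 4) (by omega) (by omega)
    have h4 := vatom hm H hk hk2 hι (by omega) (by simp) (by simp) _ s3_inv.1 _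
      (s3_inv.sum inv_empty) _ s1_inv _ inv_empty T (12 * T + 4) (by omega) (by omega)
    have h5 := adj hm H hι hk hk2 (NN_inv (h := 0) s1_inv.1 (add_zero _) (Or.inl s1_inv.2)
      inv_empty) (-(T + 1 : ℕ)) (18 * T + 6) (by rw [abs_neg, Nat.abs_cast]; push_cast; omega)
    have h0 := seed_three (ι := ((Bool × Bool) × ZMod g) ⊕ Empty) (Sum.elim Prod.fst Empty.elim)
    rw [show k % 2 = 0 by omega]
    refine (((((h0.add h1).add h2).add h3).add h4).add h5).good hι
      (by rw [hg]; push_cast; ring) ?_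
    rintro (⟨⟨a, b⟩, x⟩ | ⟨⟨⟩⟩) (⟨⟨a', b'⟩, y⟩ | ⟨⟨⟩⟩) hij
    by_cases hx : x = y
    · subst hx
      cases a <;> cases b <;> cases a' <;> cases b' <;>
        first | exact absurd rfl hij | (simp [gam0, NN, s1, s2, s3]; omega)
    · cases a <;> cases b <;> cases a' <;> cases b' <;> simp [gam0, NN, hx, s1, s2, s3] <;> omega
  · have : NeZero g := ⟨by omega⟩
    have hι : Fintype.card (((Bool × Bool) × ZMod g) ⊕ Bool) = 2 * k := by
      simp [ZMod.card]; omega
    have h1 := vatom hm H hk hk2 hι (by omega) (by simp) (by simp) id (fun _ => rfl) _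
      (mu4_inv false false) _ s1_inv _ inv_not (T + 1) (12 * T + 6) (by omega) (by omega)
    have h2 := vatom hm H hk hk2 hι (by omega) (by simp) (by simp) _ s1_inv.1 _
      (mu4_inv false true) _ s1_inv _ inv_not T (12 * T + 4) (by omega) (by omega)
    have h3 := vatom hm H hk hk2 hι (by omega) (by simp) (by simp) _ s2_inv.1 _
      (mu4_inv true false) _ s1_inv _ inv_not T (12 * T + 4) (by omega) (by omega)
    have h4 := vatom hm H hk hk2 hι (by omega) (by simp) (by simp) _ s3_inv.1 _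
      (mu4_inv true true) _ s1_inv _ inv_not T (12 * T + 4) (by omega) (by omega)
    have h5 := adj hm H hι hk hk2 (NN_inv (h := 0) s1_inv.1 (add_zero _) (Or.inl s1_inv.2)
      inv_not) (-(T : ℕ)) (6 * T + 2) (by rw [abs_neg, Nat.abs_cast]; push_cast; omega)
    have h6 := adj hm H hι hk hk2 (NN_inv (h := 0) s2_inv.1 (add_zero _) (Or.inl s2_inv.2)
      inv_not) (T : ℕ) (6 * T + 2) (by rw [Nat.abs_cast]; push_cast; omega)
    have h7 := adj hm H hι hk hk2 (NN_inv (h := 0) s3_inv.1 (add_zero _) (Or.inl s3_inv.2)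
      inv_not) (T : ℕ) (6 * T + 2) (by rw [Nat.abs_cast]; push_cast; omega)
    have h0 := seed_three (ι := ((Bool × Bool) × ZMod g) ⊕ Bool)
      (Sum.elim Prod.fst (fun b => (b, false)))
    rw [show k % 2 = 1 by omega]
    refine (((((((h0.add h1).add h2).add h3).add h4).add h5).add h6).add h7).good hι
      (by rw [hg]; push_cast; ring) ?_
    rintro (⟨⟨a, b⟩, x⟩ | f) (⟨⟨a', b'⟩, y⟩ | f') hij
    · by_cases hx : x = y
      · subst hx
        cases a <;> cases b <;> cases a' <;> cases b' <;>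
          first | exact absurd rfl hij | (simp [gam0, NN, s1, s2, s3, mu4]; omega)
      · cases a <;> cases b <;> cases a' <;> cases b' <;>
          simp [gam0, NN, hx, s1, s2, s3] <;> omega
    · cases a <;> cases b <;> cases f' <;> simp [gam0, NN, s1, mu4] <;> omega
    · cases a' <;> cases b' <;> cases f <;> simp [gam0, NN, s1, mu4] <;> omega
    · cases f <;> cases f' <;> first | exact absurd rfl hij | (simp [gam0, NN, mu4]; omega)

end

section
variable {m T : ℕ} (hm : 1 ≤ m) (H : ∀ t, T ≤ t → PH (Fin (48 * m ^ 2 + 26)) (4 * t))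
  {k : ℕ} (hk : k + 1 ≤ 4 ^ m) (hk2 : 2 ≤ k)
include hm H hk hk2

theorem good_four (y z : ℕ) (hy : 205 * T + 102 ≤ y) (hz : z ≤ 2 * y + 200 * T + 100) :
    GoodK k (4 * y) (2 * z) := by
  have A := good_small hm H (k := k) (by omega) hk2
  have B := fun y z h => good_del (good_small hm H hk (by omega) y z h)
  by_cases h1 : 2 * y ≤ z
  · have := B y (z - 2 * y) (by omega)
    rwa [show 4 * y + 2 * (z - 2 * y) = 2 * z by omega] at this
  · by_cases h2 : z ≤ 30 * T + 13
    · exact A y z (by omega)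
    · obtain ⟨u, hu1, hu2, hu3⟩ : ∃ u, 5 * T + 2 ≤ u ∧ 2 * y ≤ z + 2 * u ∧
          5 * T + (z + 2 * u - 2 * y) + 2 + u ≤ y := by
        by_cases h3 : 2 * y ≤ z + 2 * (5 * T + 2)
        · exact ⟨5 * T + 2, le_rfl, h3, by omega⟩
        · exact ⟨(2 * y - z + 1) / 2, by omega, by omega, by omega⟩
      have := (A u 0 (by omega)).add (B (y - u) (z + 2 * u - 2 * y) (by omega))
      rwa [show 4 * u + 4 * (y - u) = 4 * y by omega,
        show 2 * 0 + (4 * (y - u) + 2 * (z + 2 * u - 2 * y)) = 2 * z by omega] at this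

theorem good_every (q b : ℕ) (hq : 1212 * T + 559 ≤ q) (hbq : b < q)
    (hb : (q * k + b) % 2 = 0) : GoodK k q b := by
  have h1 := good_seed1 hm H (k := k) (by omega) hk2
  have h2 := good_seed2 hm H (k := k) (by omega) hk2
  have h3 := good_four hm H hk hk2
  have hpar : ∀ r, q % 2 = r → (r * (k % 2) + b) % 2 = 0 := by
    rintro r rfl
    rw [Nat.add_mod, ← Nat.mul_mod, ← Nat.add_mod]; exact hb
  have hq4 : q % 4 = 0 ∨ q % 4 = 1 ∨ q % 4 = 2 ∨ q % 4 = 3 := by omega
  rcases hq4 with h | h | h | h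
  · have := hpar 0 (by omega)
    have := h3 (q / 4) (b / 2) (by omega) (by omega)
    rwa [show 4 * (q / 4) = q by omega, show 2 * (b / 2) = b by omega] at this
  · have := hpar 1 (by omega)
    have := h1.add (h3 ((q - (268 * T + 97)) / 4) (b / 2) (by omega) (by omega))
    rwa [show 268 * T + 97 + 4 * ((q - (268 * T + 97)) / 4) = q by omega,
      show k % 2 + 2 * (b / 2) = b by omega] at this
  · have := hpar 0 (by omega)
    have := h2.add (h3 ((q - (124 * T + 54)) / 4) (b / 2) (by omega) (by omega))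
    rwa [show 124 * T + 54 + 4 * ((q - (124 * T + 54)) / 4) = q by omega,
      show 0 + 2 * (b / 2) = b by omega] at this
  · have := hpar 1 (by omega)
    have := (h1.add h2).add (h3 ((q - (392 * T + 151)) / 4) (b / 2) (by omega) (by omega))
    rwa [show 268 * T + 97 + (124 * T + 54) + 4 * ((q - (392 * T + 151)) / 4) = q by omega,
      show k % 2 + 0 + 2 * (b / 2) = b by omega] at this

end

theorem numeric (l : ℕ) (hl1 : 1 ≤ l) : ∃ s, 48 * (l / 2 + 1) ^ 2 + 26 ≤ 2 ^ s ∧
    1212 * (2 * s * 2 ^ s) + 559 ≤ 160000 * (l + 2) ^ 2 * (Nat.log 2 (l + 2) + 3) := by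
  obtain ⟨m, hm⟩ : ∃ m, m = l / 2 + 1 := ⟨_, rfl⟩
  obtain ⟨L, hL⟩ : ∃ L, L = l + 2 := ⟨_, rfl⟩
  rw [← hm, ← hL]
  obtain ⟨R, hR⟩ : ∃ R, R = 48 * m ^ 2 + 26 := ⟨_, rfl⟩
  rw [← hR]
  have hRL : R ≤ 16 * L ^ 2 := by
    have h2 : 2 * m ≤ L := by omega
    have h3 : 3 ≤ L := by omega
    nlinarith [Nat.mul_le_mul h2 h2, Nat.mul_le_mul h3 h3]
  have h1 : R < 2 ^ (Nat.log 2 R + 1) := Nat.lt_pow_succ_log_self (by norm_num) R
  have h2 : 2 ^ (Nat.log 2 R + 1) ≤ 32 * L ^ 2 := by
    have := Nat.pow_log_le_self 2 (x := R) (by omega)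
    rw [pow_succ]; omega
  have e1 : L < 2 ^ (Nat.log 2 L + 1) := Nat.lt_pow_succ_log_self (by norm_num) L
  refine ⟨Nat.log 2 R + 1, h1.le, ?_⟩
  generalize Nat.log 2 R + 1 = s at h1 h2 ⊢
  generalize Nat.log 2 L = u at e1 ⊢
  have h3 : s ≤ 2 * u + 6 := by
    have e2 : 2 ^ s < 2 ^ (2 * u + 7) := by
      have : 2 ^ (2 * u + 7) = 32 * (2 ^ (u + 1) * 2 ^ (u + 1)) := by ring
      rw [this]
      have := Nat.mul_self_lt_mul_self e1
      rw [sq] at h2
      omega
    have := (Nat.pow_lt_pow_iff_right (by norm_num : 1 < 2)).1 e2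
    omega
  have h4 : s * 2 ^ s ≤ (2 * u + 6) * (32 * L ^ 2) := Nat.mul_le_mul h3 h2
  have h5 : 1 ≤ L ^ 2 * (u + 3) := Nat.succ_le_of_lt (by
    have : 0 < L := by omega
    positivity)
  have h6 : (2 * u + 6) * (32 * L ^ 2) = 64 * (L ^ 2 * (u + 3)) := by ring
  rw [mul_assoc 160000, mul_assoc 2]
  omega

/-- all Plotkin parameters of polylogarithmic index are attained -/
theorem good_polylog {k q b : ℕ} (hk : 2 ≤ k)
    (hq : 160000 * (Nat.log 2 k + 2) ^ 2 * (Nat.log 2 (Nat.log 2 k + 2) + 3) ≤ q) (hbq : b < q)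
    (hb : (q * k + b) % 2 = 0) : GoodK k q b := by
  have h1 : k < 2 ^ (Nat.log 2 k + 1) := Nat.lt_pow_succ_log_self (by norm_num) k
  obtain ⟨s, h2, h3⟩ := numeric (Nat.log 2 k) (Nat.log_pos (by norm_num) hk)
  have hkm : k + 1 ≤ 4 ^ (Nat.log 2 k / 2 + 1) := by
    have h2 : 2 ^ (Nat.log 2 k + 1) ≤ 2 ^ (2 * (Nat.log 2 k / 2 + 1)) :=
      Nat.pow_le_pow_right (by norm_num) (by omega)
    rw [pow_mul] at h2
    exact h1.trans_le h2
  exact good_every (by omega) (fun t ht => ph_all s (by rw [Fintype.card_fin]; exact h2) t ht)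
    hkm hk q b (h3.trans hq) hbq hb

end Pool.Agent.Elspas.Poly
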