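import Mathlib

/-! Realizable Gram matrices of sign matrices; partial Hadamard matrices from Golay pairs. -/

set_option autoImplicit false
open Finset

namespace Pool.Agent.Elspas

/-- `n` sign columns on the rows `ι` with off-diagonal inner products `G`. -/
def Rz (ι : Type) (n : ℕ) (G : ι → ι → ℤ) : Prop :=
  ∃ c : Fin n → ι → ℤ, (∀ t i, c t i = 1 ∨ c t i = -1) ∧
    ∀ i j, i ≠ j → ∑ t, c t i * c t j = G i j

variable {ι ι' : Type}

theorem Rz.congr {n n' : ℕ} {G G' : ι → ι → ℤ} (h : Rz ι n G) (hn : n = n')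
    (hG : ∀ i j, i ≠ j → G i j = G' i j) : Rz ι n' G' := by
  subst hn
  obtain ⟨c, h1, h2⟩ := h
  exact ⟨c, h1, fun i j hij => (h2 i j hij).trans (hG i j hij)⟩

theorem Rz.zero : Rz ι 0 (fun _ _ => 0) :=
  ⟨fun t => t.elim0, fun t => t.elim0, fun _ _ _ => by simp⟩

theorem Rz.of_fun {κ : Type} [Fintype κ] (c : κ → ι → ℤ) (h1 : ∀ t i, c t i = 1 ∨ c t i = -1) :
    Rz ι (Fintype.card κ) (fun i j => ∑ t, c t i * c t j) := by
  refine ⟨fun t => c ((Fintype.equivFin κ).symm t), fun t i => h1 _ _, fun i j _ => ?_⟩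
  exact Equiv.sum_comp (Fintype.equivFin κ).symm (fun t => c t i * c t j)

theorem Rz.add {n n' : ℕ} {G G' : ι → ι → ℤ} (h : Rz ι n G) (h' : Rz ι n' G') :
    Rz ι (n + n') (fun i j => G i j + G' i j) := by
  obtain ⟨c, h1, h2⟩ := h
  obtain ⟨c', h1', h2'⟩ := h'
  have := Rz.of_fun (ι := ι) (κ := Fin n ⊕ Fin n') (Sum.elim c c') (by
    rintro (t | t) i
    · exact h1 t i
    · exact h1' t i)
  refine this.congr (by simp) (fun i j hij => ?_)
  simp [Fintype.sum_sum_type, h2 i j hij, h2' i j hij]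

theorem Rz.sum {κ : Type} (s : Finset κ) (n : κ → ℕ) (G : κ → ι → ι → ℤ)
    (h : ∀ k ∈ s, Rz ι (n k) (G k)) : Rz ι (∑ k ∈ s, n k) (fun i j => ∑ k ∈ s, G k i j) := by
  classical
  induction s using Finset.induction_on with
  | empty => simpa using Rz.zero
  | insert a s ha ih =>
    have := (h a (mem_insert_self _ _)).add (ih fun k hk => h k (mem_insert_of_mem hk))
    refine this.congr (by rw [sum_insert ha]) (fun i j _ => by rw [sum_insert ha])

theorem Rz.comp {n : ℕ} {G : ι → ι → ℤ} (h : Rz ι n G) (f : ι' → ι) (hf : Function.Injective f) :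
    Rz ι' n (fun i j => G (f i) (f j)) := by
  obtain ⟨c, h1, h2⟩ := h
  exact ⟨fun t i => c t (f i), fun t i => h1 _ _, fun i j hij => h2 _ _ (hf.ne hij)⟩

theorem Rz.single (c : ι → ℤ) (h : ∀ i, c i = 1 ∨ c i = -1) : Rz ι 1 (fun i j => c i * c j) :=
  ⟨fun _ => c, fun _ i => h i, fun i j _ => by simp⟩

/-- partial Hadamard matrices: pairwise orthogonal sign rows of length `h`. -/
def PH (ι : Type) (h : ℕ) : Prop := Rz ι h (fun _ _ => 0)

theorem PH.zero : PH ι 0 := Rz.zero

theorem PH.add {a b : ℕ} (ha : PH ι a) (hb : PH ι b) : PH ι (a + b) :=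
  (Rz.add ha hb).congr rfl (fun _ _ _ => by simp)

theorem PH.mul {a : ℕ} (ha : PH ι a) (m : ℕ) : PH ι (m * a) := by
  induction m with
  | zero => simpa using PH.zero
  | succ m ih => rw [Nat.succ_mul]; exact ih.add ha

theorem PH.of_card [Fintype ι] [Fintype ι'] {a : ℕ} (ha : PH ι a)
    (h : Fintype.card ι' ≤ Fintype.card ι) : PH ι' a := by
  obtain ⟨f⟩ := Function.Embedding.nonempty_of_card_le h
  exact Rz.comp ha f f.injective

/-! ### Golay pairs -/

section Golay
variable {v : ℕ} [NeZero v]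

/-- periodic correlation -/
def cor (a : ZMod v → ℤ) (s : ZMod v) : ℤ := ∑ x, a x * a (x + s)

/-- sign sequence supported on `[0,L)` -/
def Sup (L : ℕ) (a : ZMod v → ℤ) : Prop :=
  ∀ x, (x.val < L → a x = 1 ∨ a x = -1) ∧ (L ≤ x.val → a x = 0)

theorem cor_glue (a b : ZMod v → ℤ) (l s : ZMod v) :
    cor (fun x => a x + b (x - l)) s + cor (fun x => a x - b (x - l)) s
      = 2 * cor a s + 2 * cor b s := by
  have hb : cor b s = ∑ x, b (x - l) * b (x + s - l) := by
    unfold cor
    rw [← Equiv.sum_comp (Equiv.subRight l)]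
    refine Finset.sum_congr rfl fun x _ => ?_
    simp only [Equiv.subRight_apply]
    congr 2; ring
  rw [hb]
  unfold cor
  rw [← Finset.sum_add_distrib, Finset.mul_sum, Finset.mul_sum, ← Finset.sum_add_distrib]
  refine Finset.sum_congr rfl fun x _ => ?_
  ring

theorem Sup.glue {L L' : ℕ} {a b : ZMod v → ℤ} (ha : Sup L a) (hb : Sup L' b) (hL : L + L' ≤ v)
    (hL' : 0 < L') (e : ℤ) (he : e = 1 ∨ e = -1) :
    Sup (L + L') (fun x => a x + e * b (x - (L : ZMod v))) := by
  intro x
  have hx := ZMod.val_lt x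
  have hLv : L < v := by omega
  have hvL : (L : ZMod v).val = L := ZMod.val_cast_of_lt hLv
  by_cases h : x.val < L
  · have h2 : (x - (L : ZMod v)).val = x.val + v - L := by
      have : x - (L : ZMod v) = ((x.val + v - L : ℕ) : ZMod v) := by
        rw [Nat.cast_sub (by omega)]; simp
      rw [this, ZMod.val_cast_of_lt (by omega)]
    have h3 := (hb (x - L)).2 (by omega)
    refine ⟨fun _ => ?_, fun h' => by omega⟩
    simp only [h3, mul_zero, add_zero]
    exact (ha x).1 h
  · have h2 : (x - (L : ZMod v)).val = x.val - L := by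
      rw [ZMod.val_sub (by omega), hvL]
    have h3 := (ha x).2 (by omega)
    constructor
    · intro h'
      have h4 := (hb (x - L)).1 (by omega)
      simp only [h3, zero_add]
      rcases he with rfl | rfl <;> rcases h4 with h4 | h4 <;> simp [h4]
    · intro h'
      have h4 := (hb (x - L)).2 (by omega)
      simp [h3, h4]

theorem golay (r : ℕ) (hr : 2 ^ r ≤ v) :
    ∃ a b : ZMod v → ℤ, Sup (2 ^ r) a ∧ Sup (2 ^ r) b ∧ ∀ s, s ≠ 0 → cor a s + cor b s = 0 := by
  induction r with
  | zero =>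
    have hs : Sup (v := v) (2 ^ 0) (fun x => if x = 0 then 1 else 0) := by
      intro x
      constructor
      · intro h
        have : x = 0 := by rwa [pow_zero, Nat.lt_one_iff, ZMod.val_eq_zero] at h
        simp [this]
      · intro h
        have : x ≠ 0 := by rintro rfl; simp at h
        simp [this]
    refine ⟨_, _, hs, hs, fun s hs0 => ?_⟩
    have : cor (v := v) (fun x => if x = 0 then 1 else 0) s = 0 := by
      unfold cor
      refine Finset.sum_eq_zero fun x _ => ?_
      by_cases hx : x = 0 <;> simp [hx, hs0]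
    rw [this]; rfl
  | succ r ih =>
    obtain ⟨a, b, ha, hb, hab⟩ := ih (le_trans (by rw [pow_succ]; omega) hr)
    have h2 : 2 ^ (r + 1) = 2 ^ r + 2 ^ r := by ring
    refine ⟨fun x => a x + b (x - ((2 ^ r : ℕ) : ZMod v)),
      fun x => a x - b (x - ((2 ^ r : ℕ) : ZMod v)), ?_, ?_, fun s hs => ?_⟩
    · have := ha.glue hb (by omega) (by positivity) 1 (Or.inl rfl)
      rw [h2]; simpa using this
    · have := ha.glue hb (by omega) (by positivity) (-1) (Or.inr rfl)
      rw [h2]; simpa [sub_eq_add_neg] using this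
    · rw [cor_glue]; linarith [hab s hs]

theorem Sup.rz {a : ZMod v → ℤ} (ha : Sup v a) : Rz (ZMod v) v (fun i j => cor a (j - i)) := by
  have := Rz.of_fun (ι := ZMod v) (κ := ZMod v) (fun x i => a (x + i))
    (fun x i => (ha _).1 (ZMod.val_lt _))
  refine this.congr (ZMod.card v) (fun i j _ => ?_)
  unfold cor
  rw [← Equiv.sum_comp (Equiv.addRight i) (fun x => a x * a (x + (j - i)))]
  refine Finset.sum_congr rfl fun x _ => ?_
  simp only [Equiv.coe_addRight]
  congr 2; ring

end Golay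

theorem ph_pow (r : ℕ) : PH (ZMod (2 ^ r)) (2 * 2 ^ r) := by
  obtain ⟨a, b, ha, hb, hab⟩ := golay (v := 2 ^ r) r le_rfl
  exact (ha.rz.add hb.rz).congr (by ring) (fun i j hij => hab _ (sub_ne_zero.2 hij.symm))

theorem ph_pow_add (r s : ℕ) : PH (ZMod (2 ^ r + 2 ^ s)) (4 * (2 ^ r + 2 ^ s)) := by
  have : NeZero (2 ^ r + 2 ^ s) := ⟨by positivity⟩
  obtain ⟨a, b, ha, hb, hab⟩ := golay (v := 2 ^ r + 2 ^ s) r (Nat.le_add_right _ _)
  obtain ⟨c, d, hc, hd, hcd⟩ := golay (v := 2 ^ r + 2 ^ s) s (Nat.le_add_left _ _)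
  have h1 := (ha.glue hc le_rfl (by positivity) 1 (Or.inl rfl)).rz
  have h2 := (ha.glue hc le_rfl (by positivity) (-1) (Or.inr rfl)).rz
  have h3 := (hb.glue hd le_rfl (by positivity) 1 (Or.inl rfl)).rz
  have h4 := (hb.glue hd le_rfl (by positivity) (-1) (Or.inr rfl)).rz
  refine ((h1.add h2).add (h3.add h4)).congr (by ring) (fun i j hij => ?_)
  have hs : j - i ≠ 0 := sub_ne_zero.2 hij.symm
  have e1 := cor_glue a c ((2 ^ r : ℕ) : ZMod (2 ^ r + 2 ^ s)) (j - i)
  have e2 := cor_glue b d ((2 ^ r : ℕ) : ZMod (2 ^ r + 2 ^ s)) (j - i)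
  simp only [one_mul, neg_mul, ← sub_eq_add_neg]
  rw [e1, e2]
  linarith [hab _ hs, hcd _ hs]

/-- All large multiples of `4` are lengths of partial Hadamard matrices. -/
theorem ph_all [Fintype ι] (s : ℕ) (hs : Fintype.card ι ≤ 2 ^ s) (t : ℕ)
    (ht : 2 * s * 2 ^ s ≤ t) : PH ι (4 * t) := by
  have key : ∀ r j : ℕ, j + r = s → ∀ t, 2 * r * 2 ^ s ≤ t → 2 ^ j ∣ t → PH ι (4 * t) := by
    intro r
    induction r with
    | zero =>
      intro j hj t _ hd
      obtain ⟨m, rfl⟩ := hd
      have hjs : j = s := by omega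
      subst hjs
      have := ((ph_pow j).of_card (ι' := ι) (by simpa using hs)).mul (2 * m)
      have e : 4 * (2 ^ j * m) = 2 * m * (2 * 2 ^ j) := by ring
      rw [e]; exact this
    | succ r ih =>
      intro j hj t ht hd
      by_cases h : 2 ^ (j + 1) ∣ t
      · exact ih (j + 1) (by omega) t (le_trans (by nlinarith [Nat.zero_le (2 ^ s)]) ht) h
      · obtain ⟨m, rfl⟩ := hd
        have hm : m % 2 = 1 := by
          by_contra hm
          exact h ⟨m / 2, by rw [pow_succ, mul_assoc]; congr 1; omega⟩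
        have hjs : 2 ^ j ≤ 2 ^ s := Nat.pow_le_pow_right (by norm_num) (by omega)
        have hle : 2 ^ s + 2 ^ j ≤ 2 ^ j * m := by nlinarith [Nat.zero_le (2 ^ s), Nat.zero_le r]
        obtain ⟨u, hu⟩ := Nat.exists_eq_add_of_le hle
        have : NeZero (2 ^ s + 2 ^ j) := ⟨by positivity⟩
        have h1 : PH ι (4 * (2 ^ s + 2 ^ j)) :=
          (ph_pow_add s j).of_card (by rw [ZMod.card]; omega)
        have h2 : PH ι (4 * u) := by
          refine ih (j + 1) (by omega) u (by nlinarith [Nat.zero_le (2 ^ s), Nat.zero_le r]) ?_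
          have e : 2 ^ s = 2 ^ (j + 1) * 2 ^ r := by rw [← pow_add]; congr 1; omega
          have h3 : 2 ^ (j + 1) ∣ 2 ^ s + u := by
            refine ⟨m / 2, ?_⟩
            have : m = 2 * (m / 2) + 1 := by omega
            have e2 : 2 ^ j * m = 2 ^ (j + 1) * (m / 2) + 2 ^ j := by
              conv_lhs => rw [this]
              ring
            omega
          exact (Nat.dvd_add_right ⟨_, e⟩).1 h3
        rw [hu, mul_add]
        exact h1.add h2
  exact key s 0 (by omega) t ht (by simp)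

end Pool.Agent.Elspas
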