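import Pool.Agent.P.MP_459691_co.Match

/-! Codes meeting the Plotkin bound. -/

set_option autoImplicit false
open Finset

namespace Pool.Agent.Elspas

variable {ι ι' : Type}

/-- `n` sign columns with all inner products of distinct rows at most `-q` -/
def Good (ι : Type) (n q : ℕ) : Prop := ∃ G, Rz ι n G ∧ ∀ i j, i ≠ j → G i j ≤ -(q : ℤ)

/-- `2k` rows, length `(2k-1)q+2b`, inner products at most `-q` -/
def GoodK (k q b : ℕ) : Prop := ∃ n, n + q = 2 * k * q + 2 * b ∧ Good (Fin (2 * k)) n q

theorem Good.toK [Fintype ι] {n q k b : ℕ} (h : Good ι n q) (hk : Fintype.card ι = 2 * k)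
    (hn : n + q = 2 * k * q + 2 * b) : GoodK k q b := by
  obtain ⟨G, h1, h2⟩ := h
  let e := (Fintype.equivFinOfCardEq hk).symm
  exact ⟨n, hn, _, h1.comp e e.injective, fun i j hij => h2 _ _ (e.injective.ne hij)⟩

theorem GoodK.add {k q b q' b' : ℕ} (h : GoodK k q b) (h' : GoodK k q' b') :
    GoodK k (q + q') (b + b') := by
  obtain ⟨n, hn, G, h1, h2⟩ := h
  obtain ⟨n', hn', G', h1', h2'⟩ := h'
  refine ⟨n + n', by nlinarith, _, h1.add h1', fun i j hij => ?_⟩
  have := h2 i j hij
  have := h2' i j hij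
  push_cast; linarith

theorem sum_ite3 {A : Type} [Fintype A] [DecidableEq A] (a b c : A) (hab : a ≠ b) (hac : a ≠ c)
    (hbc : b ≠ c) (x y z w : ℕ) :
    (∑ s, if s = a then x else if s = b then y else if s = c then z else w) + 3 * w
      = Fintype.card A * w + x + y + z := by
  have : ∀ s, (if s = a then x else if s = b then y else if s = c then z else w)
      + ((if s = a then w else 0) + (if s = b then w else 0) + (if s = c then w else 0))
      = w + (if s = a then x else 0) + (if s = b then y else 0) + (if s = c then z else 0) := by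
    intro s
    by_cases h1 : s = a
    · subst h1; simp [hab, hac]; ring
    · by_cases h2 : s = b
      · subst h2; simp [h1, hbc]; ring
      · by_cases h3 : s = c
        · subst h3; simp [h1, h2]; ring
        · simp [h1, h2, h3]
  have h := Finset.sum_congr rfl (fun s (_ : s ∈ (univ : Finset A)) => this s)
  simp only [Finset.sum_add_distrib, Finset.sum_ite_eq', mem_univ, if_true, Finset.sum_const,
    card_univ, smul_eq_mul] at h
  omega

theorem sum_ite2 {A : Type} [Fintype A] [DecidableEq A] (a b : A) (hab : a ≠ b) (x y w : ℕ) :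
    (∑ s, if s = a then x else if s = b then y else w) + 2 * w
      = Fintype.card A * w + x + y := by
  have : ∀ s, (if s = a then x else if s = b then y else w)
      + ((if s = a then w else 0) + (if s = b then w else 0))
      = w + (if s = a then x else 0) + (if s = b then y else 0) := by
    intro s
    by_cases h1 : s = a
    · subst h1; simp [hab]; ring
    · by_cases h2 : s = b
      · subst h2; simp [h1]; ring
      · simp [h1, h2]
  have h := Finset.sum_congr rfl (fun s (_ : s ∈ (univ : Finset A)) => this s)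
  simp only [Finset.sum_add_distrib, Finset.sum_ite_eq', mem_univ, if_true, Finset.sum_const,
    card_univ, smul_eq_mul] at h
  omega

theorem zmod_ne {k : ℕ} {a b : ℕ} (ha : a < k) (hb : b < k) (hab : a ≠ b) :
    (a : ZMod k) ≠ (b : ZMod k) := by
  intro h
  have := congrArg ZMod.val h
  rw [ZMod.val_cast_of_lt ha, ZMod.val_cast_of_lt hb] at this
  exact hab this

section
variable {k T : ℕ} (H : ∀ t, T ≤ t → PH (Fin (2 * k)) (4 * t))
include H

theorem good_base (hk : 2 ≤ k) (t b : ℕ) (ht : T ≤ t) : GoodK k (4 * t) (2 * b) := by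
  have : NeZero k := ⟨by omega⟩
  have hc : Fintype.card (ZMod k × Bool) = 2 * k := by simp [ZMod.card, mul_comm]
  have H' : ∀ t, T ≤ t → PH (ZMod k × Bool) (4 * t) := fun t ht =>
    (H t ht).of_card (by simp [hc])
  have h01 : (0 : ZMod k) ≠ 1 := by simpa using zmod_ne (k := k) (a := 0) (b := 1) (by omega) (by omega) (by omega)
  have h := two_layer (1 : ZMod k) (4 * t) 0
    (fun s => if s = 0 then 0 else if s = 1 then 4 * (t + b) else 4 * t) (H' t ht) PH.zero (by
      intro s; split_ifs
      · exact PH.zero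
      · exact H' _ (by omega)
      · exact H' _ ht)
  refine Good.toK ⟨_, h, fun i j _ => ?_⟩ hc ?_
  · split_ifs <;> push_cast <;> omega
  · have := sum_ite2 (0 : ZMod k) 1 h01 0 (4 * (t + b)) (4 * t)
    rw [ZMod.card] at this ⊢
    nlinarith

theorem good_two (hk : 2 ≤ k) (t : ℕ) (ht : T ≤ t) : GoodK k (8 * t + 10) 0 := by
  have : NeZero k := ⟨by omega⟩
  have hc : Fintype.card (ZMod k × Bool) = 2 * k := by simp [ZMod.card, mul_comm]
  have H' : ∀ t, T ≤ t → PH (ZMod k × Bool) (4 * t) := fun t ht =>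
    (H t ht).of_card (by simp [hc])
  have h01 : (0 : ZMod k) ≠ 1 := by simpa using zmod_ne (k := k) (a := 0) (b := 1) (by omega) (by omega) (by omega)
  have h := two_layer (1 : ZMod k) (4 * (t + 1)) (4 * (t + 2))
    (fun s => if s = 0 then 4 * (t + 1) else if s = 1 then 4 * t else 4 * (2 * t + 2))
    (H' _ (by omega)) (H' _ (by omega)) (by
      intro s; split_ifs <;> exact H' _ (by omega))
  have h1 := Rz.single (fun p : ZMod k × Bool => if p.2 then (1 : ℤ) else -1)
    (by rintro ⟨_, _ | _⟩ <;> simp)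
  refine Good.toK ⟨_, (h1.add h1).add h, fun i j _ => ?_⟩ hc ?_
  · by_cases h2 : i.2 = j.2
    · rw [if_pos h2, h2]; cases j.2 <;> simp <;> omega
    · have : (if i.2 then (1 : ℤ) else -1) * (if j.2 then (1 : ℤ) else -1) = -1 := by
        revert h2; cases i.2 <;> cases j.2 <;> simp
      rw [if_neg h2, this]
      split_ifs <;> push_cast <;> omega
  · have := sum_ite2 (0 : ZMod k) 1 h01 (4 * (t + 1)) (4 * t) (4 * (2 * t + 2))
    rw [ZMod.card] at this ⊢
    nlinarith

theorem good_even (g : ℕ) (hk : k = 2 * g) (hg : 2 ≤ g) (t : ℕ) (ht : T ≤ t) :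
    GoodK k (8 * t + 9) 0 := by
  have : NeZero g := ⟨by omega⟩
  have hc : Fintype.card ((ZMod g × Bool) ⊕ (ZMod g × Bool)) = 2 * k := by
    simp [ZMod.card, hk]; ring
  have H' : ∀ t, T ≤ t → PH ((ZMod g × Bool) ⊕ (ZMod g × Bool)) (4 * t) := fun t ht =>
    (H t ht).of_card (by rw [hc]; simp)
  have h01 : (0 : ZMod g) ≠ 1 := by simpa using zmod_ne (k := g) (a := 0) (b := 1) (by omega) (by omega) (by omega)
  let E : ZMod g ⊕ Empty ≃ ZMod g := Equiv.sumEmpty _ _
  have h1 := Rz.invs_const (nu E 0 0 0) (nu_inv E 0 0 0) _ (H' (t + 1) (by omega))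
  have h2 := Rz.invs_const (nu E 1 1 0) (nu_inv E 1 1 0) _ (H' (t + 2) (by omega))
  have h3 := Rz.invs_const (beta E 0) (beta_inv E 0) _ (H' (2 * t + 2) (by omega))
  have h4 := gamma_rz E
    (fun s => if s = 0 then 4 * (t + 1) else if s = 1 then 4 * t else 4 * (2 * t + 2)) (by
      intro s; split_ifs <;> exact H' _ (by omega))
  refine Good.toK ⟨_, (((seed3.add h1).add h2).add h3).add h4, ?_⟩ hc ?_
  · rintro (p | p) (p' | p') hp
    · have hp' : p ≠ p' := fun e => hp (by rw [e])
      simp only [nu_ll E _ _ _ _ _ hp', beta_ll]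
      have : E.symm (shift p p') = .inl (shift p p') := rfl
      rw [this]
      simp only [Sum.elim_inl, Fintype.card_eq_zero]
      split_ifs <;> push_cast <;> omega
    · simp only [nu_lr, beta_lr]; push_cast; omega
    · simp only [nu_rl, beta_rl]; push_cast; omega
    · have hp' : p ≠ p' := fun e => hp (by rw [e])
      simp only [nu_rr E _ _ _ _ _ hp', beta_rr, Fintype.card_eq_zero]
      split_ifs <;> push_cast <;> omega
  · have := sum_ite2 (0 : ZMod g) 1 h01 (4 * (t + 1)) (4 * t) (4 * (2 * t + 2))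
    simp only [Fintype.card_sum, Fintype.card_prod, ZMod.card, Fintype.card_bool,
      Fintype.card_eq_zero] at this ⊢
    subst hk
    nlinarith

theorem good_odd (a : ℕ) (hk : k = 2 * a + 1) (ha : 3 ≤ a) (t : ℕ) (ht : T ≤ t) :
    GoodK k (8 * t + 9) 1 := by
  have : NeZero a := ⟨by omega⟩
  have hc : Fintype.card ((ZMod (a + 1) × Bool) ⊕ (ZMod a × Bool)) = 2 * k := by
    simp [ZMod.card, hk]; ring
  have H' : ∀ t, T ≤ t → PH ((ZMod (a + 1) × Bool) ⊕ (ZMod a × Bool)) (4 * t) := fun t ht =>
    (H t ht).of_card (by rw [hc]; simp)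
  have h01 : (0 : ZMod a) ≠ 1 := by simpa using zmod_ne (k := a) (a := 0) (b := 1) (by omega) (by omega) (by omega)
  have h02 : (0 : ZMod a) ≠ 2 := by simpa using zmod_ne (k := a) (a := 0) (b := 2) (by omega) (by omega) (by omega)
  have h12 : (1 : ZMod a) ≠ 2 := by simpa using zmod_ne (k := a) (a := 1) (b := 2) (by omega) (by omega) (by omega)
  obtain ⟨E⟩ : Nonempty (ZMod a ⊕ Unit ≃ ZMod (a + 1)) :=
    Fintype.card_eq.1 (by simp [ZMod.card])
  have h1 := Rz.invs_const (nu E (E (.inl 1)) 0 1) (nu_inv E _ 0 1) _ (H' (t + 1) (by omega))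
  have h2 := Rz.invs_const (nu E (E (.inl 2)) 0 2) (nu_inv E _ 0 2) _ (H' (t + 2) (by omega))
  have h3 := Rz.invs_const (beta E (E (.inl 0))) (beta_inv E _) _ (H' (t + 1) (by omega))
  have h3' := Rz.invs_const (beta E (E (.inr ()))) (beta_inv E _) _ (H' (t + 1) (by omega))
  have h4 := gamma_rz E
    (fun s => if s = 0 then 0 else if s = 1 then 4 * (t + 1) else if s = 2 then 4 * t
      else 4 * (2 * t + 2)) (by
      intro s; split_ifs
      · exact PH.zero
      all_goals exact H' _ (by omega))
  refine Good.toK ⟨_, ((((seed3.add h1).add h2).add h3).add h3').add h4, ?_⟩ hc ?_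
  · rintro (p | p) (p' | p') hp
    · have hp' : p ≠ p' := fun e => hp (by rw [e])
      simp only [nu_ll E _ _ _ _ _ hp', beta_ll]
      obtain ⟨c, hc⟩ := E.surjective (shift p p')
      rw [← hc]
      rcases c with c | c
      · simp only [Equiv.symm_apply_apply, Sum.elim_inl, EmbeddingLike.apply_eq_iff_eq,
          Sum.inl.injEq, Fintype.card_unique, reduceCtorEq, if_false]
        split_ifs <;> push_cast <;> omega
      · simp only [Equiv.symm_apply_apply, Sum.elim_inr, EmbeddingLike.apply_eq_iff_eq,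
          Fintype.card_unique, reduceCtorEq, if_false, if_true]
        split_ifs <;> push_cast <;> omega
    · simp only [nu_lr, beta_lr]; push_cast; omega
    · simp only [nu_rl, beta_rl]; push_cast; omega
    · have hp' : p ≠ p' := fun e => hp (by rw [e])
      simp only [nu_rr E _ _ _ _ _ hp', beta_rr, Fintype.card_unique]
      split_ifs <;> push_cast <;> omega
  · have := sum_ite3 (0 : ZMod a) 1 2 h01 h02 h12 0 (4 * (t + 1)) (4 * t) (4 * (2 * t + 2))
    simp only [Fintype.card_sum, Fintype.card_prod, ZMod.card, Fintype.card_bool,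
      Fintype.card_unique] at this ⊢
    subst hk
    nlinarith

end

theorem good_of_fun {m n q : ℕ} (c : Fin n → Fin m → Bool)
    (h : ∀ i j, i ≠ j → ∑ t, (if c t i then (1 : ℤ) else -1) * (if c t j then (1 : ℤ) else -1)
      ≤ -(q : ℤ)) : Good (Fin m) n q :=
  ⟨_, ⟨fun t i => if c t i then 1 else -1, fun t i => by cases h : c t i <;> simp [h],
    fun _ _ _ => rfl⟩, h⟩

theorem good_small2 : GoodK 2 1 0 :=
  ⟨3, rfl, good_of_fun (fun t i => decide ((t.val + i.val) % 3 = 0 ∨ i.val = 3)) (by decide)⟩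

theorem good_small3 : GoodK 3 1 1 :=
  ⟨7, rfl, good_of_fun (fun t i => decide ((t.val + i.val) % 7 ∈ [1, 2, 4])) (by decide)⟩

theorem good_small5 : GoodK 5 1 1 :=
  ⟨11, rfl, good_of_fun (fun t i => decide ((t.val + i.val) % 11 ∈ [1, 3, 4, 5, 9])) (by decide)⟩

theorem good_all {k T : ℕ} (H : ∀ t, T ≤ t → PH (Fin (2 * k)) (4 * t)) (hk : 2 ≤ k) (q b : ℕ)
    (hq : 20 * T + 19 ≤ q) (hb : (q * k + b) % 2 = 0) : GoodK k q b := by
  have h1 : GoodK k (8 * T + 9) (k % 2) := by
    have hs : ∀ b, GoodK k 1 b → GoodK k (8 * T + 9) b := fun b h => by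
      have := h.add (good_base H hk (2 * T + 2) 0 (by omega))
      have e : 1 + 4 * (2 * T + 2) = 8 * T + 9 := by ring
      rwa [e] at this
    rcases Nat.even_or_odd' k with ⟨g, hg | hg⟩
    · have e : k % 2 = 0 := by omega
      rw [e]
      by_cases h : 2 ≤ g
      · exact good_even H g hg h T le_rfl
      · have : k = 2 := by omega
        subst this; exact hs _ good_small2
    · have e : k % 2 = 1 := by omega
      rw [e]
      by_cases h : 3 ≤ g
      · exact good_odd H g hg h T le_rfl
      · have : k = 3 ∨ k = 5 := by omega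
        rcases this with rfl | rfl
        · exact hs _ good_small3
        · exact hs _ good_small5
  have h2 := good_two H hk T le_rfl
  have hpar : ∀ r, q % 2 = r → (r * (k % 2) + b) % 2 = 0 := by
    rintro r rfl
    rw [Nat.add_mod, ← Nat.mul_mod, ← Nat.add_mod]; exact hb
  have hq4 : q % 4 = 0 ∨ q % 4 = 1 ∨ q % 4 = 2 ∨ q % 4 = 3 := by omega
  rcases hq4 with h | h | h | h
  · have := hpar 0 (by omega)
    have := good_base H hk (q / 4) (b / 2) (by omega)
    rwa [show 4 * (q / 4) = q by omega, show 2 * (b / 2) = b by omega] at this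
  · have := hpar 1 (by omega)
    have := h1.add (good_base H hk ((q - (8 * T + 9)) / 4) (b / 2) (by omega))
    rwa [show 8 * T + 9 + 4 * ((q - (8 * T + 9)) / 4) = q by omega,
      show k % 2 + 2 * (b / 2) = b by omega] at this
  · have := hpar 0 (by omega)
    have := h2.add (good_base H hk ((q - (8 * T + 10)) / 4) (b / 2) (by omega))
    rwa [show 8 * T + 10 + 4 * ((q - (8 * T + 10)) / 4) = q by omega,
      show 0 + 2 * (b / 2) = b by omega] at this
  · have := hpar 1 (by omega)
    have := (h1.add h2).add (good_base H hk ((q - (16 * T + 19)) / 4) (b / 2) (by omega))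
    rwa [show 8 * T + 9 + (8 * T + 10) + 4 * ((q - (16 * T + 19)) / 4) = q by omega,
      show k % 2 + 0 + 2 * (b / 2) = b by omega] at this

end Pool.Agent.Elspas
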